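import Mathlib

/-!
# Log-Sobolev constant of Gaussian tilts of log-concave measures: definitions
-/

set_option autoImplicit false

open MeasureTheory Set
open scoped ENNReal NNReal ContDiff Pointwise

noncomputable section

namespace Pool.Agent.Q196.GT

/-- Euclidean space `ℝⁿ`. -/
abbrev E (n : ℕ) : Type := EuclideanSpace ℝ (Fin n)

/-- `π` is log-concave: `π (l A + (1 - l) B) ≥ π (A) ^ l * π (B) ^ (1 - l)` for all (nonempty)
compact sets `A`, `B` and all `l ∈ [0, 1]`. -/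
def LogConcave {n : ℕ} (π : Measure (E n)) : Prop :=
  ∀ A B : Set (E n), IsCompact A → IsCompact B → A.Nonempty → B.Nonempty →
    ∀ l ∈ Icc (0 : ℝ) 1, π A ^ l * π B ^ (1 - l) ≤ π (l • A + (1 - l) • B)

/-- The entropy `E_μ [g log g] - (E_μ g) log (E_μ g)`. -/
def Ent {X : Type*} [MeasurableSpace X] (μ : Measure X) (g : X → ℝ) : ℝ :=
  (∫ x, g x * Real.log (g x) ∂μ) - (∫ x, g x ∂μ) * Real.log (∫ x, g x ∂μ)

/-- The log-Sobolev inequality with constant `C`: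
`Ent_μ [f²] ≤ C * E_μ ‖∇ f‖²` for all smooth `f : ℝⁿ → ℝ`. -/
def LSI {n : ℕ} (μ : Measure (E n)) (C : ℝ) : Prop :=
  ∀ f : E n → ℝ, ContDiff ℝ ∞ f →
    Ent μ (fun x => f x ^ 2) ≤ C * ∫ x, ‖fderiv ℝ f x‖ ^ 2 ∂μ

/-- The log-Sobolev constant of `μ`: the smallest `C ∈ [0, ∞]` for which the log-Sobolev
inequality holds. -/
def CLSI {n : ℕ} (μ : Measure (E n)) : ℝ≥0∞ :=
  ⨅ (C : ℝ≥0) (_ : LSI μ (C : ℝ)), (C : ℝ≥0∞)

/-- The Gaussian tilt `π γ_h`: the probability measure with density proportional to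
`exp (-‖x‖² / (2 h))` with respect to `π`. -/
def tilt {n : ℕ} (π : Measure (E n)) (h : ℝ) : Measure (E n) :=
  π.tilted (fun x => -(‖x‖ ^ 2) / (2 * h))

end Pool.Agent.Q196.GT
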