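import Pool.Agent.H902R3.ZA.PLA
import Pool.Agent.H902R3.ZA.LBM

/-!
# Prékopa-Leindler inequality in dimension `n`, general weight
-/

set_option autoImplicit false

open MeasureTheory Set
open scoped ENNReal

namespace Pool.Agent.Q196.GT

open Pool.Agent.H902R3.ZA (LBM_ok)

theorem rpow_mul_iSup {a b : ℕ → ℝ≥0∞} (ha : Monotone a) (hb : Monotone b) {s : ℝ} (hs : 0 < s)
    (hs1 : s < 1) {c : ℝ≥0∞} (h : ∀ k, a k ^ s * b k ^ (1 - s) ≤ c) :
    (⨆ k, a k) ^ s * (⨆ k, b k) ^ (1 - s) ≤ c := by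
  have e : ∀ {r : ℝ} (_ : 0 < r) (a : ℕ → ℝ≥0∞), (⨆ k, a k) ^ r = ⨆ k, (a k) ^ r := by
    intro r hr a
    exact (ENNReal.orderIsoRpow r hr).map_iSup a
  rw [e hs, e (by linarith : (0 : ℝ) < 1 - s), ENNReal.iSup_mul]
  refine iSup_le fun k => ?_
  rw [ENNReal.mul_iSup]
  refine iSup_le fun l => ?_
  refine le_trans ?_ (h (max k l))
  gcongr
  · exact ha (le_max_left _ _)
  · exact hb (le_max_right _ _)

theorem lint_trunc {X : Type*} [MeasurableSpace X] {μ : Measure X} (K : X → ℝ≥0∞)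
    (hK : Measurable K) : (∫⁻ x, K x ∂μ) = ⨆ k : ℕ, ∫⁻ x, min (K x) (k : ℝ≥0∞) ∂μ := by
  rw [← lintegral_iSup (fun k => hK.min measurable_const)]
  · refine lintegral_congr (fun x => ?_)
    rw [← inf_iSup_eq, ENNReal.iSup_natCast]
    simp
  · intro k l hkl x
    simp only
    gcongr

theorem pl_one {s : ℝ} (hs : 0 < s) (hs1 : s < 1) (f g h : ℝ → ℝ≥0∞) (hf : Measurable f)
    (hg : Measurable g) (hh : Measurable h)
    (H : ∀ x y, f x ^ s * g y ^ (1 - s) ≤ h (s * x + (1 - s) * y)) :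
    (∫⁻ x, f x) ^ s * (∫⁻ x, g x) ^ (1 - s) ≤ ∫⁻ x, h x := by
  have h1s : 0 < 1 - s := by linarith
  rw [lint_trunc f hf, lint_trunc g hg]
  refine rpow_mul_iSup ?_ ?_ hs hs1 fun k => ?_
  · intro k l hkl
    exact lintegral_mono fun x => min_le_min le_rfl (by exact_mod_cast hkl)
  · intro k l hkl
    exact lintegral_mono fun x => min_le_min le_rfl (by exact_mod_cast hkl)
  rcases Nat.eq_zero_or_pos k with hk | hk
  · subst hk
    simp [hs]
  have hk0 : (k : ℝ≥0∞) ≠ 0 := by exact_mod_cast hk.ne'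
  have hkt : (k : ℝ≥0∞) ≠ ⊤ := ENNReal.natCast_ne_top k
  have hki : ((k : ℝ≥0∞)⁻¹) ≠ ⊤ := ENNReal.inv_ne_top.2 hk0
  have hki0 : ((k : ℝ≥0∞)⁻¹) ≠ 0 := ENNReal.inv_ne_zero.2 hkt
  have hle : ∀ a : ℝ≥0∞, (k : ℝ≥0∞)⁻¹ * min a (k : ℝ≥0∞) ≤ 1 := by
    intro a
    calc (k : ℝ≥0∞)⁻¹ * min a (k : ℝ≥0∞) ≤ (k : ℝ≥0∞)⁻¹ * k := by gcongr; exact min_le_right _ _
      _ = 1 := ENNReal.inv_mul_cancel hk0 hkt
  have hsplit : (k : ℝ≥0∞)⁻¹ ^ s * (k : ℝ≥0∞)⁻¹ ^ (1 - s) = (k : ℝ≥0∞)⁻¹ := by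
    rw [← ENNReal.rpow_add _ _ hki0 hki]
    simp
  have key := Pool.Agent.H902R3.ZA.PLAaux.main LBM_ok s hs hs1
    (fun x => (k : ℝ≥0∞)⁻¹ * min (f x) k) (fun x => (k : ℝ≥0∞)⁻¹ * min (g x) k)
    (fun x => (k : ℝ≥0∞)⁻¹ * h x) ((hf.min measurable_const).const_mul _)
    ((hg.min measurable_const).const_mul _) (hh.const_mul _) (fun x => hle _) (fun x => hle _) (by
      intro x y
      rw [ENNReal.mul_rpow_of_nonneg _ _ hs.le, ENNReal.mul_rpow_of_nonneg _ _ h1s.le]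
      calc (k : ℝ≥0∞)⁻¹ ^ s * min (f x) k ^ s * ((k : ℝ≥0∞)⁻¹ ^ (1 - s) * min (g y) k ^ (1 - s))
          = ((k : ℝ≥0∞)⁻¹ ^ s * (k : ℝ≥0∞)⁻¹ ^ (1 - s)) *
            (min (f x) k ^ s * min (g y) k ^ (1 - s)) := by ring
        _ ≤ (k : ℝ≥0∞)⁻¹ * (f x ^ s * g y ^ (1 - s)) := by
            rw [hsplit]
            gcongr
            · exact min_le_left _ _
            · exact min_le_left _ _
        _ ≤ _ := by gcongr; exact H x y)
  rw [lintegral_const_mul _ (hf.min measurable_const), lintegral_const_mul _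
    (hg.min measurable_const), lintegral_const_mul _ hh,
    ENNReal.mul_rpow_of_nonneg _ _ hs.le, ENNReal.mul_rpow_of_nonneg _ _ h1s.le] at key
  have e : (k : ℝ≥0∞)⁻¹ ^ s * (∫⁻ x, min (f x) k) ^ s *
      ((k : ℝ≥0∞)⁻¹ ^ (1 - s) * (∫⁻ x, min (g x) k) ^ (1 - s)) =
      (k : ℝ≥0∞)⁻¹ * ((∫⁻ x, min (f x) k) ^ s * (∫⁻ x, min (g x) k) ^ (1 - s)) := by
    rw [show (k : ℝ≥0∞)⁻¹ * ((∫⁻ x, min (f x) k) ^ s * (∫⁻ x, min (g x) k) ^ (1 - s)) =
      ((k : ℝ≥0∞)⁻¹ ^ s * (k : ℝ≥0∞)⁻¹ ^ (1 - s)) *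
        ((∫⁻ x, min (f x) k) ^ s * (∫⁻ x, min (g x) k) ^ (1 - s)) by rw [hsplit]]
    ring
  rw [e] at key
  exact (ENNReal.mul_le_mul_iff_right hki0 hki).1 key

theorem measurable_consV (n : ℕ) :
    Measurable (fun p : ℝ × (Fin n → ℝ) => (Fin.cons p.1 p.2 : Fin (n + 1) → ℝ)) := by
  rw [measurable_pi_iff]
  intro i
  refine Fin.cases ?_ (fun j => ?_) i
  · simpa using measurable_fst
  · simp only [Fin.cons_succ]
    exact (measurable_pi_apply j).comp measurable_snd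

theorem lint_succ (n : ℕ) (f : (Fin (n + 1) → ℝ) → ℝ≥0∞) (hf : Measurable f) :
    ∫⁻ s, f s = ∫⁻ x : ℝ, ∫⁻ z : Fin n → ℝ, f (Fin.cons x z) := by
  have h := (volume_preserving_piFinSuccAbove (fun _ : Fin (n + 1) => ℝ) 0).symm
  have e : (fun p : ℝ × (Fin n → ℝ) => (Fin.cons p.1 p.2 : Fin (n + 1) → ℝ)) =
      ⇑(MeasurableEquiv.piFinSuccAbove (fun _ : Fin (n + 1) => ℝ) 0).symm := by
    ext p i
    simp only [MeasurableEquiv.piFinSuccAbove_symm_apply, Fin.insertNthEquiv_zero]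
    rfl
  rw [← h.lintegral_comp hf, ← e]
  exact lintegral_prod _ (hf.comp (measurable_consV n)).aemeasurable

theorem pl_n {s : ℝ} (hs : 0 < s) (hs1 : s < 1) : ∀ (n : ℕ) (f g h : (Fin n → ℝ) → ℝ≥0∞),
    Measurable f → Measurable g → Measurable h →
    (∀ x y : Fin n → ℝ, f x ^ s * g y ^ (1 - s) ≤ h (fun i => s * x i + (1 - s) * y i)) →
    (∫⁻ x, f x) ^ s * (∫⁻ x, g x) ^ (1 - s) ≤ ∫⁻ x, h x := by
  intro n
  induction n with
  | zero =>
    intro f g h hf hg hh H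
    simp only [lintegral_unique]
    have hv : (volume : Measure (Fin 0 → ℝ)) univ = 1 := by
      rw [Measure.volume_pi_eq_dirac (fun i => i.elim0)]; simp
    rw [hv]
    simp only [mul_one]
    have h1 : ∀ x y : Fin 0 → ℝ, x = y := fun x y => Subsingleton.elim _ _
    have := H (Unique.instInhabited.default) (Unique.instInhabited.default)
    rw [h1 (fun i => _) (Unique.instInhabited.default)] at this
    exact this
  | succ n ih =>
    intro f g h hf hg hh H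
    rw [lint_succ n f hf, lint_succ n g hg, lint_succ n h hh]
    have hcons := measurable_consV n
    have hcons2 : ∀ a : ℝ, Measurable (fun v : Fin n → ℝ => (Fin.cons a v : Fin (n + 1) → ℝ)) :=
      fun a => hcons.comp (measurable_const.prodMk measurable_id)
    refine pl_one hs hs1 _ _ _ ?_ ?_ ?_ ?_
    · exact (hf.comp hcons).lintegral_prod_right'
    · exact (hg.comp hcons).lintegral_prod_right'
    · exact (hh.comp hcons).lintegral_prod_right'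
    · intro x y
      refine ih _ _ _ (hf.comp (hcons2 x)) (hg.comp (hcons2 y)) (hh.comp (hcons2 _)) ?_
      intro u v
      have := H (Fin.cons x u) (Fin.cons y v)
      refine this.trans (le_of_eq ?_)
      congr 1
      ext i
      refine Fin.cases ?_ (fun j => ?_) i <;> simp

end Pool.Agent.Q196.GT
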