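import Pool.Agent.Q196.GT.Meas
import Pool.Agent.Q196.GT.PL

/-!
# The measure is log-concave
-/

set_option autoImplicit false

open MeasureTheory Set
open scoped ENNReal NNReal ContDiff Pointwise
set_option linter.unusedSectionVars false

noncomputable section

namespace Pool.Agent.Q196.GT

theorem U1_eq : U1 = (volume : Measure ℝ).restrict (Icc 0 1) := by
  unfold U1 mq
  simp only [ENNReal.ofReal_one]
  exact withDensity_one

theorem scaling {m : ℕ} {r : ℝ} (hr : 0 < r) (φ : (Fin m → ℝ) → ℝ≥0∞) (hφ : Measurable φ) :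
    ∫⁻ z, φ (fun j => r * (2 * z j - 1)) ∂(Measure.pi fun _ : Fin m => U1) =
      (ENNReal.ofReal ((2 * r) ^ m))⁻¹ * ∫⁻ y, {y : Fin m → ℝ | ∀ j, |y j| ≤ r}.indicator φ y := by
  rw [U1_eq, ← Measure.restrict_pi_pi, ← volume_pi]
  have hBm : MeasurableSet {y : Fin m → ℝ | ∀ j, |y j| ≤ r} := by
    have : {y : Fin m → ℝ | ∀ j, |y j| ≤ r} = ⋂ j, {y | |y j| ≤ r} := by ext; simp
    rw [this]
    exact MeasurableSet.iInter fun j => measurableSet_le (by fun_prop) measurable_const
  have hKm : MeasurableSet (univ.pi fun _ : Fin m => Icc (0 : ℝ) 1) :=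
    MeasurableSet.univ_pi fun _ => measurableSet_Icc
  set Ψ : (Fin m → ℝ) → ℝ≥0∞ := {y : Fin m → ℝ | ∀ j, |y j| ≤ r}.indicator φ with hΨ
  have hΨm : Measurable Ψ := hφ.indicator hBm
  rw [← lintegral_indicator hKm]
  have e1 : ∀ z : Fin m → ℝ, (univ.pi fun _ : Fin m => Icc (0 : ℝ) 1).indicator
      (fun z => φ (fun j => r * (2 * z j - 1))) z = Ψ ((2 * r) • z + fun _ => -r) := by
    intro z
    have e2 : ((2 * r) • z + fun _ => -r) = fun j => r * (2 * z j - 1) := by
      ext j; simp; ring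
    rw [e2, hΨ]
    by_cases hz : z ∈ univ.pi fun _ : Fin m => Icc (0 : ℝ) 1
    · rw [indicator_of_mem hz, indicator_of_mem]
      intro j
      have hj := hz j (mem_univ _)
      rw [abs_mul, abs_of_pos hr]
      have : |2 * z j - 1| ≤ 1 := by
        rw [abs_le]; constructor <;> linarith [hj.1, hj.2]
      nlinarith
    · rw [indicator_of_notMem hz, indicator_of_notMem]
      intro hc
      apply hz
      intro j _
      have hj := hc j
      rw [abs_mul, abs_of_pos hr] at hj
      have : |2 * z j - 1| ≤ 1 := by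
        by_contra h
        push Not at h
        nlinarith
      rw [abs_le] at this
      constructor <;> linarith [this.1, this.2]
  simp only [e1]
  have h2r : (2 * r : ℝ) ≠ 0 := by positivity
  have hmap := Measure.map_addHaar_smul (volume : Measure (Fin m → ℝ)) h2r
  have h3 : ∫⁻ z : Fin m → ℝ, Ψ ((2 * r) • z + fun _ => -r) =
      ∫⁻ y, Ψ (y + fun _ => -r) ∂(Measure.map ((2 * r) • ·) (volume : Measure (Fin m → ℝ))) := by
    rw [lintegral_map (f := fun y : Fin m → ℝ => Ψ (y + fun _ => -r))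
      (hΨm.comp (measurable_id.add_const _)) (measurable_const_smul _)]
  rw [h3, hmap, lintegral_smul_measure, lintegral_add_right_eq_self]
  simp only [Module.finrank_fintype_fun_eq_card, Fintype.card_fin, smul_eq_mul]
  congr 1
  rw [abs_of_pos (by positivity), ENNReal.ofReal_inv_of_pos (by positivity)]

/-- affine map -/
def SS (N : ℕ) (p : Fin (N ^ 6 + 1) → ℝ) : E (N ^ 6 + 1) :=
  WithLp.toLp 2 (Fin.cons ((av N - p 0) / √(vr N)) (fun j : Fin (N ^ 6) => p j.succ))

/-- radius of the fibre -/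
def rr (N : ℕ) (t : ℝ) : ℝ := √(R2 N) * (1 - t / (N : ℝ) ^ 4)

/-- convex region -/
def RR (N : ℕ) : Set (Fin (N ^ 6 + 1) → ℝ) :=
  {p | p 0 ∈ Icc 0 (N : ℝ) ∧ ∀ j : Fin (N ^ 6), |p j.succ| ≤ rr N (p 0)}

/-- density -/
def DD (N : ℕ) (t : ℝ) : ℝ :=
  Real.exp (((N : ℝ) ^ 2 - 1) * t) / (Zq N * (2 * √(R2 N)) ^ (N ^ 6))

/-- integrand -/
def FA (N : ℕ) (B : Set (E (N ^ 6 + 1))) (p : Fin (N ^ 6 + 1) → ℝ) : ℝ≥0∞ :=
  (RR N).indicator (fun p => ENNReal.ofReal (DD N (p 0)) * B.indicator 1 (SS N p)) p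

theorem SS_cont (N : ℕ) : Continuous (SS N) := by
  have h : Continuous (fun s : Fin (N ^ 6 + 1) → ℝ => fun i => SS N s i) := by
    refine continuous_pi fun i => ?_
    refine Fin.cases ?_ (fun j => ?_) i
    · change Continuous fun s : Fin (N ^ 6 + 1) → ℝ => (av N - s 0) / √(vr N)
      fun_prop
    · change Continuous fun s : Fin (N ^ 6 + 1) → ℝ => s j.succ
      fun_prop
  exact (PiLp.continuous_toLp 2 _).comp h

theorem RR_meas (N : ℕ) : MeasurableSet (RR N) := by
  have : RR N = {p | 0 ≤ p 0} ∩ {p | p 0 ≤ (N : ℝ)} ∩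
      ⋂ j : Fin (N ^ 6), {p | |p j.succ| ≤ rr N (p 0)} := by
    ext p
    simp [RR, mem_Icc]
  rw [this]
  refine ((measurableSet_le measurable_const (by fun_prop)).inter
    (measurableSet_le (by fun_prop) measurable_const)).inter
    (MeasurableSet.iInter fun j => measurableSet_le (by fun_prop) ?_)
  unfold rr
  fun_prop

theorem DD_meas (N : ℕ) : Measurable (DD N) := by
  unfold DD; fun_prop

theorem FA_meas (N : ℕ) {B : Set (E (N ^ 6 + 1))} (hB : MeasurableSet B) :
    Measurable (FA N B) := by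
  unfold FA
  refine Measurable.indicator ?_ (RR_meas N)
  exact (((DD_meas N).comp (measurable_pi_apply 0)).ennreal_ofReal).mul
    ((measurable_one.indicator hB).comp (SS_cont N).measurable)

section
variable {N : ℕ} (hN : 2 ≤ N)
include hN

theorem PI_apply {B : Set (E (N ^ 6 + 1))} (hB : MeasurableSet B) :
    PI N B = ∫⁻ p, FA N B p := by
  have := mu_prob hN
  have hR := R2_ge hN
  have hsR : 0 < √(R2 N) := Real.sqrt_pos.2 (by linarith)
  have hZ := Zq_pos hN
  have hmp := mp_cons (mu N)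
  rw [lint_succ _ _ (FA_meas N hB)]
  unfold PI
  have hBT : MeasurableSet (TT N ⁻¹' B) := (TT_cont N).measurable hB
  rw [Measure.map_apply (TT_cont N).measurable hB, ← hmp.map_eq,
    Measure.map_apply hmp.measurable hBT,
    Measure.prod_apply (hmp.measurable hBT)]
  have h0 : mu N 0 = nu N := rfl
  have hs : (fun j : Fin (N ^ 6) => mu N j.succ) = fun _ => U1 := rfl
  rw [h0, hs]
  unfold nu mq
  have hin_meas : Measurable fun t : ℝ => (Measure.pi fun _ : Fin (N ^ 6) => U1)
      (Prod.mk t ⁻¹' ((fun p : ℝ × (Fin (N ^ 6) → ℝ) =>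
        (Fin.cons p.1 p.2 : Fin (N ^ 6 + 1) → ℝ)) ⁻¹' (TT N ⁻¹' B))) :=
    measurable_measure_prodMk_left (hmp.measurable hBT)
  rw [lintegral_withDensity_eq_lintegral_mul _ ((qq_cont N).measurable.ennreal_ofReal) hin_meas,
    ← lintegral_indicator measurableSet_Icc]
  refine lintegral_congr fun t => ?_
  by_cases ht : t ∈ Icc 0 (N : ℝ)
  · rw [indicator_of_mem ht]
    simp only [Pi.mul_apply]
    have h1 := one_sub_pos hN ht
    have hr : 0 < rr N t := by unfold rr; apply mul_pos hsR; linarith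
    -- inner integral
    set χ : (Fin (N ^ 6) → ℝ) → ℝ≥0∞ := fun y =>
      B.indicator 1 (SS N (Fin.cons t y)) with hχ
    have hχm : Measurable χ := by
      have h2 : Measurable fun y : Fin (N ^ 6) → ℝ => (Fin.cons t y : Fin (N ^ 6 + 1) → ℝ) :=
        (measurable_consV _).comp (measurable_const.prodMk measurable_id)
      exact (measurable_one.indicator hB).comp ((SS_cont N).measurable.comp h2)
    have h2 := scaling hr χ hχm
    have h3 : (Measure.pi fun _ : Fin (N ^ 6) => U1)
        (Prod.mk t ⁻¹' ((fun p : ℝ × (Fin (N ^ 6) → ℝ) =>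
          (Fin.cons p.1 p.2 : Fin (N ^ 6 + 1) → ℝ)) ⁻¹' (TT N ⁻¹' B))) =
        ∫⁻ z, χ (fun j => rr N t * (2 * z j - 1)) ∂(Measure.pi fun _ : Fin (N ^ 6) => U1) := by
      have hms : MeasurableSet (Prod.mk t ⁻¹' ((fun p : ℝ × (Fin (N ^ 6) → ℝ) =>
          (Fin.cons p.1 p.2 : Fin (N ^ 6 + 1) → ℝ)) ⁻¹' (TT N ⁻¹' B))) :=
        measurable_prodMk_left (hmp.measurable hBT)
      rw [← lintegral_indicator_one hms]
      refine lintegral_congr fun z => ?_
      have e : SS N (Fin.cons t fun j => rr N t * (2 * z j - 1)) = TT N (Fin.cons t z) := by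
        ext i
        refine Fin.cases ?_ (fun j => ?_) i
        · rfl
        · change rr N t * (2 * z j - 1) = √(R2 N) * (1 - t / (N : ℝ) ^ 4) * (2 * z j - 1)
          unfold rr; ring
      rw [hχ]
      simp only [e]
      rfl
    rw [h3, h2, ← mul_assoc]
    have h4 : ENNReal.ofReal (qq N t) * (ENNReal.ofReal ((2 * rr N t) ^ (N ^ 6)))⁻¹ =
        ENNReal.ofReal (DD N t) := by
      rw [← ENNReal.ofReal_inv_of_pos (by positivity), ← ENNReal.ofReal_mul (qq_pos hN t ht).le]
      congr 1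
      unfold qq q0 DD rr
      have hne : (1 - t / (N : ℝ) ^ 4) ≠ 0 := by linarith
      rw [← mul_assoc, mul_pow]
      set w := (1 - t / (N : ℝ) ^ 4) with hw
      field_simp
    rw [h4, ← lintegral_const_mul _ (hχm.indicator ?_)]
    · refine lintegral_congr fun y => ?_
      unfold FA
      by_cases hy : ∀ j, |y j| ≤ rr N t
      · rw [indicator_of_mem (show y ∈ {y : Fin (N ^ 6) → ℝ | ∀ j, |y j| ≤ rr N t} from hy),
          indicator_of_mem (show (Fin.cons t y : Fin (N ^ 6 + 1) → ℝ) ∈ RR N from ⟨ht, hy⟩)]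
        rfl
      · rw [indicator_of_notMem (show y ∉ {y : Fin (N ^ 6) → ℝ | ∀ j, |y j| ≤ rr N t} from hy),
          indicator_of_notMem (show (Fin.cons t y : Fin (N ^ 6 + 1) → ℝ) ∉ RR N from
            fun h => hy h.2), mul_zero]
    · have : {y : Fin (N ^ 6) → ℝ | ∀ j, |y j| ≤ rr N t} = ⋂ j, {y | |y j| ≤ rr N t} := by
        ext; simp
      rw [this]
      exact MeasurableSet.iInter fun j => measurableSet_le (by fun_prop) measurable_const
  · rw [indicator_of_notMem ht]
    symm
    have : ∀ y : Fin (N ^ 6) → ℝ, FA N B (Fin.cons t y) = 0 := by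
      intro y
      unfold FA
      rw [indicator_of_notMem]
      intro h
      exact ht h.1
    simp [this]

theorem FA_ineq {A B : Set (E (N ^ 6 + 1))} {s : ℝ} (hs : 0 < s) (hs1 : s < 1)
    (x y : Fin (N ^ 6 + 1) → ℝ) :
    FA N A x ^ s * FA N B y ^ (1 - s) ≤
      FA N (s • A + (1 - s) • B) (fun i => s * x i + (1 - s) * y i) := by
  have h1s : 0 < 1 - s := by linarith
  have hR := R2_ge hN
  have hsR : 0 < √(R2 N) := Real.sqrt_pos.2 (by linarith)
  have hZ := Zq_pos hN
  unfold FA
  by_cases hx : x ∈ RR N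
  swap
  · rw [indicator_of_notMem hx]; simp [hs]
  by_cases hy : y ∈ RR N
  swap
  · rw [indicator_of_notMem hy]; simp [h1s]
  rw [indicator_of_mem hx, indicator_of_mem hy]
  by_cases hxA : SS N x ∈ A
  swap
  · rw [indicator_of_notMem hxA]; simp [hs]
  by_cases hyB : SS N y ∈ B
  swap
  · rw [indicator_of_notMem hyB]; simp [h1s]
  have hR' : (fun i => s * x i + (1 - s) * y i) ∈ RR N := by
    refine ⟨⟨?_, ?_⟩, fun j => ?_⟩
    · have := hx.1.1; have := hy.1.1; positivity
    · nlinarith [hx.1.2, hy.1.2]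
    · have h1 := hx.2 j
      have h2 := hy.2 j
      simp only
      have e : rr N (s * x 0 + (1 - s) * y 0) = s * rr N (x 0) + (1 - s) * rr N (y 0) := by
        unfold rr; ring
      rw [e]
      calc |s * x j.succ + (1 - s) * y j.succ| ≤ |s * x j.succ| + |(1 - s) * y j.succ| :=
            abs_add_le _ _
        _ = s * |x j.succ| + (1 - s) * |y j.succ| := by
            rw [abs_mul, abs_mul, abs_of_pos hs, abs_of_pos h1s]
        _ ≤ _ := by gcongr
  have hS : SS N (fun i => s * x i + (1 - s) * y i) ∈ s • A + (1 - s) • B := by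
    have e : SS N (fun i => s * x i + (1 - s) * y i) = s • SS N x + (1 - s) • SS N y := by
      ext i
      refine Fin.cases ?_ (fun j => ?_) i
      · change (av N - (s * x 0 + (1 - s) * y 0)) / √(vr N) =
          s * ((av N - x 0) / √(vr N)) + (1 - s) * ((av N - y 0) / √(vr N))
        ring
      · rfl
    rw [e]
    exact Set.add_mem_add (Set.smul_mem_smul_set hxA) (Set.smul_mem_smul_set hyB)
  rw [indicator_of_mem hR', indicator_of_mem hxA, indicator_of_mem hyB, indicator_of_mem hS]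
  simp only [Pi.one_apply, mul_one]
  have hDx : 0 < DD N (x 0) := by unfold DD; positivity
  have hDy : 0 < DD N (y 0) := by unfold DD; positivity
  rw [ENNReal.ofReal_rpow_of_pos hDx, ENNReal.ofReal_rpow_of_pos hDy,
    ← ENNReal.ofReal_mul (by positivity)]
  apply ENNReal.ofReal_le_ofReal
  apply le_of_eq
  unfold DD
  set c := Zq N * (2 * √(R2 N)) ^ (N ^ 6) with hc
  have hc0 : 0 < c := by positivity
  rw [Real.div_rpow (Real.exp_pos _).le hc0.le, Real.div_rpow (Real.exp_pos _).le hc0.le,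
    ← Real.exp_mul, ← Real.exp_mul, div_mul_div_comm, ← Real.exp_add, ← Real.rpow_add hc0]
  congr 1
  · congr 1; ring
  · rw [show s + (1 - s) = 1 by ring, Real.rpow_one]

theorem logConcave : LogConcave (PI N) := by
  intro A B hA hB hAn hBn l hl
  rcases hl.1.eq_or_lt with h0 | h0
  · subst h0
    rw [ENNReal.rpow_zero, one_mul, sub_zero, ENNReal.rpow_one, zero_smul_set hAn, one_smul,
      zero_add]
  rcases hl.2.eq_or_lt with h1 | h1
  · subst h1
    rw [sub_self, ENNReal.rpow_zero, mul_one, ENNReal.rpow_one, zero_smul_set hBn, one_smul,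
      add_zero]
  have hC : IsCompact (l • A + (1 - l) • B) := (hA.smul l).add (hB.smul (1 - l))
  rw [PI_apply hN hA.measurableSet, PI_apply hN hB.measurableSet, PI_apply hN hC.measurableSet]
  exact pl_n h0 h1 _ _ _ _ (FA_meas N hA.measurableSet) (FA_meas N hB.measurableSet)
    (FA_meas N hC.measurableSet) (FA_ineq hN h0 h1)

end

end Pool.Agent.Q196.GT
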