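import Pool.Agent.Q196.GT.Up

/-!
# Lower bound for the log-Sobolev constant of the tilt
-/

set_option autoImplicit false

open MeasureTheory Set
open scoped ENNReal NNReal ContDiff
set_option linter.unusedSectionVars false

noncomputable section

namespace Pool.Agent.Q196.GT

/-- one dimensional Gaussian average -/
def AA (u : ℝ) : ℝ := ∫ x, Real.exp (-(u * (2 * x - 1) ^ 2)) ∂U1

theorem integrable_U1 {φ : ℝ → ℝ} (hφ : Continuous φ) : Integrable φ U1 := by
  have : IsProbabilityMeasure (mq 1 (fun _ => 1)) := inferInstanceAs (IsProbabilityMeasure U1)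
  exact integrable_of_continuous_compl isCompact_Icc mq_compl hφ

theorem int_U1_four : ∫ x, (2 * x - 1) ^ 4 ∂U1 = 1 / 5 := by
  rw [int_U1]
  have hd : ∀ t : ℝ, HasDerivAt (fun t => (2 * t - 1) ^ 5 / 10) ((2 * t - 1) ^ 4) t := by
    intro t
    have h1 := ((((hasDerivAt_id' t).const_mul 2).sub_const 1).pow 5).div_const 10
    refine h1.congr_deriv ?_
    simp only [Nat.cast_ofNat]
    ring
  rw [intervalIntegral.integral_eq_sub_of_hasDerivAt (fun t _ => hd t)]
  · norm_num
  · apply Continuous.intervalIntegrable; fun_prop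

theorem AA_upper {u v : ℝ} (hv : 0 ≤ v) (hvu : v ≤ u) : AA v ≤ AA u + (u - v) / 3 := by
  have h : AA v ≤ ∫ x, (Real.exp (-(u * (2 * x - 1) ^ 2)) + (u - v) * (2 * x - 1) ^ 2) ∂U1 := by
    unfold AA
    apply integral_mono (integrable_U1 (by fun_prop)) (integrable_U1 (by fun_prop))
    intro x
    simp only
    set y := (2 * x - 1) ^ 2
    have hy : 0 ≤ y := sq_nonneg _
    have h1 : Real.exp (-(u * y)) = Real.exp (-(v * y)) * Real.exp (-((u - v) * y)) := by
      rw [← Real.exp_add]; congr 1; ring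
    have h2 := Real.add_one_le_exp (-((u - v) * y))
    have h3 : Real.exp (-(v * y)) ≤ 1 := by
      rw [Real.exp_le_one_iff]; nlinarith [mul_nonneg hv hy]
    have h4 : 0 ≤ (u - v) * y := mul_nonneg (by linarith) hy
    rw [h1]
    nlinarith [Real.exp_pos (-(v * y))]
  rw [integral_add (integrable_U1 (by fun_prop)) (integrable_U1 (by fun_prop)),
    integral_const_mul, int_U1_sq] at h
  unfold AA at *
  linarith

theorem AA_lower {u v : ℝ} (hv : 0 ≤ v) (hvu : v ≤ u) :
    AA u + (u - v) * (1 / 3 - u / 5) ≤ AA v := by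
  have h : ∫ x, (Real.exp (-(u * (2 * x - 1) ^ 2)) +
      ((u - v) * (2 * x - 1) ^ 2 - (u - v) * u * (2 * x - 1) ^ 4)) ∂U1 ≤ AA v := by
    unfold AA
    apply integral_mono (integrable_U1 (by fun_prop)) (integrable_U1 (by fun_prop))
    intro x
    simp only
    have e4 : (2 * x - 1) ^ 4 = ((2 * x - 1) ^ 2) ^ 2 := by ring
    rw [e4]
    set y := (2 * x - 1) ^ 2
    have hy : 0 ≤ y := sq_nonneg _
    have h1 : Real.exp (-(v * y)) = Real.exp (-(u * y)) * Real.exp ((u - v) * y) := by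
      rw [← Real.exp_add]; congr 1; ring
    have h2 := Real.add_one_le_exp ((u - v) * y)
    have h3 := Real.add_one_le_exp (-(u * y))
    have h4 : 0 ≤ (u - v) * y := mul_nonneg (by linarith) hy
    rw [h1]
    have h5 : Real.exp (-(u * y)) * ((u - v) * y + 1) ≤
        Real.exp (-(u * y)) * Real.exp ((u - v) * y) :=
      mul_le_mul_of_nonneg_left h2 (Real.exp_pos _).le
    have h6 : (-(u * y) + 1) * ((u - v) * y) ≤ Real.exp (-(u * y)) * ((u - v) * y) :=
      mul_le_mul_of_nonneg_right h3 h4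
    nlinarith
  rw [integral_add (integrable_U1 (by fun_prop)) (integrable_U1 (by fun_prop)),
    integral_sub (integrable_U1 (by fun_prop)) (integrable_U1 (by fun_prop)),
    integral_const_mul, integral_const_mul, int_U1_sq, int_U1_four] at h
  unfold AA at *
  linarith

theorem AA_zero : AA 0 = 1 := by
  unfold AA
  simp

theorem AA_le_one {v : ℝ} (hv : 0 ≤ v) : AA v ≤ 1 := by
  have h : AA v ≤ ∫ _x, (1 : ℝ) ∂U1 := by
    unfold AA
    apply integral_mono (integrable_U1 (by fun_prop)) (integrable_const _)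
    intro x
    simp only
    rw [Real.exp_le_one_iff]
    nlinarith [mul_nonneg hv (sq_nonneg (2 * x - 1))]
  simpa using h

theorem AA_ge {u : ℝ} (hu : 0 ≤ u) : 1 - u / 3 ≤ AA u := by
  have := AA_upper le_rfl hu
  rw [AA_zero] at this
  linarith

theorem AA_cont : Continuous AA := by
  rw [Metric.continuous_iff]
  -- `AA` is Lipschitz on bounded sets; we use the dominated convergence theorem instead
  intro u ε hε
  have hc : Continuous fun u : ℝ => ∫ t in (0 : ℝ)..1, Real.exp (-(u * (2 * t - 1) ^ 2)) := by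
    apply intervalIntegral.continuous_parametric_intervalIntegral_of_continuous'
    fun_prop
  have e : AA = fun u : ℝ => ∫ t in (0 : ℝ)..1, Real.exp (-(u * (2 * t - 1) ^ 2)) := by
    ext u
    unfold AA
    rw [int_U1]
  rw [e]
  exact (Metric.continuous_iff.1 hc) u ε hε

/-- exponent -/
def uu (N : ℕ) (t : ℝ) : ℝ := R2 N * (1 - t / (N : ℝ) ^ 4) ^ 2 / (2 * (N : ℝ) ^ 2)

/-- the density of the first marginal of the tilt (up to a constant) -/
def GG (N : ℕ) (t : ℝ) : ℝ :=
  Real.exp (-((av N - t) ^ 2 / (2 * vr N * (N : ℝ) ^ 2))) * AA (uu N t) ^ (N ^ 6) * qq N t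

theorem GG_cont (N : ℕ) : Continuous (GG N) := by
  unfold GG
  refine ((Real.continuous_exp.comp (by fun_prop)).mul ((AA_cont.comp ?_).pow _)).mul (qq_cont N)
  unfold uu
  fun_prop

section
variable {N : ℕ} (hN : 2 ≤ N)
include hN

theorem uu_nonneg {t : ℝ} : 0 ≤ uu N t := by
  have := R2_ge hN
  unfold uu
  positivity

theorem uu_le {t : ℝ} (ht : t ∈ Icc 0 (N : ℝ)) : uu N t ≤ 2 * (1 / (N : ℝ)) ^ 2 := by
  have h0 : (0 : ℝ) < N := by positivity
  have h1 := one_sub_le hN ht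
  have h1' := one_sub_pos hN ht
  have h2 := R2_le4 hN
  have h3 := R2_ge hN
  unfold uu
  have h4 : R2 N * (1 - t / (N : ℝ) ^ 4) ^ 2 ≤ 4 * 1 := by
    apply mul_le_mul h2 _ (sq_nonneg _) (by norm_num)
    exact pow_le_one₀ (by linarith) h1
  rw [div_le_iff₀ (by positivity)]
  have : 2 * (1 / (N : ℝ)) ^ 2 * (2 * (N : ℝ) ^ 2) = 4 := by field_simp; norm_num
  linarith

theorem uu_diff {s t : ℝ} : (N : ℝ) ^ 6 * (uu N s - uu N t) =
    R2 N / 2 * (t - s) * (2 - (s + t) / (N : ℝ) ^ 4) := by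
  have h0 : (0 : ℝ) < N := by positivity
  unfold uu
  field_simp
  ring

theorem uu_anti {s t : ℝ} (hs : s ∈ Icc 0 (N : ℝ)) (ht : t ∈ Icc 0 (N : ℝ)) (hst : s ≤ t) :
    uu N t ≤ uu N s := by
  have h0 : (0 : ℝ) < N := by positivity
  have h := uu_diff hN (s := s) (t := t)
  have h1 := one_sub_pos hN hs
  have h2 := one_sub_pos hN ht
  have h3 := R2_ge hN
  have h4 : 0 ≤ R2 N / 2 * (t - s) * (2 - (s + t) / (N : ℝ) ^ 4) := by
    have : 0 ≤ 2 - (s + t) / (N : ℝ) ^ 4 := by rw [add_div]; linarith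
    have h5 : 0 ≤ t - s := by linarith
    positivity
  rw [← h] at h4
  have h6 : 0 < (N : ℝ) ^ 6 := by positivity
  nlinarith [(mul_nonneg_iff_of_pos_left h6).1 h4]

theorem AA_pos {t : ℝ} (ht : t ∈ Icc 0 (N : ℝ)) : 1 / 2 ≤ AA (uu N t) := by
  have h0 : (0 : ℝ) < N := by positivity
  have h2 : (2 : ℝ) ≤ N := by exact_mod_cast hN
  have h := AA_ge (uu_nonneg hN (t := t))
  have h1 := uu_le hN ht
  have h3 : 1 / (N : ℝ) ≤ 1 / 2 := one_div_le_one_div_of_le (by norm_num) h2
  have h4 : 0 < 1 / (N : ℝ) := by positivity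
  nlinarith

/-- the ratio bound for the Gaussian average -/
theorem AA_ratio_upper {s t : ℝ} (hs : s ∈ Icc 0 (N : ℝ)) (ht : t ∈ Icc 0 (N : ℝ))
    (hst : s ≤ t) :
    AA (uu N t) ^ (N ^ 6) ≤ Real.exp ((t - s) + 2 * (t - s) / N) * AA (uu N s) ^ (N ^ 6) := by
  have h0 : (0 : ℝ) < N := by positivity
  have h2 : (2 : ℝ) ≤ N := by exact_mod_cast hN
  have hv0 := uu_nonneg hN (t := t)
  have hu0 := uu_nonneg hN (t := s)
  have hvu := uu_anti hN hs ht hst
  have hAu := AA_pos hN hs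
  have hAv := AA_pos hN ht
  have hup := AA_upper hv0 hvu
  have hge := AA_ge hu0
  have hul := uu_le hN hs
  set y : ℝ := 1 / (N : ℝ) with hy
  have hy0 : 0 < y := by positivity
  have hy2 : y ≤ 1 / 2 := one_div_le_one_div_of_le (by norm_num) h2
  have hR := R2_le hN
  have hy3 : 1 / (N : ℝ) ^ 3 = y ^ 3 := by rw [hy]; field_simp
  rw [hy3] at hR
  have hR3 := R2_ge hN
  have hd : 0 ≤ t - s := by linarith
  -- comparison of the exponents
  have hRle : R2 N ≤ (3 - uu N s) * (1 + 2 * y) := by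
    have a1 : (3 : ℝ) - y ≤ 3 - uu N s := by nlinarith
    have a2 : (1 : ℝ) - y / 2 ≤ (1 - y ^ 3) ^ 2 := by
      have : y ^ 3 ≤ y / 4 := by nlinarith [mul_nonneg hy0.le hy0.le, mul_pos hy0 hy0]
      nlinarith [sq_nonneg (y ^ 3)]
    have a3 : 3 ≤ (3 - y) * (1 + 2 * y) * (1 - y / 2) := by nlinarith [mul_pos hy0 hy0]
    have a4 : 0 < (1 - y ^ 3) ^ 2 := by nlinarith
    have a5 : (3 - y) * (1 + 2 * y) * (1 - y / 2) ≤
        (3 - uu N s) * (1 + 2 * y) * (1 - y ^ 3) ^ 2 := by
      have b1 : (3 - y) * (1 + 2 * y) ≤ (3 - uu N s) * (1 + 2 * y) :=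
        mul_le_mul_of_nonneg_right a1 (by linarith)
      have b2 : 0 ≤ (3 - y) * (1 + 2 * y) := by
        apply mul_nonneg <;> linarith
      exact mul_le_mul b1 a2 (by linarith) (b2.trans b1)
    have a6 : R2 N * (1 - y ^ 3) ^ 2 ≤ (3 - uu N s) * (1 + 2 * y) * (1 - y ^ 3) ^ 2 := by linarith
    exact le_of_mul_le_mul_right a6 a4
  have hexp : (N : ℝ) ^ 6 * ((uu N s - uu N t) / (3 * AA (uu N s))) ≤
      (t - s) + 2 * (t - s) / N := by
    have c1 : (N : ℝ) ^ 6 * ((uu N s - uu N t) / (3 * AA (uu N s))) =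
        (R2 N / 2 * (t - s) * (2 - (s + t) / (N : ℝ) ^ 4)) / (3 * AA (uu N s)) := by
      rw [← uu_diff hN, mul_div_assoc]
    rw [c1, div_le_iff₀ (by positivity)]
    have c2 : 0 ≤ (s + t) / (N : ℝ) ^ 4 := div_nonneg (by linarith [hs.1, ht.1]) (by positivity)
    have c3 : R2 N / 2 * (t - s) * (2 - (s + t) / (N : ℝ) ^ 4) ≤ R2 N * (t - s) := by
      have : 0 ≤ R2 N / 2 * (t - s) := by positivity
      nlinarith
    have c4 : (t - s + 2 * (t - s) / N) = (t - s) * (1 + 2 * y) := by rw [hy]; ring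
    have c5 : 3 - uu N s ≤ 3 * AA (uu N s) := by linarith
    rw [c4]
    calc R2 N / 2 * (t - s) * (2 - (s + t) / (N : ℝ) ^ 4) ≤ R2 N * (t - s) := c3
      _ ≤ ((3 - uu N s) * (1 + 2 * y)) * (t - s) := mul_le_mul_of_nonneg_right hRle hd
      _ ≤ ((3 * AA (uu N s)) * (1 + 2 * y)) * (t - s) := by gcongr
      _ = _ := by ring
  have hstep : AA (uu N t) ≤ AA (uu N s) * Real.exp ((uu N s - uu N t) / (3 * AA (uu N s))) := by
    have := Real.add_one_le_exp ((uu N s - uu N t) / (3 * AA (uu N s)))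
    calc AA (uu N t) ≤ AA (uu N s) * ((uu N s - uu N t) / (3 * AA (uu N s)) + 1) := by
          have : AA (uu N s) * ((uu N s - uu N t) / (3 * AA (uu N s)) + 1) =
              AA (uu N s) + (uu N s - uu N t) / 3 := by
            have : AA (uu N s) ≠ 0 := by linarith
            field_simp
            ring
          rw [this]; exact hup
      _ ≤ _ := mul_le_mul_of_nonneg_left this (by linarith)
  calc AA (uu N t) ^ (N ^ 6)
      ≤ (AA (uu N s) * Real.exp ((uu N s - uu N t) / (3 * AA (uu N s)))) ^ (N ^ 6) :=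
        pow_le_pow_left₀ (by linarith) hstep _
    _ = Real.exp ((N : ℝ) ^ 6 * ((uu N s - uu N t) / (3 * AA (uu N s)))) *
        AA (uu N s) ^ (N ^ 6) := by
        rw [mul_pow, ← Real.exp_nat_mul]; push_cast; ring
    _ ≤ _ := mul_le_mul_of_nonneg_right (Real.exp_le_exp.2 hexp) (pow_nonneg (by linarith) _)

theorem AA_ratio_lower {s t : ℝ} (hs : s ∈ Icc 0 (N : ℝ)) (ht : t ∈ Icc 0 (N : ℝ))
    (hst : s ≤ t) :
    Real.exp ((t - s) - 2 * (t - s) / N) * AA (uu N s) ^ (N ^ 6) ≤ AA (uu N t) ^ (N ^ 6) := by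
  have h0 : (0 : ℝ) < N := by positivity
  have h2 : (2 : ℝ) ≤ N := by exact_mod_cast hN
  have hv0 := uu_nonneg hN (t := t)
  have hu0 := uu_nonneg hN (t := s)
  have hvu := uu_anti hN hs ht hst
  have hAu := AA_pos hN hs
  have hAv := AA_pos hN ht
  have hlow := AA_lower hv0 hvu
  have hul := uu_le hN hs
  have hA1 := AA_le_one hv0
  set y : ℝ := 1 / (N : ℝ) with hy
  have hy0 : 0 < y := by positivity
  have hy2 : y ≤ 1 / 2 := one_div_le_one_div_of_le (by norm_num) h2
  have hR3 := R2_ge hN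
  have hd : 0 ≤ t - s := by linarith
  have hκ : 1 / 3 - 2 / 5 * y ^ 2 ≤ 1 / 3 - uu N s / 5 := by linarith
  have hκ0 : 0 ≤ 1 / 3 - 2 / 5 * y ^ 2 := by nlinarith
  have hexp : (t - s) - 2 * (t - s) / N ≤
      (N : ℝ) ^ 6 * ((uu N s - uu N t) * (1 / 3 - uu N s / 5)) := by
    rw [← mul_assoc, uu_diff hN]
    have c2 : (s + t) / (N : ℝ) ^ 4 ≤ 2 * y ^ 3 := by
      have hs3 := dl_le hN hs
      have ht3 := dl_le hN ht
      have : 1 / (N : ℝ) ^ 3 = y ^ 3 := by rw [hy]; field_simp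
      rw [this] at hs3 ht3
      rw [add_div]; linarith
    have c4 : (t - s - 2 * (t - s) / N) = (t - s) * (1 - 2 * y) := by rw [hy]; ring
    rw [c4]
    have y3 : 0 ≤ 2 - 2 * y ^ 3 := by nlinarith [mul_pos hy0 hy0]
    calc (t - s) * (1 - 2 * y) ≤ (t - s) * ((3 / 2) * (2 - 2 * y ^ 3) * (1 / 3 - 2 / 5 * y ^ 2)) := by
          apply mul_le_mul_of_nonneg_left _ hd
          nlinarith [mul_pos hy0 hy0, mul_pos (mul_pos hy0 hy0) hy0,
            mul_pos (mul_pos hy0 hy0) (mul_pos (mul_pos hy0 hy0) hy0)]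
      _ = (3 / 2) * (t - s) * (2 - 2 * y ^ 3) * (1 / 3 - 2 / 5 * y ^ 2) := by ring
      _ ≤ R2 N / 2 * (t - s) * (2 - (s + t) / (N : ℝ) ^ 4) * (1 / 3 - uu N s / 5) := by
          apply mul_le_mul _ hκ hκ0
          · have : 0 ≤ 2 - (s + t) / (N : ℝ) ^ 4 := by linarith
            positivity
          · apply mul_le_mul _ (by linarith) y3
            · positivity
            · apply mul_le_mul_of_nonneg_right _ hd; linarith
  have hstep : AA (uu N s) ≤
      AA (uu N t) * Real.exp (-((uu N s - uu N t) * (1 / 3 - uu N s / 5))) := by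
    have h5 := Real.add_one_le_exp (-((uu N s - uu N t) * (1 / 3 - uu N s / 5)))
    have h6 : 0 ≤ (uu N s - uu N t) * (1 / 3 - uu N s / 5) :=
      mul_nonneg (by linarith) (hκ0.trans hκ)
    calc AA (uu N s) ≤ AA (uu N t) - (uu N s - uu N t) * (1 / 3 - uu N s / 5) := by linarith
      _ ≤ AA (uu N t) * (-((uu N s - uu N t) * (1 / 3 - uu N s / 5)) + 1) := by nlinarith
      _ ≤ _ := mul_le_mul_of_nonneg_left h5 (by linarith)
  have hpow : AA (uu N s) ^ (N ^ 6) ≤ AA (uu N t) ^ (N ^ 6) *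
      Real.exp (-((N : ℝ) ^ 6 * ((uu N s - uu N t) * (1 / 3 - uu N s / 5)))) := by
    have := pow_le_pow_left₀ (by linarith) hstep (N ^ 6)
    rw [mul_pow, ← Real.exp_nat_mul] at this
    push_cast at this
    rwa [mul_neg] at this
  have hAt : 0 ≤ AA (uu N t) ^ (N ^ 6) := pow_nonneg (by linarith) _
  calc Real.exp ((t - s) - 2 * (t - s) / N) * AA (uu N s) ^ (N ^ 6)
      ≤ Real.exp ((N : ℝ) ^ 6 * ((uu N s - uu N t) * (1 / 3 - uu N s / 5))) *
        (AA (uu N t) ^ (N ^ 6) *
          Real.exp (-((N : ℝ) ^ 6 * ((uu N s - uu N t) * (1 / 3 - uu N s / 5))))) := by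
        apply mul_le_mul (Real.exp_le_exp.2 hexp) hpow
        · exact pow_nonneg (by linarith) _
        · exact (Real.exp_pos _).le
    _ = AA (uu N t) ^ (N ^ 6) *
        (Real.exp ((N : ℝ) ^ 6 * ((uu N s - uu N t) * (1 / 3 - uu N s / 5))) *
          Real.exp (-((N : ℝ) ^ 6 * ((uu N s - uu N t) * (1 / 3 - uu N s / 5))))) := by ring
    _ = AA (uu N t) ^ (N ^ 6) := by rw [← Real.exp_add]; simp

theorem gauss_mem {t : ℝ} (ht : t ∈ Icc 0 (N : ℝ)) :
    Real.exp (-((av N - t) ^ 2 / (2 * vr N * (N : ℝ) ^ 2))) ∈ Icc (Real.exp (-45)) 1 := by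
  have h0 : (0 : ℝ) < N := by positivity
  have hV := vr_pos hN
  have ha := av_mem hN
  have h1 := inv_vr_le hN
  constructor
  · apply Real.exp_le_exp.2
    apply neg_le_neg
    refine le_trans ?_ h1
    rw [div_le_div_iff₀ (by positivity) (by positivity)]
    have : (av N - t) ^ 2 ≤ (N : ℝ) ^ 2 := by
      apply sq_le_sq.2
      rw [abs_of_pos h0, abs_le]
      constructor <;> linarith [ht.1, ht.2, ha.1, ha.2]
    nlinarith
  · rw [Real.exp_le_one_iff]
    have : 0 ≤ (av N - t) ^ 2 / (2 * vr N * (N : ℝ) ^ 2) := by positivity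
    linarith

theorem GG_pos {t : ℝ} (ht : t ∈ Icc 0 (N : ℝ)) : 0 < GG N t := by
  have := AA_pos hN ht
  have := qq_pos hN t ht
  unfold GG
  have : 0 < AA (uu N t) := by linarith
  positivity

theorem GG_compare {s t : ℝ} (hs : s ∈ Icc 0 (N : ℝ)) (ht : t ∈ Icc 0 (N : ℝ)) (hst : s ≤ t) :
    Real.exp (-49) * GG N s ≤ GG N t ∧ GG N t ≤ Real.exp 49 * GG N s := by
  have h0 : (0 : ℝ) < N := by positivity
  have hgs := gauss_mem hN hs
  have hgt := gauss_mem hN ht
  have hAs : 0 < AA (uu N s) ^ (N ^ 6) := pow_pos (by linarith [AA_pos hN hs]) _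
  have hAt : 0 < AA (uu N t) ^ (N ^ 6) := pow_pos (by linarith [AA_pos hN ht]) _
  have hqs := qq_pos hN s hs
  have hqt := qq_pos hN t ht
  have a1 := AA_ratio_upper hN hs ht hst
  have a2 := AA_ratio_lower hN hs ht hst
  have b1 := qq_upper hN hs ht hst
  have b2 := qq_lower hN hs ht hst
  have hdN : (t - s) / N ≤ 1 := by
    rw [div_le_one h0]; linarith [hs.1, ht.2]
  have hdN0 : 0 ≤ (t - s) / N := div_nonneg (by linarith) h0.le
  have e2 : 2 * (t - s) / N = 2 * ((t - s) / N) := by ring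
  rw [e2] at a1 a2 b2
  unfold GG
  set gs := Real.exp (-((av N - s) ^ 2 / (2 * vr N * (N : ℝ) ^ 2)))
  set gt := Real.exp (-((av N - t) ^ 2 / (2 * vr N * (N : ℝ) ^ 2)))
  set As := AA (uu N s) ^ (N ^ 6)
  set At := AA (uu N t) ^ (N ^ 6)
  have hgs0 : 0 < gs := Real.exp_pos _
  have hgt0 : 0 < gt := Real.exp_pos _
  constructor
  · have c1 : Real.exp (-4) * (As * qq N s) ≤ At * qq N t := by
      calc Real.exp (-4) * (As * qq N s)
          ≤ (Real.exp ((t - s) - 2 * ((t - s) / N)) * Real.exp (-(t - s) - 2 * ((t - s) / N))) *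
            (As * qq N s) := by
            apply mul_le_mul_of_nonneg_right _ (by positivity)
            rw [← Real.exp_add]
            apply Real.exp_le_exp.2
            linarith
        _ = (Real.exp ((t - s) - 2 * ((t - s) / N)) * As) *
            (Real.exp (-(t - s) - 2 * ((t - s) / N)) * qq N s) := by ring
        _ ≤ At * qq N t := mul_le_mul a2 b2 (by positivity) hAt.le
    calc Real.exp (-49) * (gs * As * qq N s)
        = (Real.exp (-45) * gs) * (Real.exp (-4) * (As * qq N s)) := by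
          rw [show (-49 : ℝ) = -45 + -4 by norm_num, Real.exp_add]; ring
      _ ≤ gt * (At * qq N t) := by
          apply mul_le_mul _ c1 (by positivity) hgt0.le
          calc Real.exp (-45) * gs ≤ Real.exp (-45) * 1 :=
                mul_le_mul_of_nonneg_left hgs.2 (Real.exp_pos _).le
            _ ≤ gt := by rw [mul_one]; exact hgt.1
      _ = _ := by ring
  · have c1 : At * qq N t ≤ Real.exp 4 * (As * qq N s) := by
      calc At * qq N t ≤ (Real.exp ((t - s) + 2 * ((t - s) / N)) * As) *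
            (Real.exp (-(t - s)) * qq N s) := mul_le_mul a1 b1 hqt.le (by positivity)
        _ = (Real.exp ((t - s) + 2 * ((t - s) / N)) * Real.exp (-(t - s))) * (As * qq N s) := by ring
        _ ≤ _ := by
            apply mul_le_mul_of_nonneg_right _ (by positivity)
            rw [← Real.exp_add]
            apply Real.exp_le_exp.2
            linarith
    calc gt * At * qq N t = gt * (At * qq N t) := by ring
      _ ≤ (Real.exp 45 * gs) * (Real.exp 4 * (As * qq N s)) := by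
          apply mul_le_mul _ c1 (by positivity) (by positivity)
          calc gt ≤ 1 := hgt.2
            _ = Real.exp 45 * Real.exp (-45) := by rw [← Real.exp_add]; simp
            _ ≤ Real.exp 45 * gs := mul_le_mul_of_nonneg_left hgs.1 (Real.exp_pos _).le
      _ = _ := by
          rw [show (49 : ℝ) = 45 + 4 by norm_num, Real.exp_add]; ring

end

end Pool.Agent.Q196.GT
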