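import Pool.Agent.Q196.GT.Low

/-!
# Lower bound for the log-Sobolev constant of the tilt, end of the proof
-/

set_option autoImplicit false

open MeasureTheory Set
open scoped ENNReal NNReal ContDiff
set_option linter.unusedSectionVars false

noncomputable section

namespace Pool.Agent.Q196.GT

section
variable {N : ℕ} (hN : 2 ≤ N)
include hN

theorem norm_TT (s : Fin (N ^ 6 + 1) → ℝ) :
    ‖TT N s‖ ^ 2 / (2 * (N : ℝ) ^ 2) = (av N - s 0) ^ 2 / (2 * vr N * (N : ℝ) ^ 2) +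
      ∑ j : Fin (N ^ 6), uu N (s 0) * (2 * s j.succ - 1) ^ 2 := by
  have h0 : (0 : ℝ) < N := by positivity
  have hV := vr_pos hN
  have hR : 0 ≤ R2 N := by linarith [R2_ge hN]
  rw [EuclideanSpace.norm_sq_eq, Fin.sum_univ_succ, add_div, Finset.sum_div]
  congr 1
  · rw [TT_zero, Real.norm_eq_abs, sq_abs, div_pow, Real.sq_sqrt hV.le]
    field_simp
  · refine Finset.sum_congr rfl fun j _ => ?_
    rw [TT_succ, Real.norm_eq_abs, sq_abs, mul_pow, mul_pow, Real.sq_sqrt hR]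
    unfold uu
    field_simp

theorem int_weight {ψ : ℝ → ℝ} (hψ : Continuous ψ) :
    ∫ s, ψ (s 0) * Real.exp (-(‖TT N s‖ ^ 2) / (2 * (N : ℝ) ^ 2)) ∂(Measure.pi (mu N)) =
      ∫ t in (0 : ℝ)..N, GG N t * ψ t := by
  have := mu_prob hN
  have hmp := mp_cons (mu N)
  have hc : Continuous fun s : Fin (N ^ 6 + 1) → ℝ =>
      ψ (s 0) * Real.exp (-(‖TT N s‖ ^ 2) / (2 * (N : ℝ) ^ 2)) := by
    have := TT_cont N
    fun_prop
  have h0 : (0 : ℝ) ≤ N := by positivity
  rw [← hmp.map_eq, integral_map hmp.measurable.aemeasurable hc.measurable.aestronglyMeasurable]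
  have hpt : ∀ p : ℝ × (Fin (N ^ 6) → ℝ),
      ψ ((Fin.cons p.1 p.2 : Fin (N ^ 6 + 1) → ℝ) 0) *
        Real.exp (-(‖TT N (Fin.cons p.1 p.2)‖ ^ 2) / (2 * (N : ℝ) ^ 2)) =
      ψ p.1 * Real.exp (-((av N - p.1) ^ 2 / (2 * vr N * (N : ℝ) ^ 2))) *
        ∏ j : Fin (N ^ 6), Real.exp (-(uu N p.1 * (2 * p.2 j - 1) ^ 2)) := by
    intro p
    rw [neg_div, norm_TT hN, neg_add, Real.exp_add, ← Real.exp_sum, ← Finset.sum_neg_distrib]
    simp only [Fin.cons_zero, Fin.cons_succ]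
    ring
  simp only [hpt]
  have hint : Integrable (fun p : ℝ × (Fin (N ^ 6) → ℝ) =>
      ψ p.1 * Real.exp (-((av N - p.1) ^ 2 / (2 * vr N * (N : ℝ) ^ 2))) *
        ∏ j : Fin (N ^ 6), Real.exp (-(uu N p.1 * (2 * p.2 j - 1) ^ 2)))
      ((mu N 0).prod (Measure.pi fun j : Fin (N ^ 6) => mu N j.succ)) := by
    have h1 := (int_P hN hc)
    rw [← hmp.map_eq, integrable_map_measure hc.measurable.aestronglyMeasurable
      hmp.measurable.aemeasurable] at h1
    refine h1.congr (Filter.Eventually.of_forall fun p => ?_)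
    exact hpt p
  rw [integral_prod _ hint]
  have hin : ∀ t : ℝ, ∫ z, ψ t * Real.exp (-((av N - t) ^ 2 / (2 * vr N * (N : ℝ) ^ 2))) *
        ∏ j : Fin (N ^ 6), Real.exp (-(uu N t * (2 * z j - 1) ^ 2))
        ∂(Measure.pi fun j : Fin (N ^ 6) => mu N j.succ) =
      ψ t * Real.exp (-((av N - t) ^ 2 / (2 * vr N * (N : ℝ) ^ 2))) * AA (uu N t) ^ (N ^ 6) := by
    intro t
    rw [integral_const_mul]
    congr 1
    have h2 := integral_fintype_prod_eq_prod (𝕜 := ℝ) (μ := fun j : Fin (N ^ 6) => mu N j.succ)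
      (fun _ x => Real.exp (-(uu N t * (2 * x - 1) ^ 2)))
    rw [h2]
    have h3 : ∀ j : Fin (N ^ 6), ∫ x, Real.exp (-(uu N t * (2 * x - 1) ^ 2)) ∂(mu N j.succ) =
        AA (uu N t) := fun j => rfl
    simp only [h3]
    simp
  simp only [hin]
  have h4 : ∫ t, ψ t * Real.exp (-((av N - t) ^ 2 / (2 * vr N * (N : ℝ) ^ 2))) *
      AA (uu N t) ^ (N ^ 6) ∂(mu N 0) = _ := int_nu hN (fun t => ψ t *
        Real.exp (-((av N - t) ^ 2 / (2 * vr N * (N : ℝ) ^ 2))) * AA (uu N t) ^ (N ^ 6))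
  rw [h4]
  refine intervalIntegral.integral_congr fun t _ => ?_
  unfold GG
  ring

theorem GG_total : ∫ t in (0 : ℝ)..N, GG N t ≤ N * (Real.exp 49 * GG N 0) := by
  have h0 : (0 : ℝ) < N := by positivity
  have h1 : ∫ t in (0 : ℝ)..N, GG N t ≤ ∫ _t in (0 : ℝ)..N, Real.exp 49 * GG N 0 := by
    apply intervalIntegral.integral_mono_on h0.le
    · exact (GG_cont N).intervalIntegrable _ _
    · exact intervalIntegrable_const
    · intro t ht
      exact (GG_compare hN ⟨le_rfl, h0.le⟩ ht ht.1).2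
  rw [intervalIntegral.integral_const, smul_eq_mul, sub_zero] at h1
  exact h1

theorem GG_total_pos : 0 < ∫ t in (0 : ℝ)..N, GG N t := by
  have h0 : (0 : ℝ) < N := by positivity
  exact intervalIntegral.intervalIntegral_pos_of_pos_on ((GG_cont N).intervalIntegrable _ _)
    (fun t ht => GG_pos hN ⟨ht.1.le, ht.2.le⟩) h0

theorem GG_var (c β : ℝ) : Real.exp (-49) * GG N 0 * (c ^ 2 * (N : ℝ) ^ 3 / 12) ≤
    ∫ t in (0 : ℝ)..N, GG N t * (c * t - β) ^ 2 := by
  have h0 : (0 : ℝ) < N := by positivity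
  have h1 : ∫ t in (0 : ℝ)..N, (Real.exp (-49) * GG N 0) * (c * t - β) ^ 2 ≤
      ∫ t in (0 : ℝ)..N, GG N t * (c * t - β) ^ 2 := by
    apply intervalIntegral.integral_mono_on h0.le
    · apply Continuous.intervalIntegrable; fun_prop
    · exact ((GG_cont N).mul (by fun_prop)).intervalIntegrable _ _
    · intro t ht
      apply mul_le_mul_of_nonneg_right _ (sq_nonneg _)
      exact (GG_compare hN ⟨le_rfl, h0.le⟩ ht ht.1).1
  rw [intervalIntegral.integral_const_mul] at h1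
  refine le_trans ?_ h1
  apply mul_le_mul_of_nonneg_left (sq_int_ge hN c β N h0)
  have := GG_pos hN (t := 0) ⟨le_rfl, h0.le⟩
  positivity

/-- the tilt is a probability measure -/
theorem tilt_prob : IsProbabilityMeasure (tilt (PI N) ((N : ℝ) ^ 2)) := by
  have := PI_prob hN
  unfold tilt
  apply isProbabilityMeasure_tilted
  obtain ⟨K, hK, h0⟩ := compact_supp hN
  exact integrable_of_continuous_compl hK h0 (by fun_prop)

theorem tilt_integrable {φ : E (N ^ 6 + 1) → ℝ} (hφ : Continuous φ) :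
    Integrable φ (tilt (PI N) ((N : ℝ) ^ 2)) := by
  have := tilt_prob hN
  obtain ⟨K, hK, h0⟩ := compact_supp hN
  refine integrable_of_continuous_compl hK ?_ hφ
  unfold tilt
  exact tilted_absolutelyContinuous _ _ h0

theorem int_tilt {ψ : ℝ → ℝ} (hψ : Continuous ψ) :
    ∫ x, ψ (av N - √(vr N) * x 0) ∂(tilt (PI N) ((N : ℝ) ^ 2)) =
      (∫ t in (0 : ℝ)..N, GG N t * ψ t) / ∫ t in (0 : ℝ)..N, GG N t := by
  have hV := vr_pos hN
  have hσ : √(vr N) ≠ 0 := (Real.sqrt_pos.2 hV).ne'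
  unfold tilt
  rw [integral_tilted]
  have e1 : ∫ x, Real.exp (-(‖x‖ ^ 2) / (2 * (N : ℝ) ^ 2)) ∂(PI N) =
      ∫ t in (0 : ℝ)..N, GG N t := by
    rw [int_PI (by fun_prop)]
    have := int_weight hN (ψ := fun _ => 1) continuous_const
    simpa using this
  rw [e1]
  have e2 : ∀ x : E (N ^ 6 + 1), (Real.exp (-(‖x‖ ^ 2) / (2 * (N : ℝ) ^ 2)) /
      ∫ t in (0 : ℝ)..N, GG N t) • ψ (av N - √(vr N) * x 0) =
      (ψ (av N - √(vr N) * x 0) * Real.exp (-(‖x‖ ^ 2) / (2 * (N : ℝ) ^ 2))) /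
        ∫ t in (0 : ℝ)..N, GG N t := by
    intro x
    rw [smul_eq_mul]; ring
  simp only [e2]
  rw [integral_div, int_PI (φ := fun x => ψ (av N - √(vr N) * x 0) *
    Real.exp (-(‖x‖ ^ 2) / (2 * (N : ℝ) ^ 2))) (by fun_prop)]
  congr 1
  rw [← int_weight hN hψ]
  refine integral_congr_ae (Filter.Eventually.of_forall fun s => ?_)
  simp only
  rw [TT_zero]
  congr 2
  field_simp
  ring

/-- the test function is spread out -/
theorem spread (c β : ℝ) : c ^ 2 * ((N : ℝ) ^ 2 * Real.exp (-98) / 12) ≤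
    ∫ x, (c * (av N - √(vr N) * x 0) - β) ^ 2 ∂(tilt (PI N) ((N : ℝ) ^ 2)) := by
  have h0 : (0 : ℝ) < N := by positivity
  rw [int_tilt hN (ψ := fun t => (c * t - β) ^ 2) (by fun_prop), le_div_iff₀ (GG_total_pos hN)]
  refine le_trans ?_ (GG_var hN c β)
  have hG0 := GG_pos hN (t := 0) ⟨le_rfl, h0.le⟩
  calc c ^ 2 * ((N : ℝ) ^ 2 * Real.exp (-98) / 12) * ∫ t in (0 : ℝ)..N, GG N t
      ≤ c ^ 2 * ((N : ℝ) ^ 2 * Real.exp (-98) / 12) * (N * (Real.exp 49 * GG N 0)) :=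
        mul_le_mul_of_nonneg_left (GG_total hN) (by positivity)
    _ = (Real.exp (-98) * Real.exp 49) * GG N 0 * (c ^ 2 * (N : ℝ) ^ 3 / 12) := by ring
    _ = _ := by rw [← Real.exp_add]; norm_num

theorem low {C : ℝ} (h : LSI (tilt (PI N) ((N : ℝ) ^ 2)) C) (hC : 0 ≤ C) :
    (N : ℝ) ^ 2 * Real.exp (-98) / 12 / vr N ≤ C := by
  have hV := vr_pos hN
  have hσ : 0 < √(vr N) := Real.sqrt_pos.2 hV
  have := tilt_prob hN
  have h0 : (0 : ℝ) < N := by positivity
  set c : ℝ := 1 / √(vr N) with hc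
  have hc0 : 0 < c := by positivity
  have hc2 : c ^ 2 = 1 / vr N := by
    rw [hc, div_pow, Real.sq_sqrt hV.le, one_pow]
  set f : E (N ^ 6 + 1) → ℝ := fun x => c * (av N - √(vr N) * x 0) with hf
  have hfs : ContDiff ℝ ∞ f := by
    rw [hf]; fun_prop
  have hfc : Continuous f := hfs.continuous
  have hd : ∀ x, fderiv ℝ f x = -(EuclideanSpace.proj 0 : E (N ^ 6 + 1) →L[ℝ] ℝ) := by
    intro x
    have h1 : HasFDerivAt f (c • -(√(vr N) • (EuclideanSpace.proj 0 : E (N ^ 6 + 1) →L[ℝ] ℝ))) x :=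
      ((((EuclideanSpace.proj 0 : E (N ^ 6 + 1) →L[ℝ] ℝ).hasFDerivAt).const_mul
        (√(vr N))).const_sub (av N)).const_mul c
    rw [h1.fderiv, smul_neg, smul_smul, hc]
    congr 1
    rw [one_div, inv_mul_cancel₀ hσ.ne', one_smul]
  have hn : ∀ x, ‖fderiv ℝ f x‖ ^ 2 ≤ 1 := by
    intro x
    rw [hd x, norm_neg]
    apply pow_le_one₀ (norm_nonneg _)
    apply ContinuousLinearMap.opNorm_le_bound _ zero_le_one
    intro v
    rw [one_mul]
    exact PiLp.norm_apply_le v 0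
  have hR : ∫ x, ‖fderiv ℝ f x‖ ^ 2 ∂(tilt (PI N) ((N : ℝ) ^ 2)) ≤ 1 := by
    have h1 : ∫ x, ‖fderiv ℝ f x‖ ^ 2 ∂(tilt (PI N) ((N : ℝ) ^ 2)) ≤
        ∫ _x, (1 : ℝ) ∂(tilt (PI N) ((N : ℝ) ^ 2)) := by
      apply integral_mono _ (integrable_const _) hn
      simp only [hd]
      exact integrable_const _
    simpa using h1
  -- entropy
  set m := ∫ x, f x ^ 2 ∂(tilt (PI N) ((N : ℝ) ^ 2)) with hm
  have hsp := fun β => spread hN c β
  have hm0 : 0 < m := by
    have h1 := hsp 0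
    simp only [sub_zero] at h1
    refine lt_of_lt_of_le ?_ h1
    positivity
  have hI1 : Integrable (fun x => f x ^ 2) (tilt (PI N) ((N : ℝ) ^ 2)) :=
    tilt_integrable hN (hfc.pow 2)
  have hI2 : Integrable (fun x => f x ^ 2 * Real.log (f x ^ 2)) (tilt (PI N) ((N : ℝ) ^ 2)) :=
    tilt_integrable hN (continuous_xl.comp (hfc.pow 2))
  have hE := integral_Psi hI1 hI2 m
  have hPm : Psi m m = 0 := by unfold Psi; ring
  rw [← hm, hPm, add_zero] at hE
  have hlow : ∫ x, (f x - √m) ^ 2 ∂(tilt (PI N) ((N : ℝ) ^ 2)) ≤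
      ∫ x, Psi m (f x ^ 2) ∂(tilt (PI N) ((N : ℝ) ^ 2)) := by
    apply integral_mono_ae
    · exact tilt_integrable hN (by fun_prop)
    · unfold Psi
      exact ((hI2.sub (hI1.mul_const _)).sub hI1).add (integrable_const _)
    · -- `f ≥ 0` almost everywhere
      have hae : ∀ᵐ x ∂(tilt (PI N) ((N : ℝ) ^ 2)), 0 ≤ f x := by
        have h1 : ∀ᵐ x ∂(PI N), 0 ≤ f x := by
          unfold PI
          rw [ae_map_iff (TT_cont N).measurable.aemeasurable
            (measurableSet_le measurable_const hfc.measurable)]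
          have hprob := mu_prob hN
          have h2 : ∀ᵐ s ∂(Measure.pi (mu N)), s ∈ univ.pi (KK N) := by
            rw [ae_iff]
            exact pi_compl_null (mu N) (KK N) (fun i => (KK_compact N i).measurableSet) (mu_KK N)
          filter_upwards [h2] with s hs
          have hs0 : s 0 ∈ Icc 0 (N : ℝ) := hs 0 (mem_univ _)
          simp only [hf]
          rw [TT_zero]
          have : av N - √(vr N) * ((av N - s 0) / √(vr N)) = s 0 := by field_simp; ring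
          rw [this]
          exact mul_nonneg hc0.le hs0.1
        unfold tilt
        exact (tilted_absolutelyContinuous _ _).ae_le h1
      filter_upwards [hae] with x hx
      have h1 := Psi_ge_sq (β := √m) (s := f x) (Real.sqrt_pos.2 hm0)
      rw [Real.sq_sqrt hm0.le, abs_of_nonneg hx] at h1
      exact h1
  have h1 := h f hfs
  have h2 := hsp (√m)
  rw [hc2] at h2
  have h3 : C * ∫ x, ‖fderiv ℝ f x‖ ^ 2 ∂(tilt (PI N) ((N : ℝ) ^ 2)) ≤ C * 1 :=
    mul_le_mul_of_nonneg_left hR hC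
  calc (N : ℝ) ^ 2 * Real.exp (-98) / 12 / vr N
      = 1 / vr N * ((N : ℝ) ^ 2 * Real.exp (-98) / 12) := by ring
    _ ≤ ∫ x, (f x - √m) ^ 2 ∂(tilt (PI N) ((N : ℝ) ^ 2)) := h2
    _ ≤ C := by linarith

end

end Pool.Agent.Q196.GT
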