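import Pool.Agent.Q196.GT.Low2
import Pool.Agent.Q196.GT.LC

/-!
# Comparison of the log-Sobolev constants
-/

set_option autoImplicit false

open MeasureTheory Set
open scoped ENNReal NNReal ContDiff

noncomputable section

namespace Pool.Agent.Q196.GT

/-- `π` is isotropic: barycentre at the origin and identity covariance -/
def Isotropic {n : ℕ} (π : Measure (E n)) : Prop :=
  (∀ i, ∫ x, x i ∂π = 0) ∧ ∀ i j, ∫ x, x i * x j ∂π = if i = j then 1 else 0

/-- `π` has compact support -/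
def CompactlySupported {n : ℕ} (π : Measure (E n)) : Prop :=
  ∃ K : Set (E n), IsCompact K ∧ π Kᶜ = 0

theorem CLSI_le {n : ℕ} {μ : Measure (E n)} {C : ℝ} (hC : 0 ≤ C) (h : LSI μ C) :
    CLSI μ ≤ ENNReal.ofReal C := by
  unfold CLSI
  refine iInf_le_of_le (Real.toNNReal C) (iInf_le_of_le ?_ le_rfl)
  rw [Real.coe_toNNReal _ hC]
  exact h

theorem le_CLSI {n : ℕ} {μ : Measure (E n)} {c : ℝ} (h : ∀ C : ℝ, 0 ≤ C → LSI μ C → c ≤ C) :
    ENNReal.ofReal c ≤ CLSI μ := by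
  unfold CLSI
  refine le_iInf fun C => le_iInf fun hC => ?_
  have := h C C.2 hC
  rw [← ENNReal.ofReal_coe_nnreal]
  exact ENNReal.ofReal_le_ofReal this

theorem main {N : ℕ} (hN : 2 ≤ N) :
    ENNReal.ofReal (Real.exp (-98) / 24000 * N) * CLSI (PI N) ≤
      CLSI (tilt (PI N) ((N : ℝ) ^ 2)) := by
  have h0 : (0 : ℝ) < N := by positivity
  have hV := vr_pos hN
  have h1 : CLSI (PI N) ≤ ENNReal.ofReal (2000 * N / vr N) :=
    CLSI_le (by positivity) (lsi_PI hN)
  have h2 : ENNReal.ofReal ((N : ℝ) ^ 2 * Real.exp (-98) / 12 / vr N) ≤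
      CLSI (tilt (PI N) ((N : ℝ) ^ 2)) := le_CLSI fun C hC hL => low hN hL hC
  refine le_trans ?_ h2
  calc ENNReal.ofReal (Real.exp (-98) / 24000 * N) * CLSI (PI N)
      ≤ ENNReal.ofReal (Real.exp (-98) / 24000 * N) * ENNReal.ofReal (2000 * N / vr N) := by gcongr
    _ = ENNReal.ofReal ((Real.exp (-98) / 24000 * N) * (2000 * N / vr N)) :=
        (ENNReal.ofReal_mul (by positivity)).symm
    _ = _ := by
        congr 1
        field_simp
        ring

theorem main_finite {N : ℕ} (hN : 2 ≤ N) : CLSI (PI N) < ⊤ := by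
  have hV := vr_pos hN
  exact lt_of_le_of_lt (CLSI_le (by positivity) (lsi_PI hN)) ENNReal.ofReal_lt_top

theorem main_pos {N : ℕ} (hN : 2 ≤ N) : 0 < CLSI (tilt (PI N) ((N : ℝ) ^ 2)) := by
  have hV := vr_pos hN
  have h0 : (0 : ℝ) < N := by positivity
  have h2 : ENNReal.ofReal ((N : ℝ) ^ 2 * Real.exp (-98) / 12 / vr N) ≤
      CLSI (tilt (PI N) ((N : ℝ) ^ 2)) := le_CLSI fun C hC hL => low hN hL hC
  exact lt_of_lt_of_le (ENNReal.ofReal_pos.2 (by positivity)) h2

end Pool.Agent.Q196.GT
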