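import Pool.Agent.Q196.GT.Param

/-!
# The measure
-/

set_option autoImplicit false

open MeasureTheory Set
open scoped ENNReal NNReal ContDiff
set_option linter.unusedSectionVars false

noncomputable section

namespace Pool.Agent.Q196.GT

/-- the factors -/
def mu (N : ℕ) : Fin (N ^ 6 + 1) → Measure ℝ := Fin.cons (nu N) (fun _ => U1)

/-- their supports -/
def KK (N : ℕ) : Fin (N ^ 6 + 1) → Set ℝ := Fin.cons (Icc 0 (N : ℝ)) (fun _ => Icc 0 1)

/-- the parametrisation -/
def TT (N : ℕ) (s : Fin (N ^ 6 + 1) → ℝ) : E (N ^ 6 + 1) :=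
  WithLp.toLp 2 (Fin.cons ((av N - s 0) / √(vr N))
    (fun j : Fin (N ^ 6) => √(R2 N) * (1 - s 0 / (N : ℝ) ^ 4) * (2 * s j.succ - 1)))

/-- the measure -/
def PI (N : ℕ) : Measure (E (N ^ 6 + 1)) := (Measure.pi (mu N)).map (TT N)

theorem TT_zero (N : ℕ) (s : Fin (N ^ 6 + 1) → ℝ) : TT N s 0 = (av N - s 0) / √(vr N) := rfl

theorem TT_succ (N : ℕ) (s : Fin (N ^ 6 + 1) → ℝ) (j : Fin (N ^ 6)) :
    TT N s j.succ = √(R2 N) * (1 - s 0 / (N : ℝ) ^ 4) * (2 * s j.succ - 1) := rfl

theorem TT_contDiff (N : ℕ) : ContDiff ℝ ∞ (TT N) := by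
  have h : ContDiff ℝ ∞ (fun s : Fin (N ^ 6 + 1) → ℝ => fun i => TT N s i) := by
    rw [contDiff_pi]
    intro i
    refine Fin.cases ?_ (fun j => ?_) i
    · simp only [TT_zero]
      fun_prop
    · simp only [TT_succ]
      fun_prop
  exact (PiLp.contDiff_toLp (p := 2)).comp h

theorem TT_cont (N : ℕ) : Continuous (TT N) := (TT_contDiff N).continuous

theorem KK_compact (N : ℕ) : ∀ i, IsCompact (KK N i) := by
  intro i
  refine Fin.cases ?_ (fun j => ?_) i
  · exact isCompact_Icc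
  · exact isCompact_Icc

theorem mu_KK (N : ℕ) : ∀ i, mu N i (KK N i)ᶜ = 0 := by
  intro i
  refine Fin.cases ?_ (fun j => ?_) i
  · exact mq_compl
  · exact mq_compl

theorem int_U1 (φ : ℝ → ℝ) : ∫ x, φ x ∂U1 = ∫ t in (0 : ℝ)..1, φ t := by
  have h : ∫ x, φ x ∂U1 = _ :=
    integral_mq zero_le_one (q := fun _ => 1) continuous_const (fun _ _ => one_pos) φ
  rw [h]; simp

theorem int_U1_lin : ∫ x, (2 * x - 1) ∂U1 = 0 := by
  rw [int_U1, intervalIntegral.integral_sub, intervalIntegral.integral_const_mul, integral_id]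
  · simp
  · apply Continuous.intervalIntegrable; fun_prop
  · apply Continuous.intervalIntegrable; fun_prop

theorem int_U1_sq : ∫ x, (2 * x - 1) ^ 2 ∂U1 = 1 / 3 := by
  rw [int_U1]
  have hd : ∀ t : ℝ, HasDerivAt (fun t => (2 * t - 1) ^ 3 / 6) ((2 * t - 1) ^ 2) t := by
    intro t
    have h1 := ((((hasDerivAt_id' t).const_mul 2).sub_const 1).pow 3).div_const 6
    refine h1.congr_deriv ?_
    simp only [Nat.cast_ofNat]
    ring
  rw [intervalIntegral.integral_eq_sub_of_hasDerivAt (fun t _ => hd t)]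
  · norm_num
  · apply Continuous.intervalIntegrable; fun_prop

section
variable {N : ℕ} (hN : 2 ≤ N)
include hN

theorem mu_prob : ∀ i, IsProbabilityMeasure (mu N i) := by
  intro i
  refine Fin.cases ?_ (fun j => ?_) i
  · exact nu_prob hN
  · exact inferInstanceAs (IsProbabilityMeasure U1)

theorem P_prob : IsProbabilityMeasure (Measure.pi (mu N)) := by
  have := mu_prob hN
  infer_instance

theorem PI_prob : IsProbabilityMeasure (PI N) := by
  have := P_prob hN
  exact Measure.isProbabilityMeasure_map (TT_cont N).measurable.aemeasurable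

theorem int_P {φ : (Fin (N ^ 6 + 1) → ℝ) → ℝ} (hφ : Continuous φ) :
    Integrable φ (Measure.pi (mu N)) := by
  have := mu_prob hN
  exact integrable_pi (mu N) (KK N) (KK_compact N) (mu_KK N) hφ

omit hN in
theorem int_PI {φ : E (N ^ 6 + 1) → ℝ} (hφ : Continuous φ) :
    ∫ x, φ x ∂(PI N) = ∫ s, φ (TT N s) ∂(Measure.pi (mu N)) := by
  unfold PI
  rw [integral_map (TT_cont N).measurable.aemeasurable hφ.measurable.aestronglyMeasurable]

theorem int_factor (α : ℝ → ℝ) (g : Fin (N ^ 6) → ℝ → ℝ) :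
    ∫ s, α (s 0) * ∏ j, g j (s (Fin.succ j)) ∂(Measure.pi (mu N)) =
      (∫ t, α t ∂(nu N)) * ∏ j, ∫ x, g j x ∂U1 := by
  have := mu_prob hN
  have h := integral_fintype_prod_eq_prod (𝕜 := ℝ) (μ := mu N)
    (fun i : Fin (N ^ 6 + 1) => (Fin.cons α g : Fin (N ^ 6 + 1) → ℝ → ℝ) i)
  rw [Fin.prod_univ_succ] at h
  simp only [Fin.prod_univ_succ, Fin.cons_zero, Fin.cons_succ] at h
  exact h

theorem int_one (α : ℝ → ℝ) : ∫ s, α (s 0) ∂(Measure.pi (mu N)) = ∫ t, α t ∂(nu N) := by
  have := int_factor hN α (fun _ _ => 1)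
  simpa using this

theorem int_lin (α : ℝ → ℝ) (j : Fin (N ^ 6)) :
    ∫ s, α (s 0) * (2 * s j.succ - 1) ∂(Measure.pi (mu N)) = 0 := by
  have h := int_factor hN α (fun k x => if k = j then 2 * x - 1 else 1)
  have e : ∀ s : Fin (N ^ 6 + 1) → ℝ,
      ∏ k : Fin (N ^ 6), (if k = j then 2 * s k.succ - 1 else 1) = 2 * s j.succ - 1 := by
    intro s
    rw [Finset.prod_ite_eq' Finset.univ j (fun k => 2 * s k.succ - 1)]
    simp
  simp only [e] at h
  rw [h]
  rw [Finset.prod_eq_zero (Finset.mem_univ j), mul_zero]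
  simp only [if_true]
  exact int_U1_lin

theorem int_sq (α : ℝ → ℝ) (j : Fin (N ^ 6)) :
    ∫ s, α (s 0) * (2 * s j.succ - 1) ^ 2 ∂(Measure.pi (mu N)) = (∫ t, α t ∂(nu N)) / 3 := by
  have h := int_factor hN α (fun k x => if k = j then (2 * x - 1) ^ 2 else 1)
  have e : ∀ s : Fin (N ^ 6 + 1) → ℝ,
      ∏ k : Fin (N ^ 6), (if k = j then (2 * s k.succ - 1) ^ 2 else 1) = (2 * s j.succ - 1) ^ 2 := by
    intro s
    rw [Finset.prod_ite_eq' Finset.univ j (fun k => (2 * s k.succ - 1) ^ 2)]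
    simp
  simp only [e] at h
  rw [h]
  have e2 : ∏ k : Fin (N ^ 6), ∫ x, (if k = j then (2 * x - 1) ^ 2 else 1) ∂U1 = 1 / 3 := by
    rw [Finset.prod_eq_single j]
    · simp only [if_true]; exact int_U1_sq
    · intro b _ hb
      simp [hb]
    · intro hj; exact absurd (Finset.mem_univ j) hj
  rw [e2]; ring

theorem int_mix (α : ℝ → ℝ) {i j : Fin (N ^ 6)} (hij : i ≠ j) :
    ∫ s, α (s 0) * ((2 * s i.succ - 1) * (2 * s j.succ - 1)) ∂(Measure.pi (mu N)) = 0 := by
  have h := int_factor hN α (fun k x => (if k = i then 2 * x - 1 else 1) *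
    (if k = j then 2 * x - 1 else 1))
  have e : ∀ s : Fin (N ^ 6 + 1) → ℝ,
      ∏ k : Fin (N ^ 6), ((if k = i then 2 * s k.succ - 1 else 1) *
        (if k = j then 2 * s k.succ - 1 else 1)) = (2 * s i.succ - 1) * (2 * s j.succ - 1) := by
    intro s
    rw [Finset.prod_mul_distrib, Finset.prod_ite_eq' Finset.univ j (fun k => 2 * s k.succ - 1),
      Finset.prod_ite_eq' Finset.univ i (fun k => 2 * s k.succ - 1)]
    simp
  simp only [e] at h
  rw [h]
  rw [Finset.prod_eq_zero (Finset.mem_univ i), mul_zero]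
  simp only [if_true, if_neg hij, mul_one]
  exact int_U1_lin

theorem mean_zero (i : Fin (N ^ 6 + 1)) : ∫ x, x i ∂(PI N) = 0 := by
  have := nu_prob hN
  rw [int_PI (φ := fun x => x i) (by fun_prop)]
  refine Fin.cases ?_ (fun j => ?_) i
  · simp only [TT_zero]
    rw [int_one hN (fun t => (av N - t) / √(vr N)), integral_div,
      integral_sub (integrable_const _) (integrable_nu hN (by fun_prop))]
    simp only [integral_const, probReal_univ, one_smul]
    have : ∫ t, t ∂(nu N) = av N := rfl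
    rw [this]; simp
  · simp only [TT_succ]
    exact int_lin hN (fun t => √(R2 N) * (1 - t / (N : ℝ) ^ 4)) j

theorem cov (i j : Fin (N ^ 6 + 1)) : ∫ x, x i * x j ∂(PI N) = if i = j then 1 else 0 := by
  have hV := vr_pos hN
  have hR : 0 ≤ R2 N := by linarith [R2_ge hN]
  rw [int_PI (φ := fun x => x i * x j) (by fun_prop)]
  refine Fin.cases ?_ (fun i => ?_) i
  · refine Fin.cases ?_ (fun j => ?_) j
    · simp only [TT_zero, if_true]
      rw [int_one hN (fun t => (av N - t) / √(vr N) * ((av N - t) / √(vr N)))]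
      have e : ∀ t : ℝ, (av N - t) / √(vr N) * ((av N - t) / √(vr N)) =
          (t - av N) ^ 2 / vr N := by
        intro t
        rw [div_mul_div_comm, Real.mul_self_sqrt hV.le]; ring
      simp only [e]
      rw [integral_div]
      exact div_self hV.ne'
    · simp only [TT_zero, TT_succ]
      rw [if_neg (Fin.succ_ne_zero j).symm]
      have e : ∀ s : Fin (N ^ 6 + 1) → ℝ, (av N - s 0) / √(vr N) *
          (√(R2 N) * (1 - s 0 / (N : ℝ) ^ 4) * (2 * s j.succ - 1)) =
          (fun t => (av N - t) / √(vr N) * (√(R2 N) * (1 - t / (N : ℝ) ^ 4))) (s 0) *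
            (2 * s j.succ - 1) := fun s => by ring
      simp only [e]
      exact int_lin hN (fun t => (av N - t) / √(vr N) * (√(R2 N) * (1 - t / (N : ℝ) ^ 4))) j
  · refine Fin.cases ?_ (fun j => ?_) j
    · simp only [TT_zero, TT_succ]
      rw [if_neg (Fin.succ_ne_zero i)]
      have e : ∀ s : Fin (N ^ 6 + 1) → ℝ,
          (√(R2 N) * (1 - s 0 / (N : ℝ) ^ 4) * (2 * s i.succ - 1)) * ((av N - s 0) / √(vr N)) =
          (fun t => (av N - t) / √(vr N) * (√(R2 N) * (1 - t / (N : ℝ) ^ 4))) (s 0) *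
            (2 * s i.succ - 1) := fun s => by ring
      simp only [e]
      exact int_lin hN (fun t => (av N - t) / √(vr N) * (√(R2 N) * (1 - t / (N : ℝ) ^ 4))) i
    · simp only [TT_succ]
      by_cases hij : i = j
      · subst hij
        simp only [if_true]
        have e : ∀ s : Fin (N ^ 6 + 1) → ℝ,
            (√(R2 N) * (1 - s 0 / (N : ℝ) ^ 4) * (2 * s i.succ - 1)) *
            (√(R2 N) * (1 - s 0 / (N : ℝ) ^ 4) * (2 * s i.succ - 1)) =
            (fun t => R2 N * (1 - t / (N : ℝ) ^ 4) ^ 2) (s 0) * (2 * s i.succ - 1) ^ 2 := by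
          intro s
          have := Real.mul_self_sqrt hR
          simp only
          calc _ = (√(R2 N) * √(R2 N)) * (1 - s 0 / (N : ℝ) ^ 4) ^ 2 * (2 * s i.succ - 1) ^ 2 := by
                ring
            _ = _ := by rw [this]
        simp only [e]
        have h2 := int_sq hN (fun t => R2 N * (1 - t / (N : ℝ) ^ 4) ^ 2) i
        rw [h2, integral_const_mul]
        have hI := int_one_sub hN
        have h3 := N3 hN
        have hpos : 0 < ∫ t, (1 - t / (N : ℝ) ^ 4) ^ 2 ∂(nu N) := by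
          refine lt_of_lt_of_le ?_ hI.1
          have : 0 < 1 - 1 / (N : ℝ) ^ 3 := by linarith
          positivity
        unfold R2
        rw [div_mul_cancel₀ _ hpos.ne']
        norm_num
      · rw [if_neg (fun h => hij (Fin.succ_injective _ h))]
        have e : ∀ s : Fin (N ^ 6 + 1) → ℝ,
            (√(R2 N) * (1 - s 0 / (N : ℝ) ^ 4) * (2 * s i.succ - 1)) *
            (√(R2 N) * (1 - s 0 / (N : ℝ) ^ 4) * (2 * s j.succ - 1)) =
            (fun t => R2 N * (1 - t / (N : ℝ) ^ 4) ^ 2) (s 0) *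
              ((2 * s i.succ - 1) * (2 * s j.succ - 1)) := by
          intro s
          have := Real.mul_self_sqrt hR
          simp only
          calc _ = (√(R2 N) * √(R2 N)) * (1 - s 0 / (N : ℝ) ^ 4) ^ 2 *
                ((2 * s i.succ - 1) * (2 * s j.succ - 1)) := by ring
            _ = _ := by rw [this]
        simp only [e]
        exact int_mix hN (fun t => R2 N * (1 - t / (N : ℝ) ^ 4) ^ 2) hij

theorem compact_supp : ∃ K : Set (E (N ^ 6 + 1)), IsCompact K ∧ PI N Kᶜ = 0 := by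
  have := mu_prob hN
  refine ⟨TT N '' (univ.pi (KK N)), (isCompact_univ_pi (KK_compact N)).image (TT_cont N), ?_⟩
  have hc : IsCompact (TT N '' (univ.pi (KK N))) :=
    (isCompact_univ_pi (KK_compact N)).image (TT_cont N)
  unfold PI
  rw [Measure.map_apply (TT_cont N).measurable hc.measurableSet.compl]
  refine measure_mono_null ?_
    (pi_compl_null (mu N) (KK N) (fun i => (KK_compact N i).measurableSet) (mu_KK N))
  intro s hs hs'
  exact hs ⟨s, hs', rfl⟩

end

end Pool.Agent.Q196.GT
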