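import Pool.Agent.Q196.GT.Defs

/-!
# One dimensional log-Sobolev inequality
-/

set_option autoImplicit false

open MeasureTheory Set intervalIntegral
open scoped ENNReal NNReal ContDiff Interval

noncomputable section

namespace Pool.Agent.Q196.GT

/-- the pointwise function `F log F - F log b - F + b` -/
def Psi (b F : ℝ) : ℝ := F * Real.log F - F * Real.log b - F + b

theorem Psi_nonneg {b F : ℝ} (hb : 0 < b) (hF : 0 ≤ F) : 0 ≤ Psi b F := by
  unfold Psi
  rcases hF.eq_or_lt with h | h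
  · rw [← h]; simp; exact hb.le
  · have h1 : Real.log (b / F) ≤ b / F - 1 := Real.log_le_sub_one_of_pos (by positivity)
    rw [Real.log_div hb.ne' h.ne'] at h1
    have h2 : F * (Real.log b - Real.log F) ≤ F * (b / F - 1) := mul_le_mul_of_nonneg_left h1 hF
    have h3 : F * (b / F - 1) = b - F := by field_simp
    nlinarith

/-- lower bound by the square of the difference of the square roots -/
theorem Psi_ge_sq {β s : ℝ} (hb : 0 < β) : (|s| - β) ^ 2 ≤ Psi (β ^ 2) (s ^ 2) := by
  unfold Psi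
  rcases eq_or_ne s 0 with h | h
  · rw [h]; simp
  · have hs : 0 < |s| := abs_pos.2 h
    have h1 : Real.log (β / |s|) ≤ β / |s| - 1 := Real.log_le_sub_one_of_pos (by positivity)
    rw [Real.log_div hb.ne' hs.ne'] at h1
    have h2 : |s| ^ 2 * (Real.log β - Real.log |s|) ≤ |s| ^ 2 * (β / |s| - 1) :=
      mul_le_mul_of_nonneg_left h1 (by positivity)
    have h3 : |s| ^ 2 * (β / |s| - 1) = |s| * β - |s| ^ 2 := by field_simp
    have h4 : Real.log (s ^ 2) = 2 * Real.log |s| := by
      rw [← sq_abs, Real.log_pow]; push_cast; ring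
    have h5 : Real.log (β ^ 2) = 2 * Real.log β := by
      rw [Real.log_pow]; push_cast; ring
    rw [h4, h5, ← sq_abs s]
    nlinarith

/-- the main pointwise bound -/
theorem Psi_le {a g e M : ℝ} (he : 0 < e) (hM : 1 ≤ M) (hg : g ^ 2 ≤ M * e) :
    Psi (a ^ 2 + e) ((a + g) ^ 2) ≤ (4 * Real.log (4 * M) + 5) * g ^ 2 + e := by
  unfold Psi
  set s := a + g with hs
  have hb : 0 < a ^ 2 + e := by positivity
  have hlM : 0 ≤ Real.log (4 * M) := Real.log_nonneg (by linarith)
  rcases eq_or_ne s 0 with h0 | h0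
  · have : a = -g := by linarith
    rw [h0, this]
    simp
    nlinarith [mul_nonneg hlM (sq_nonneg g)]
  have hs2 : 0 < s ^ 2 := by positivity
  rcases le_or_gt (|a|) (|g|) with hc | hc
  · -- large oscillation
    have ha2 : a ^ 2 ≤ g ^ 2 := sq_le_sq.2 hc
    have hs4 : s ^ 2 ≤ 4 * g ^ 2 := by rw [hs]; nlinarith [sq_nonneg (a - g)]
    have h1 : Real.log (s ^ 2) - Real.log (a ^ 2 + e) ≤ Real.log (4 * M) := by
      rw [← Real.log_div hs2.ne' hb.ne']
      apply Real.log_le_log (by positivity)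
      rw [div_le_iff₀ hb]
      have : 4 * M * e ≤ 4 * M * (a ^ 2 + e) := by
        apply mul_le_mul_of_nonneg_left _ (by linarith)
        nlinarith [sq_nonneg a]
      nlinarith
    have h2 : s ^ 2 * (Real.log (s ^ 2) - Real.log (a ^ 2 + e)) ≤ s ^ 2 * Real.log (4 * M) :=
      mul_le_mul_of_nonneg_left h1 hs2.le
    have h3 : s ^ 2 * Real.log (4 * M) ≤ 4 * g ^ 2 * Real.log (4 * M) :=
      mul_le_mul_of_nonneg_right hs4 hlM
    nlinarith
  · -- small oscillation
    have ha : a ≠ 0 := by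
      rintro rfl
      simp at hc
      exact absurd hc (not_lt.2 (abs_nonneg g))
    have ha2 : 0 < a ^ 2 := by positivity
    have h1 : Real.log (a ^ 2) ≤ Real.log (a ^ 2 + e) := Real.log_le_log ha2 (by linarith)
    have hsa : 0 < s / a := by
      have : s / a = 1 + g / a := by rw [hs]; field_simp
      rw [this]
      have h2 : |g / a| < 1 := by rw [abs_div, div_lt_one (abs_pos.2 ha)]; exact hc
      linarith [(abs_lt.1 h2).1]
    have h2 : Real.log (s ^ 2) - Real.log (a ^ 2) = 2 * Real.log (s / a) := by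
      rw [← Real.log_div hs2.ne' ha2.ne', ← div_pow, Real.log_pow]; push_cast; ring
    have h3 : Real.log (s / a) ≤ s / a - 1 := Real.log_le_sub_one_of_pos hsa
    have h4 : s / a - 1 = g / a := by rw [hs]; field_simp; ring
    have h5 : s ^ 2 * (Real.log (s ^ 2) - Real.log (a ^ 2)) ≤ 2 * s ^ 2 * (g / a) := by
      rw [h2]
      have : s ^ 2 * Real.log (s / a) ≤ s ^ 2 * (g / a) := by
        rw [← h4]; exact mul_le_mul_of_nonneg_left h3 hs2.le
      linarith
    have h6 : s ^ 2 * Real.log (a ^ 2) ≤ s ^ 2 * Real.log (a ^ 2 + e) :=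
      mul_le_mul_of_nonneg_left h1 hs2.le
    have h7 : 2 * s ^ 2 * (g / a) = 2 * a * g + 4 * g ^ 2 + 2 * g ^ 2 * (g / a) := by
      rw [hs]; field_simp; ring
    have h8 : g / a ≤ 1 := by
      have : |g / a| < 1 := by rw [abs_div, div_lt_one (abs_pos.2 ha)]; exact hc
      exact (abs_lt.1 this).2.le
    have h9 : 2 * g ^ 2 * (g / a) ≤ 2 * g ^ 2 := by nlinarith [sq_nonneg g]
    have h10 : s ^ 2 = a ^ 2 + 2 * a * g + g ^ 2 := by rw [hs]; ring
    nlinarith [mul_nonneg hlM (sq_nonneg g)]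

end Pool.Agent.Q196.GT
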