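import Pool.Agent.Q196.GT.OneD

/-!
# One dimensional log-Sobolev inequality, integral part
-/

set_option autoImplicit false

open MeasureTheory Set intervalIntegral
open scoped ENNReal NNReal ContDiff Interval
set_option linter.unusedSectionVars false

noncomputable section

namespace Pool.Agent.Q196.GT

theorem integral_Psi {X : Type*} [MeasurableSpace X] {μ : Measure X} [IsProbabilityMeasure μ]
    {F : X → ℝ} (hF : Integrable F μ) (hFl : Integrable (fun x => F x * Real.log (F x)) μ)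
    (b : ℝ) : ∫ x, Psi b (F x) ∂μ = Ent μ F + Psi b (∫ x, F x ∂μ) := by
  unfold Psi Ent
  rw [MeasureTheory.integral_add, MeasureTheory.integral_sub, MeasureTheory.integral_sub,
    MeasureTheory.integral_mul_const]
  · simp
    ring
  · exact hFl
  · exact hF.mul_const _
  · exact hFl.sub (hF.mul_const _)
  · exact hF
  · exact (hFl.sub (hF.mul_const _)).sub hF
  · exact integrable_const _

theorem Ent_le_Psi {X : Type*} [MeasurableSpace X] {μ : Measure X} [IsProbabilityMeasure μ]
    {F : X → ℝ} (hF : Integrable F μ) (hFl : Integrable (fun x => F x * Real.log (F x)) μ)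
    (h0 : ∀ x, 0 ≤ F x) {b : ℝ} (hb : 0 < b) : Ent μ F ≤ ∫ x, Psi b (F x) ∂μ := by
  rw [integral_Psi hF hFl]
  have := Psi_nonneg hb (integral_nonneg (μ := μ) h0)
  linarith

/-- the measure with density `q` on `[0, L]` -/
def mq (L : ℝ) (q : ℝ → ℝ) : Measure ℝ :=
  (volume.restrict (Icc 0 L)).withDensity (fun t => ENNReal.ofReal (q t))

theorem integral_mq {L : ℝ} (hL : 0 ≤ L) {q : ℝ → ℝ} (hq : Continuous q)
    (hpos : ∀ t ∈ Icc 0 L, 0 < q t) (φ : ℝ → ℝ) :
    ∫ x, φ x ∂(mq L q) = ∫ t in (0 : ℝ)..L, q t * φ t := by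
  unfold mq
  rw [integral_withDensity_eq_integral_toReal_smul
    (hq.measurable.ennreal_ofReal) (Filter.Eventually.of_forall fun x => ENNReal.ofReal_lt_top),
    intervalIntegral.integral_of_le hL, ← integral_Icc_eq_integral_Ioc]
  refine setIntegral_congr_fun measurableSet_Icc (fun t ht => ?_)
  simp only [smul_eq_mul]
  rw [ENNReal.toReal_ofReal (hpos t ht).le]

theorem isProb_mq {L : ℝ} (hL : 0 ≤ L) {q : ℝ → ℝ} (hq : Continuous q)
    (hpos : ∀ t ∈ Icc 0 L, 0 < q t) (h1 : ∫ t in (0 : ℝ)..L, q t = 1) :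
    IsProbabilityMeasure (mq L q) := by
  constructor
  unfold mq
  rw [withDensity_apply _ MeasurableSet.univ, Measure.restrict_univ,
    ← ofReal_integral_eq_lintegral_ofReal]
  · rw [integral_Icc_eq_integral_Ioc, ← intervalIntegral.integral_of_le hL, h1]; simp
  · exact (hq.integrableOn_Icc)
  · rw [Filter.EventuallyLE, ae_restrict_iff' measurableSet_Icc]
    exact Filter.Eventually.of_forall fun t ht => (hpos t ht).le

theorem mq_compl {L : ℝ} {q : ℝ → ℝ} : mq L q (Icc 0 L)ᶜ = 0 := by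
  unfold mq
  have : (volume.restrict (Icc 0 L)) (Icc 0 L)ᶜ = 0 := by
    rw [Measure.restrict_apply measurableSet_Icc.compl]; simp
  exact withDensity_absolutelyContinuous _ _ this

/-- one dimensional log-Sobolev inequality for `C¹` functions -/
def LSI1 (μ : Measure ℝ) (C : ℝ) : Prop :=
  ∀ f f' : ℝ → ℝ, (∀ x, HasDerivAt f (f' x) x) → Continuous f' →
    Ent μ (fun x => f x ^ 2) ≤ C * ∫ x, f' x ^ 2 ∂μ

theorem continuous_mul_log : Continuous fun x : ℝ => x * Real.log x := Real.continuous_mul_log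

theorem integrable_of_continuous_compl {X : Type*} [TopologicalSpace X] [MeasurableSpace X]
    [OpensMeasurableSpace X] {μ : Measure X}
    [IsFiniteMeasure μ] {K : Set X} (hK : IsCompact K) (h0 : μ Kᶜ = 0)
    {φ : X → ℝ} (hφ : Continuous φ) : Integrable φ μ := by
  obtain ⟨C, hC⟩ := (hK.image hφ).isBounded.exists_norm_le
  refine Integrable.of_bound (C := C) ?_ ?_
  · exact hφ.measurable.aestronglyMeasurable
  · rw [ae_iff]
    refine measure_mono_null ?_ h0
    intro x hx hxK
    exact hx (hC _ ⟨x, hxK, rfl⟩)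

variable {L : ℝ} {q : ℝ → ℝ}

section
variable (hL : 0 < L) (hq : Continuous q) (hpos : ∀ t ∈ Icc 0 L, 0 < q t)
include hL hq hpos

theorem cont_inv : ContinuousOn (fun t => (q t)⁻¹) (Icc 0 L) :=
  hq.continuousOn.inv₀ fun t ht => (hpos t ht).ne'

/-- Cauchy-Schwarz bound -/
theorem osc_bound {M : ℝ} (hM : ∫ t in (0 : ℝ)..L, (q t)⁻¹ ≤ M)
    {f f' : ℝ → ℝ} (hf : ∀ x, HasDerivAt f (f' x) x) (hf' : Continuous f')
    {t : ℝ} (ht : t ∈ Icc 0 L) :
    (f t - f 0) ^ 2 ≤ M * ∫ s in (0 : ℝ)..L, q s * f' s ^ 2 := by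
  have hci := cont_inv hL hq hpos
  have hsub : uIcc 0 t ⊆ Icc 0 L := by
    rw [uIcc_of_le ht.1]; exact Icc_subset_Icc le_rfl ht.2
  have hsubL : uIcc 0 L ⊆ Icc 0 L := by rw [uIcc_of_le hL.le]
  have hi1 : IntervalIntegrable (fun s => (q s)⁻¹) volume 0 t := (hci.mono hsub).intervalIntegrable
  have hi1L : IntervalIntegrable (fun s => (q s)⁻¹) volume 0 L :=
    (hci.mono hsubL).intervalIntegrable
  have hi2 : ∀ a b, IntervalIntegrable (fun s => q s * f' s ^ 2) volume a b := fun a b =>
    (hq.mul (hf'.pow 2)).intervalIntegrable _ _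
  have hi3 : ∀ a b, IntervalIntegrable f' volume a b := fun a b => hf'.intervalIntegrable _ _
  have hftc : ∫ s in (0 : ℝ)..t, f' s = f t - f 0 :=
    integral_eq_sub_of_hasDerivAt (fun x _ => hf x) (hi3 _ _)
  set A := ∫ s in (0 : ℝ)..t, q s * f' s ^ 2
  set B := ∫ s in (0 : ℝ)..t, (q s)⁻¹
  have hpoly : ∀ x : ℝ, 0 ≤ A * (x * x) + (2 * (f t - f 0)) * x + B := by
    intro x
    have h1 : A * (x * x) + (2 * (f t - f 0)) * x + B =
        ∫ s in (0 : ℝ)..t, (q s * f' s ^ 2 * (x * x) + 2 * f' s * x + (q s)⁻¹) := by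
      rw [intervalIntegral.integral_add, intervalIntegral.integral_add,
        intervalIntegral.integral_mul_const, intervalIntegral.integral_mul_const,
        intervalIntegral.integral_const_mul, hftc]
      · exact (hi2 _ _).mul_const _
      · exact ((hi3 _ _).const_mul _).mul_const _
      · exact ((hi2 _ _).mul_const _).add (((hi3 _ _).const_mul _).mul_const _)
      · exact hi1
    rw [h1]
    apply intervalIntegral.integral_nonneg ht.1
    intro s hs
    have hqs := hpos s ⟨hs.1, hs.2.trans ht.2⟩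
    have : q s * f' s ^ 2 * (x * x) + 2 * f' s * x + (q s)⁻¹ = (q s)⁻¹ * (q s * f' s * x + 1) ^ 2 := by
      field_simp; ring
    rw [this]; positivity
  have hd := discrim_le_zero hpoly
  unfold discrim at hd
  have hA : A ≤ ∫ s in (0 : ℝ)..L, q s * f' s ^ 2 := by
    apply intervalIntegral.integral_mono_interval le_rfl ht.1 ht.2 _ (hi2 _ _)
    rw [Filter.EventuallyLE, ae_restrict_iff' measurableSet_Ioc]
    exact Filter.Eventually.of_forall fun s hs =>
      mul_nonneg (hpos s ⟨hs.1.le, hs.2⟩).le (sq_nonneg _)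
  have hB : B ≤ M := by
    refine le_trans ?_ hM
    apply intervalIntegral.integral_mono_interval le_rfl ht.1 ht.2 _ hi1L
    rw [Filter.EventuallyLE, ae_restrict_iff' measurableSet_Ioc]
    exact Filter.Eventually.of_forall fun s hs => (inv_pos.2 (hpos s ⟨hs.1.le, hs.2⟩)).le
  have hA0 : 0 ≤ A := intervalIntegral.integral_nonneg ht.1 fun s hs =>
    mul_nonneg (hpos s ⟨hs.1, hs.2.trans ht.2⟩).le (sq_nonneg _)
  have hB0 : 0 ≤ B := intervalIntegral.integral_nonneg ht.1 fun s hs =>
    (inv_pos.2 (hpos s ⟨hs.1, hs.2.trans ht.2⟩)).le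
  calc (f t - f 0) ^ 2 ≤ B * A := by nlinarith
    _ ≤ M * ∫ s in (0 : ℝ)..L, q s * f' s ^ 2 := mul_le_mul hB hA hA0 (hB0.trans hB)

/-- Hardy inequality -/
theorem hardy (hH : ∀ t ∈ Icc 0 L, ∫ s in t..L, q s ≤ q t)
    {f f' : ℝ → ℝ} (hf : ∀ x, HasDerivAt f (f' x) x) (hf' : Continuous f') :
    ∫ s in (0 : ℝ)..L, q s * (f s - f 0) ^ 2 ≤ 4 * ∫ s in (0 : ℝ)..L, q s * f' s ^ 2 := by
  have hfc : Continuous f := continuous_iff_continuousAt.2 fun x => (hf x).continuousAt
  set Q : ℝ → ℝ := fun t => ∫ s in t..L, q s with hQ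
  have hQd : ∀ t, HasDerivAt Q (-(q t)) t := fun t =>
    integral_hasDerivAt_left (hq.intervalIntegrable _ _)
      (hq.stronglyMeasurableAtFilter _ _) hq.continuousAt
  have hQc : Continuous Q := continuous_iff_continuousAt.2 fun x => (hQd x).continuousAt
  have hQL : Q L = 0 := by simp [hQ]
  have hQ0 : ∀ t ∈ Icc 0 L, 0 ≤ Q t := fun t ht =>
    intervalIntegral.integral_nonneg ht.2 fun s hs => (hpos s ⟨ht.1.trans hs.1, hs.2⟩).le
  have hd : ∀ t, HasDerivAt (fun t => (f t - f 0) ^ 2 * Q t)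
      (2 * (f t - f 0) * f' t * Q t - q t * (f t - f 0) ^ 2) t := by
    intro t
    have h1 : HasDerivAt (fun t => f t - f 0) (f' t) t := (hf t).sub_const _
    have h2 := (h1.pow 2).mul (hQd t)
    refine h2.congr_deriv ?_
    simp only [Pi.pow_apply, Nat.cast_ofNat]
    ring
  have hint : ∫ t in (0 : ℝ)..L, (2 * (f t - f 0) * f' t * Q t - q t * (f t - f 0) ^ 2) = 0 := by
    rw [integral_eq_sub_of_hasDerivAt (fun x _ => hd x)]
    · rw [hQL]; ring
    · apply Continuous.intervalIntegrable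
      fun_prop
  rw [intervalIntegral.integral_sub] at hint
  rotate_left
  · apply Continuous.intervalIntegrable; fun_prop
  · apply Continuous.intervalIntegrable; fun_prop
  have hb : ∫ t in (0 : ℝ)..L, 2 * (f t - f 0) * f' t * Q t ≤
      ∫ t in (0 : ℝ)..L, (1 / 2 * (q t * (f t - f 0) ^ 2) + 2 * (q t * f' t ^ 2)) := by
    apply intervalIntegral.integral_mono_on hL.le
    · apply Continuous.intervalIntegrable; fun_prop
    · apply Continuous.intervalIntegrable; fun_prop
    · intro t ht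
      have h1 := hH t ht
      have h2 := hQ0 t ht
      have h3 : 2 * (f t - f 0) * f' t ≤ 2 * |f t - f 0| * |f' t| := by
        have := le_abs_self ((f t - f 0) * f' t)
        rw [abs_mul] at this
        linarith
      calc 2 * (f t - f 0) * f' t * Q t ≤ 2 * |f t - f 0| * |f' t| * Q t :=
            mul_le_mul_of_nonneg_right h3 h2
        _ ≤ 2 * |f t - f 0| * |f' t| * q t := mul_le_mul_of_nonneg_left h1 (by positivity)
        _ ≤ 1 / 2 * (q t * (f t - f 0) ^ 2) + 2 * (q t * f' t ^ 2) := by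
            have hq0 := (hpos t ht).le
            rw [← sq_abs (f t - f 0), ← sq_abs (f' t)]
            nlinarith [mul_nonneg hq0 (sq_nonneg (|f t - f 0| - 2 * |f' t|))]
  rw [intervalIntegral.integral_add, intervalIntegral.integral_const_mul,
    intervalIntegral.integral_const_mul] at hb
  rotate_left
  · apply Continuous.intervalIntegrable; fun_prop
  · apply Continuous.intervalIntegrable; fun_prop
  linarith

theorem lsi1 (h1 : ∫ t in (0 : ℝ)..L, q t = 1) (hH : ∀ t ∈ Icc 0 L, ∫ s in t..L, q s ≤ q t)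
    {M : ℝ} (hM1 : 1 ≤ M) (hM : ∫ t in (0 : ℝ)..L, (q t)⁻¹ ≤ M) :
    LSI1 (mq L q) (4 * (4 * Real.log (4 * M) + 5) + 1) := by
  intro f f' hf hf'
  have hfc : Continuous f := continuous_iff_continuousAt.2 fun x => (hf x).continuousAt
  have := isProb_mq hL.le hq hpos h1
  set e := ∫ x, f' x ^ 2 ∂(mq L q) with he
  have he' : e = ∫ s in (0 : ℝ)..L, q s * f' s ^ 2 := integral_mq hL.le hq hpos _
  have he0 : 0 ≤ e := integral_nonneg fun x => sq_nonneg _
  have hint : ∀ {φ : ℝ → ℝ}, Continuous φ → Integrable φ (mq L q) := fun hφ =>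
    integrable_of_continuous_compl isCompact_Icc mq_compl hφ
  refine le_of_forall_pos_le_add fun η hη => ?_
  have hb : 0 < f 0 ^ 2 + (e + η) := by positivity
  have hc2 : Continuous fun x => f x ^ 2 := hfc.pow 2
  have hlog : Continuous fun x => f x ^ 2 * Real.log (f x ^ 2) := continuous_mul_log.comp hc2
  refine (Ent_le_Psi (hint hc2) (hint hlog) (fun x => sq_nonneg _) hb).trans ?_
  have hK : 0 ≤ 4 * Real.log (4 * M) + 5 := by
    have := Real.log_nonneg (show (1 : ℝ) ≤ 4 * M by linarith)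
    positivity
  have h2 : ∫ x, Psi (f 0 ^ 2 + (e + η)) (f x ^ 2) ∂(mq L q) ≤
      ∫ x, ((4 * Real.log (4 * M) + 5) * (f x - f 0) ^ 2 + (e + η)) ∂(mq L q) := by
    apply MeasureTheory.integral_mono_ae
    · unfold Psi
      apply hint
      fun_prop
    · apply hint
      fun_prop
    · have : ∀ᵐ x ∂(mq L q), x ∈ Icc 0 L := by
        rw [ae_iff]; exact mq_compl
      filter_upwards [this] with x hx
      have h3 := osc_bound hL hq hpos hM hf hf' hx
      rw [← he'] at h3
      have h4 : (f x - f 0) ^ 2 ≤ M * (e + η) := by nlinarith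
      have h5 := Psi_le (a := f 0) (by positivity : 0 < e + η) hM1 h4
      simpa using h5
  refine h2.trans ?_
  rw [MeasureTheory.integral_add, MeasureTheory.integral_const_mul]
  rotate_left
  · apply hint; fun_prop
  · apply hint; fun_prop
  have h3 := hardy hL hq hpos hH hf hf'
  have h4 : ∫ x, (f x - f 0) ^ 2 ∂(mq L q) = ∫ s in (0 : ℝ)..L, q s * (f s - f 0) ^ 2 :=
    integral_mq hL.le hq hpos _
  rw [← he', ← h4] at h3
  simp only [MeasureTheory.integral_const, probReal_univ, one_smul]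
  nlinarith

end

end Pool.Agent.Q196.GT
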