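import Pool.Agent.Q196.GT.ProdLSI

/-!
# The one dimensional marginal
-/

set_option autoImplicit false

open MeasureTheory Set
open scoped ENNReal NNReal ContDiff
set_option linter.unusedSectionVars false

noncomputable section

namespace Pool.Agent.Q196.GT

/-- the unnormalised density of the first marginal -/
def q0 (N : ℕ) (t : ℝ) : ℝ := Real.exp (((N : ℝ) ^ 2 - 1) * t) * (1 - t / (N : ℝ) ^ 4) ^ (N ^ 6)

theorem q0_cont (N : ℕ) : Continuous (q0 N) := by unfold q0; fun_prop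

section
variable {N : ℕ} (hN : 2 ≤ N)
include hN

theorem dl_le {t : ℝ} (ht : t ∈ Icc 0 (N : ℝ)) : t / (N : ℝ) ^ 4 ≤ 1 / (N : ℝ) ^ 3 := by
  have h0 : (0 : ℝ) < N := by positivity
  rw [div_le_div_iff₀ (by positivity) (by positivity)]
  have := ht.2
  nlinarith [pow_pos h0 3]

theorem N3 : 1 / (N : ℝ) ^ 3 ≤ 1 / 8 := by
  have h : (2 : ℝ) ≤ N := by exact_mod_cast hN
  have : (8 : ℝ) ≤ (N : ℝ) ^ 3 := by
    have := pow_le_pow_left₀ (by norm_num) h 3
    norm_num at this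
    exact this
  apply one_div_le_one_div_of_le (by norm_num) this

theorem one_sub_pos {t : ℝ} (ht : t ∈ Icc 0 (N : ℝ)) : 7 / 8 ≤ 1 - t / (N : ℝ) ^ 4 := by
  have := dl_le hN ht
  have := N3 hN
  linarith

theorem one_sub_le {t : ℝ} (ht : t ∈ Icc 0 (N : ℝ)) : 1 - t / (N : ℝ) ^ 4 ≤ 1 := by
  have : 0 ≤ t / (N : ℝ) ^ 4 := div_nonneg ht.1 (by positivity)
  linarith

theorem q0_pos {t : ℝ} (ht : t ∈ Icc 0 (N : ℝ)) : 0 < q0 N t := by
  have := one_sub_pos hN ht
  unfold q0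
  have : 0 < 1 - t / (N : ℝ) ^ 4 := by linarith
  positivity

theorem q0_upper {s t : ℝ} (hs : s ∈ Icc 0 (N : ℝ)) (ht : t ∈ Icc 0 (N : ℝ)) (hst : s ≤ t) :
    q0 N t ≤ Real.exp (-(t - s)) * q0 N s := by
  have h0 : (0 : ℝ) < N := by positivity
  have h1 := one_sub_pos hN hs
  have h2 := one_sub_pos hN ht
  have h3 := one_sub_le hN hs
  set δ : ℝ := 1 / (N : ℝ) ^ 4 with hδ
  have hδ0 : 0 < δ := by positivity
  have es : s / (N : ℝ) ^ 4 = δ * s := by rw [hδ]; ring
  have et : t / (N : ℝ) ^ 4 = δ * t := by rw [hδ]; ring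
  have key : (1 - δ * t) ≤ (1 - δ * s) * Real.exp (-(δ * (t - s))) := by
    rw [es] at h1 h3
    have hx : 1 - δ * (t - s) / (1 - δ * s) ≤ Real.exp (-(δ * (t - s) / (1 - δ * s))) := by
      have := Real.add_one_le_exp (-(δ * (t - s) / (1 - δ * s)))
      linarith
    have hs0 : 0 < 1 - δ * s := by linarith
    have h4 : Real.exp (-(δ * (t - s) / (1 - δ * s))) ≤ Real.exp (-(δ * (t - s))) := by
      apply Real.exp_le_exp.2
      apply neg_le_neg
      rw [le_div_iff₀ hs0]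
      have : 0 ≤ δ * (t - s) := mul_nonneg hδ0.le (by linarith)
      nlinarith
    calc 1 - δ * t = (1 - δ * s) * (1 - δ * (t - s) / (1 - δ * s)) := by field_simp; ring
      _ ≤ (1 - δ * s) * Real.exp (-(δ * (t - s))) :=
          mul_le_mul_of_nonneg_left (hx.trans h4) hs0.le
  have hp : (1 - δ * t) ^ (N ^ 6) ≤ (1 - δ * s) ^ (N ^ 6) * Real.exp (-((N : ℝ) ^ 2 * (t - s))) := by
    have hb : 0 ≤ 1 - δ * t := by rw [et] at h2; linarith
    have := pow_le_pow_left₀ hb key (N ^ 6)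
    rw [mul_pow, ← Real.exp_nat_mul] at this
    have e : ((N ^ 6 : ℕ) : ℝ) * -(δ * (t - s)) = -((N : ℝ) ^ 2 * (t - s)) := by
      rw [hδ]; push_cast; field_simp
    rw [e] at this
    exact this
  unfold q0
  rw [es, et]
  calc Real.exp (((N : ℝ) ^ 2 - 1) * t) * (1 - δ * t) ^ N ^ 6
      ≤ Real.exp (((N : ℝ) ^ 2 - 1) * t) *
        ((1 - δ * s) ^ (N ^ 6) * Real.exp (-((N : ℝ) ^ 2 * (t - s)))) :=
        mul_le_mul_of_nonneg_left hp (Real.exp_pos _).le
    _ = (Real.exp (((N : ℝ) ^ 2 - 1) * t) * Real.exp (-((N : ℝ) ^ 2 * (t - s)))) *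
        (1 - δ * s) ^ (N ^ 6) := by ring
    _ = (Real.exp (-(t - s)) * Real.exp (((N : ℝ) ^ 2 - 1) * s)) * (1 - δ * s) ^ (N ^ 6) := by
        rw [← Real.exp_add, ← Real.exp_add]; congr 2; ring
    _ = _ := by ring

theorem q0_lower {s t : ℝ} (hs : s ∈ Icc 0 (N : ℝ)) (ht : t ∈ Icc 0 (N : ℝ)) (hst : s ≤ t) :
    Real.exp (-(t - s) - 2 * (t - s) / N) * q0 N s ≤ q0 N t := by
  have h0 : (0 : ℝ) < N := by positivity
  have h1 := one_sub_pos hN hs
  have h2 := one_sub_pos hN ht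
  have h3 := one_sub_le hN hs
  have hd3 := dl_le hN ht
  set δ : ℝ := 1 / (N : ℝ) ^ 4 with hδ
  have hδ0 : 0 < δ := by positivity
  have es : s / (N : ℝ) ^ 4 = δ * s := by rw [hδ]; ring
  have et : t / (N : ℝ) ^ 4 = δ * t := by rw [hδ]; ring
  rw [et] at h2 hd3
  rw [es] at h1 h3
  have ht0 : 0 < 1 - δ * t := by linarith
  have hdt : 0 ≤ δ * (t - s) := mul_nonneg hδ0.le (by linarith)
  have key : (1 - δ * s) ≤ (1 - δ * t) * Real.exp (δ * (t - s) * (1 + 2 / (N : ℝ) ^ 3)) := by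
    have hx : 1 + δ * (t - s) / (1 - δ * t) ≤ Real.exp (δ * (t - s) / (1 - δ * t)) := by
      have := Real.add_one_le_exp (δ * (t - s) / (1 - δ * t))
      linarith
    have h4 : δ * (t - s) / (1 - δ * t) ≤ δ * (t - s) * (1 + 2 / (N : ℝ) ^ 3) := by
      rw [div_le_iff₀ ht0, mul_assoc]
      apply le_mul_of_one_le_right hdt
      have h5 : δ * t ≤ 1 / (N : ℝ) ^ 3 := hd3
      have h6 : 2 / (N : ℝ) ^ 3 = 2 * (1 / (N : ℝ) ^ 3) := by ring
      rw [h6]
      set y := 1 / (N : ℝ) ^ 3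
      have hy : y ≤ 1 / 8 := N3 hN
      have hy0 : 0 ≤ y := by positivity
      nlinarith
    calc 1 - δ * s = (1 - δ * t) * (1 + δ * (t - s) / (1 - δ * t)) := by field_simp; ring
      _ ≤ (1 - δ * t) * Real.exp (δ * (t - s) * (1 + 2 / (N : ℝ) ^ 3)) :=
          mul_le_mul_of_nonneg_left (hx.trans (Real.exp_le_exp.2 h4)) ht0.le
  have hp : (1 - δ * s) ^ (N ^ 6) ≤ (1 - δ * t) ^ (N ^ 6) *
      Real.exp ((N : ℝ) ^ 2 * (t - s) + 2 * (t - s) / N) := by
    have hb : 0 ≤ 1 - δ * s := by linarith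
    have := pow_le_pow_left₀ hb key (N ^ 6)
    rw [mul_pow, ← Real.exp_nat_mul] at this
    have e : ((N ^ 6 : ℕ) : ℝ) * (δ * (t - s) * (1 + 2 / (N : ℝ) ^ 3)) =
        (N : ℝ) ^ 2 * (t - s) + 2 * (t - s) / N := by
      rw [hδ]; push_cast; field_simp
    rw [e] at this
    exact this
  unfold q0
  rw [es, et]
  calc Real.exp (-(t - s) - 2 * (t - s) / N) *
        (Real.exp (((N : ℝ) ^ 2 - 1) * s) * (1 - δ * s) ^ N ^ 6)
      ≤ Real.exp (-(t - s) - 2 * (t - s) / N) *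
        (Real.exp (((N : ℝ) ^ 2 - 1) * s) * ((1 - δ * t) ^ (N ^ 6) *
      Real.exp ((N : ℝ) ^ 2 * (t - s) + 2 * (t - s) / N))) := by gcongr
    _ = (Real.exp (-(t - s) - 2 * (t - s) / N) * Real.exp (((N : ℝ) ^ 2 - 1) * s) *
        Real.exp ((N : ℝ) ^ 2 * (t - s) + 2 * (t - s) / N)) * (1 - δ * t) ^ (N ^ 6) := by ring
    _ = Real.exp (((N : ℝ) ^ 2 - 1) * t) * (1 - δ * t) ^ (N ^ 6) := by
        rw [← Real.exp_add, ← Real.exp_add]; congr 2; ring

end

/-- normalisation -/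
def Zq (N : ℕ) : ℝ := ∫ t in (0 : ℝ)..N, q0 N t

/-- the density of the first marginal -/
def qq (N : ℕ) (t : ℝ) : ℝ := q0 N t / Zq N

theorem qq_cont (N : ℕ) : Continuous (qq N) := (q0_cont N).div_const _

section
variable {N : ℕ} (hN : 2 ≤ N)
include hN

theorem Zq_pos : 0 < Zq N := by
  have h0 : (0 : ℝ) < N := by positivity
  unfold Zq
  exact intervalIntegral.intervalIntegral_pos_of_pos_on ((q0_cont N).intervalIntegrable _ _)
    (fun t ht => q0_pos hN ⟨ht.1.le, ht.2.le⟩) h0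

theorem qq_pos : ∀ t ∈ Icc 0 (N : ℝ), 0 < qq N t := fun _ ht => div_pos (q0_pos hN ht) (Zq_pos hN)

theorem qq_int : ∫ t in (0 : ℝ)..N, qq N t = 1 := by
  unfold qq
  rw [intervalIntegral.integral_div]
  exact div_self (Zq_pos hN).ne'

theorem qq_upper {s t : ℝ} (hs : s ∈ Icc 0 (N : ℝ)) (ht : t ∈ Icc 0 (N : ℝ)) (hst : s ≤ t) :
    qq N t ≤ Real.exp (-(t - s)) * qq N s := by
  have := q0_upper hN hs ht hst
  unfold qq
  rw [← mul_div_assoc]
  gcongr
  exact (Zq_pos hN).le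

theorem qq_lower {s t : ℝ} (hs : s ∈ Icc 0 (N : ℝ)) (ht : t ∈ Icc 0 (N : ℝ)) (hst : s ≤ t) :
    Real.exp (-(t - s) - 2 * (t - s) / N) * qq N s ≤ qq N t := by
  have := q0_lower hN hs ht hst
  unfold qq
  rw [← mul_div_assoc]
  gcongr
  exact (Zq_pos hN).le

theorem qq_tail : ∀ t ∈ Icc 0 (N : ℝ), ∫ s in t..N, qq N s ≤ qq N t := by
  intro t ht
  have h1 : ∫ s in t..N, qq N s ≤ ∫ s in t..N, Real.exp (t - s) * qq N t := by
    apply intervalIntegral.integral_mono_on ht.2 ((qq_cont N).intervalIntegrable _ _)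
    · apply Continuous.intervalIntegrable; fun_prop
    · intro s hs
      have := qq_upper hN ht ⟨ht.1.trans hs.1, hs.2⟩ hs.1
      have e : -(s - t) = t - s := by ring
      rwa [e] at this
  have h2 : ∫ s in t..(N : ℝ), Real.exp (t - s) = 1 - Real.exp (t - N) := by
    have := intervalIntegral.integral_comp_sub_left (fun x => Real.exp x) t (a := t) (b := (N : ℝ))
    rw [this, integral_exp]
    simp
  rw [intervalIntegral.integral_mul_const, h2] at h1
  have h3 := qq_pos hN t ht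
  have h4 := Real.exp_pos (t - N)
  nlinarith

theorem qq_zero : 1 ≤ qq N 0 := by
  have h0 : (0 : ℝ) ≤ N := by positivity
  have := qq_tail hN 0 ⟨le_rfl, h0⟩
  rwa [qq_int hN] at this

theorem qq_ge {t : ℝ} (ht : t ∈ Icc 0 (N : ℝ)) : Real.exp (-(2 * t)) ≤ qq N t := by
  have h0 : (0 : ℝ) < N := by positivity
  have h2 : (2 : ℝ) ≤ N := by exact_mod_cast hN
  have h1 := qq_lower hN ⟨le_rfl, h0.le⟩ ht ht.1
  have hz := qq_zero hN
  refine le_trans ?_ h1
  calc Real.exp (-(2 * t)) ≤ Real.exp (-(t - 0) - 2 * (t - 0) / N) := by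
        apply Real.exp_le_exp.2
        have : 2 * (t - 0) / N ≤ t := by
          rw [div_le_iff₀ h0]; nlinarith [ht.1]
        linarith
    _ ≤ Real.exp (-(t - 0) - 2 * (t - 0) / N) * qq N 0 :=
        le_mul_of_one_le_right (Real.exp_pos _).le hz

theorem qq_inv : ∫ t in (0 : ℝ)..N, (qq N t)⁻¹ ≤ Real.exp (3 * N) := by
  have h0 : (0 : ℝ) < N := by positivity
  have h1 : ∫ t in (0 : ℝ)..N, (qq N t)⁻¹ ≤ ∫ t in (0 : ℝ)..N, Real.exp (2 * N) := by
    apply intervalIntegral.integral_mono_on h0.le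
    · apply ContinuousOn.intervalIntegrable
      rw [uIcc_of_le h0.le]
      exact cont_inv h0 (qq_cont N) (qq_pos hN)
    · exact intervalIntegrable_const
    · intro t ht
      have h2 := qq_ge hN ht
      rw [inv_le_comm₀ (qq_pos hN t ht) (Real.exp_pos _), ← Real.exp_neg]
      refine le_trans (Real.exp_le_exp.2 ?_) h2
      linarith [ht.2]
  rw [intervalIntegral.integral_const, smul_eq_mul] at h1
  refine h1.trans ?_
  have h3 : (N : ℝ) ≤ Real.exp N := by linarith [Real.add_one_le_exp (N : ℝ)]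
  calc ((N : ℝ) - 0) * Real.exp (2 * N) ≤ Real.exp N * Real.exp (2 * N) := by
        apply mul_le_mul_of_nonneg_right _ (Real.exp_pos _).le; linarith
    _ = Real.exp (3 * N) := by rw [← Real.exp_add]; congr 1; ring

end

/-- the first marginal -/
def nu (N : ℕ) : Measure ℝ := mq N (qq N)

/-- the uniform measure on `[0, 1]` -/
def U1 : Measure ℝ := mq 1 (fun _ => 1)

instance : IsProbabilityMeasure U1 :=
  isProb_mq zero_le_one continuous_const (fun _ _ => one_pos) (by simp)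

theorem nu_prob {N : ℕ} (hN : 2 ≤ N) : IsProbabilityMeasure (nu N) :=
  isProb_mq (by positivity) (qq_cont N) (qq_pos hN) (qq_int hN)

theorem log4_le : Real.log 4 ≤ 7 / 5 := by
  have h : Real.log 4 = 2 * Real.log 2 := by
    rw [show (4 : ℝ) = 2 ^ 2 by norm_num, Real.log_pow]; push_cast; ring
  rw [h]
  linarith [Real.log_two_lt_d9]

theorem LSI1_mono {μ : Measure ℝ} {C C' : ℝ} (h : LSI1 μ C) (hC : C ≤ C') : LSI1 μ C' :=
  fun f f' hf hf' => (h f f' hf hf').trans
    (mul_le_mul_of_nonneg_right hC (integral_nonneg fun _ => sq_nonneg _))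

theorem lsi_U : LSI1 U1 44 := by
  have h := lsi1 (L := 1) (q := fun _ => 1) one_pos continuous_const (fun _ _ => one_pos) (by simp)
    (fun t ht => by simp; exact ht.1) (M := 1) le_rfl (by simp)
  refine LSI1_mono h ?_
  rw [mul_one]
  linarith [log4_le]

theorem lsi_nu {N : ℕ} (hN : 2 ≤ N) : LSI1 (nu N) (70 * N) := by
  have h0 : (0 : ℝ) < N := by positivity
  have h2 : (2 : ℝ) ≤ N := by exact_mod_cast hN
  have h := lsi1 (L := N) (q := qq N) h0 (qq_cont N) (qq_pos hN) (qq_int hN) (qq_tail hN)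
    (M := Real.exp (3 * N)) (Real.one_le_exp (by positivity)) (qq_inv hN)
  refine LSI1_mono h ?_
  rw [Real.log_mul (by norm_num) (Real.exp_pos _).ne', Real.log_exp]
  linarith [log4_le]

/-- mean of the first marginal -/
def av (N : ℕ) : ℝ := ∫ t, t ∂(nu N)
/-- variance of the first marginal -/
def vr (N : ℕ) : ℝ := ∫ t, (t - av N) ^ 2 ∂(nu N)
/-- square of the scale of the fibres -/
def R2 (N : ℕ) : ℝ := 3 / ∫ t, (1 - t / (N : ℝ) ^ 4) ^ 2 ∂(nu N)

section
variable {N : ℕ} (hN : 2 ≤ N)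
include hN

theorem int_nu (φ : ℝ → ℝ) : ∫ x, φ x ∂(nu N) = ∫ t in (0 : ℝ)..N, qq N t * φ t :=
  integral_mq (by positivity) (qq_cont N) (qq_pos hN) φ

theorem integrable_nu {φ : ℝ → ℝ} (hφ : Continuous φ) : Integrable φ (nu N) := by
  have : IsProbabilityMeasure (mq N (qq N)) := nu_prob hN
  exact integrable_of_continuous_compl isCompact_Icc mq_compl hφ

theorem ae_nu : ∀ᵐ t ∂(nu N), t ∈ Icc 0 (N : ℝ) := by
  rw [ae_iff]; exact mq_compl

theorem av_mem : av N ∈ Icc 0 (N : ℝ) := by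
  have := nu_prob hN
  unfold av
  constructor
  · apply integral_nonneg_of_ae
    filter_upwards [ae_nu hN] with t ht using ht.1
  · have h : ∫ t, t ∂(nu N) ≤ ∫ _t, (N : ℝ) ∂(nu N) := by
      apply integral_mono_ae (integrable_nu hN continuous_id) (integrable_const _)
      filter_upwards [ae_nu hN] with t ht using ht.2
    simpa using h

theorem vr_le : vr N ≤ 4 := by
  have h0 : (0 : ℝ) < N := by positivity
  have := nu_prob hN
  have h1 := hardy h0 (qq_cont N) (qq_pos hN) (qq_tail hN) (f := fun x => x) (f' := fun _ => 1)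
    (fun x => hasDerivAt_id' x) continuous_const
  simp only [sub_zero, one_pow, mul_one] at h1
  rw [qq_int hN, ← int_nu hN (fun t => t ^ 2)] at h1
  have h2 : vr N = (∫ t, t ^ 2 ∂(nu N)) - av N ^ 2 := by
    unfold vr
    have e : ∀ t : ℝ, (t - av N) ^ 2 = t ^ 2 - 2 * av N * t + av N ^ 2 := fun t => by ring
    simp only [e]
    rw [integral_add, integral_sub, integral_const_mul]
    · simp only [integral_const, probReal_univ, one_smul]
      have : ∫ t, t ∂(nu N) = av N := rfl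
      rw [this]; ring
    · exact integrable_nu hN (by fun_prop)
    · exact integrable_nu hN (by fun_prop)
    · exact integrable_nu hN (by fun_prop)
    · exact integrable_const _
  rw [h2]
  nlinarith [sq_nonneg (av N)]

theorem sq_int_ge (c β : ℝ) (L : ℝ) (hL : 0 < L) :
    c ^ 2 * L ^ 3 / 12 ≤ ∫ t in (0 : ℝ)..L, (c * t - β) ^ 2 := by
  have h : ∫ t in (0 : ℝ)..L, (c * t - β) ^ 2 = c ^ 2 * L ^ 3 / 3 - c * β * L ^ 2 + β ^ 2 * L := by
    have hd : ∀ t : ℝ, HasDerivAt (fun t => c ^ 2 * t ^ 3 / 3 - c * β * t ^ 2 + β ^ 2 * t)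
        ((c * t - β) ^ 2) t := by
      intro t
      have h1 := (((hasDerivAt_pow 3 t).const_mul (c ^ 2)).div_const 3).sub
        ((hasDerivAt_pow 2 t).const_mul (c * β))
      have h2 := h1.add ((hasDerivAt_id' t).const_mul (β ^ 2))
      refine h2.congr_deriv ?_
      simp only [Nat.cast_ofNat]
      ring
    rw [intervalIntegral.integral_eq_sub_of_hasDerivAt (fun t _ => hd t)]
    · ring
    · apply Continuous.intervalIntegrable; fun_prop
  rw [h]
  nlinarith [mul_nonneg hL.le (sq_nonneg (c * L / 2 - β))]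

theorem vr_ge : Real.exp (-2) / 12 ≤ vr N := by
  have h0 : (0 : ℝ) < N := by positivity
  have h2 : (2 : ℝ) ≤ N := by exact_mod_cast hN
  unfold vr
  rw [int_nu hN]
  have h1 := sq_int_ge hN 1 (av N) 1 one_pos
  have h3 : ∫ t in (0 : ℝ)..1, Real.exp (-2) * (t - av N) ^ 2 ≤
      ∫ t in (0 : ℝ)..1, qq N t * (t - av N) ^ 2 := by
    apply intervalIntegral.integral_mono_on zero_le_one
    · apply Continuous.intervalIntegrable; fun_prop
    · apply Continuous.intervalIntegrable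
      exact (qq_cont N).mul (by fun_prop)
    · intro t ht
      apply mul_le_mul_of_nonneg_right _ (sq_nonneg _)
      refine le_trans (Real.exp_le_exp.2 ?_) (qq_ge hN ⟨ht.1, by linarith [ht.2]⟩)
      linarith [ht.2]
  have h4 : ∫ t in (0 : ℝ)..1, qq N t * (t - av N) ^ 2 ≤
      ∫ t in (0 : ℝ)..N, qq N t * (t - av N) ^ 2 := by
    apply intervalIntegral.integral_mono_interval le_rfl zero_le_one (by linarith)
    · rw [Filter.EventuallyLE, ae_restrict_iff' measurableSet_Ioc]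
      exact Filter.Eventually.of_forall fun s hs =>
        mul_nonneg (qq_pos hN s ⟨hs.1.le, hs.2⟩).le (sq_nonneg _)
    · apply Continuous.intervalIntegrable
      exact (qq_cont N).mul (by fun_prop)
  rw [intervalIntegral.integral_const_mul] at h3
  simp only [one_mul] at h1
  have h5 := Real.exp_pos (-2)
  nlinarith

theorem vr_pos : 0 < vr N := lt_of_lt_of_le (by positivity) (vr_ge hN)

theorem inv_vr_le : 1 / (2 * vr N) ≤ 45 := by
  have h := vr_ge hN
  have hp := vr_pos hN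
  rw [div_le_iff₀ (by positivity)]
  have he : Real.exp 2 < 7.4 := by
    have h1 := Real.exp_one_lt_d9
    have h2 : Real.exp 2 = Real.exp 1 * Real.exp 1 := by rw [← Real.exp_add]; norm_num
    rw [h2]
    nlinarith [Real.exp_pos 1]
  have he2 : Real.exp (-2) * Real.exp 2 = 1 := by rw [← Real.exp_add]; simp
  have h3 := Real.exp_pos (-2)
  have h4 : 1 / 7.4 < Real.exp (-2) := by
    rw [div_lt_iff₀ (by norm_num)]; nlinarith
  norm_num at h4
  linarith

theorem int_one_sub : ∫ t, (1 - t / (N : ℝ) ^ 4) ^ 2 ∂(nu N) ∈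
    Icc ((1 - 1 / (N : ℝ) ^ 3) ^ 2) 1 := by
  have := nu_prob hN
  constructor
  · have h : ∫ _t, (1 - 1 / (N : ℝ) ^ 3) ^ 2 ∂(nu N) ≤ ∫ t, (1 - t / (N : ℝ) ^ 4) ^ 2 ∂(nu N) := by
      apply integral_mono_ae (integrable_const _) (integrable_nu hN (by fun_prop))
      filter_upwards [ae_nu hN] with t ht
      have h1 := dl_le hN ht
      have h2 := N3 hN
      apply pow_le_pow_left₀ (by linarith)
      linarith
    simpa using h
  · have h : ∫ t, (1 - t / (N : ℝ) ^ 4) ^ 2 ∂(nu N) ≤ ∫ _t, (1 : ℝ) ∂(nu N) := by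
      apply integral_mono_ae (integrable_nu hN (by fun_prop)) (integrable_const _)
      filter_upwards [ae_nu hN] with t ht
      have h1 := one_sub_le hN ht
      have h2 := one_sub_pos hN ht
      apply pow_le_one₀ (by linarith) h1
    simpa using h

theorem R2_ge : 3 ≤ R2 N := by
  have h := int_one_sub hN
  have h2 := N3 hN
  have hpos : 0 < (1 - 1 / (N : ℝ) ^ 3) ^ 2 := by
    have : 0 < 1 - 1 / (N : ℝ) ^ 3 := by linarith
    positivity
  unfold R2
  rw [le_div_iff₀ (hpos.trans_le h.1)]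
  linarith [h.2]

theorem R2_le : R2 N * (1 - 1 / (N : ℝ) ^ 3) ^ 2 ≤ 3 := by
  have h := int_one_sub hN
  have h2 := N3 hN
  have hpos : 0 < (1 - 1 / (N : ℝ) ^ 3) ^ 2 := by
    have : 0 < 1 - 1 / (N : ℝ) ^ 3 := by linarith
    positivity
  unfold R2
  rw [div_mul_eq_mul_div, div_le_iff₀ (hpos.trans_le h.1)]
  linarith [h.1]

theorem R2_le4 : R2 N ≤ 4 := by
  have h := R2_le hN
  have h2 := N3 hN
  have h3 := R2_ge hN
  have h4 : (49 : ℝ) / 64 ≤ (1 - 1 / (N : ℝ) ^ 3) ^ 2 := by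
    have : (7 : ℝ) / 8 ≤ 1 - 1 / (N : ℝ) ^ 3 := by linarith
    calc (49 : ℝ) / 64 = (7 / 8) ^ 2 := by norm_num
      _ ≤ _ := pow_le_pow_left₀ (by norm_num) this 2
  nlinarith

end

end Pool.Agent.Q196.GT
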