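import Pool.Agent.Q196.GT.Tens

/-!
# Log-Sobolev inequality for products of measures on the line
-/

set_option autoImplicit false

open MeasureTheory Set
open scoped ENNReal NNReal ContDiff
set_option linter.unusedSectionVars false

noncomputable section

namespace Pool.Agent.Q196.GT

theorem pi_compl_null {n : ℕ} (μ : Fin n → Measure ℝ) [∀ i, IsProbabilityMeasure (μ i)]
    (K : Fin n → Set ℝ) (hKm : ∀ i, MeasurableSet (K i)) (h0 : ∀ i, μ i (K i)ᶜ = 0) :
    (Measure.pi μ) (univ.pi K)ᶜ = 0 := by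
  have h1 : ∀ i, μ i (K i) = 1 := fun i => by
    rw [← prob_compl_eq_zero_iff (hKm i)]; exact h0 i
  rw [prob_compl_eq_zero_iff (MeasurableSet.univ_pi hKm), Measure.pi_pi]
  simp [h1]

theorem integrable_pi {n : ℕ} (μ : Fin n → Measure ℝ) [∀ i, IsProbabilityMeasure (μ i)]
    (K : Fin n → Set ℝ) (hK : ∀ i, IsCompact (K i)) (h0 : ∀ i, μ i (K i)ᶜ = 0)
    {φ : (Fin n → ℝ) → ℝ} (hφ : Continuous φ) : Integrable φ (Measure.pi μ) :=
  integrable_of_continuous_compl (isCompact_univ_pi hK)
    (pi_compl_null μ K (fun i => (hK i).measurableSet) h0) hφ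

/-- the isomorphism `ℝ × ℝⁿ → ℝⁿ⁺¹` -/
theorem mp_cons {n : ℕ} (μ : Fin (n + 1) → Measure ℝ) [∀ i, IsProbabilityMeasure (μ i)] :
    MeasurePreserving (fun p : ℝ × (Fin n → ℝ) => (Fin.cons p.1 p.2 : Fin (n + 1) → ℝ))
      ((μ 0).prod (Measure.pi fun j : Fin n => μ j.succ)) (Measure.pi μ) := by
  have h := (measurePreserving_piFinSuccAbove (fun i => μ i) 0).symm
  have e : (fun p : ℝ × (Fin n → ℝ) => (Fin.cons p.1 p.2 : Fin (n + 1) → ℝ)) =
      ⇑(MeasurableEquiv.piFinSuccAbove (fun _ : Fin (n + 1) => ℝ) 0).symm := by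
    ext p i
    simp only [MeasurableEquiv.piFinSuccAbove_symm_apply, Fin.insertNthEquiv_zero]
    rfl
  rw [e]
  exact h

theorem cont_cons {n : ℕ} :
    Continuous (fun p : ℝ × (Fin n → ℝ) => (Fin.cons p.1 p.2 : Fin (n + 1) → ℝ)) := by
  refine continuous_pi fun i => ?_
  refine Fin.cases ?_ (fun j => ?_) i
  · simpa using continuous_fst
  · simp only [Fin.cons_succ]
    exact (continuous_apply j).comp continuous_snd

theorem Ent_map {X Y : Type*} [MeasurableSpace X] [MeasurableSpace Y] {μ : Measure X}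
    {ν : Measure Y} {T : X → Y} (hT : MeasurePreserving T μ ν) {F : Y → ℝ} (hF : Measurable F) :
    Ent ν F = Ent μ (fun x => F (T x)) := by
  have h : ∀ {G : Y → ℝ}, Measurable G → ∫ y, G y ∂ν = ∫ x, G (T x) ∂μ := by
    intro G hG
    rw [← hT.map_eq, integral_map hT.measurable.aemeasurable hG.aestronglyMeasurable]
  unfold Ent
  rw [h hF, h (G := fun y => F y * Real.log (F y)) (hF.mul (Real.measurable_log.comp hF))]

theorem lsi_pi : ∀ (n : ℕ) (μ : Fin n → Measure ℝ) [∀ i, IsProbabilityMeasure (μ i)]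
    (K : Fin n → Set ℝ) (_ : ∀ i, IsCompact (K i)) (_ : ∀ i, μ i (K i)ᶜ = 0)
    (c : Fin n → ℝ) (_ : ∀ i, LSI1 (μ i) (c i))
    (f : (Fin n → ℝ) → ℝ) (_ : ContDiff ℝ 1 f),
    Ent (Measure.pi μ) (fun x => f x ^ 2) ≤
      ∑ i, c i * ∫ x, (fderiv ℝ f x (Pi.single i 1)) ^ 2 ∂(Measure.pi μ) := by
  intro n
  induction n with
  | zero =>
    intro μ _ K hK h0 c hc f hf
    simp only [Finset.univ_eq_empty, Finset.sum_empty]
    have h : ∀ φ : (Fin 0 → ℝ) → ℝ, ∫ x, φ x ∂(Measure.pi μ) = φ default := by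
      intro φ
      have : φ = fun _ => φ default := by
        ext x; rw [Subsingleton.elim x default]
      rw [this, integral_const]
      simp
    unfold Ent
    rw [h, h]
    simp
  | succ n ih =>
    intro μ _ K hK h0 c hc f hf
    have hfc : Continuous f := hf.continuous
    have hcf : Continuous (fderiv ℝ f) := hf.continuous_fderiv (by norm_num)
    have hdf : Differentiable ℝ f := hf.differentiable (by norm_num)
    set μ' : Fin n → Measure ℝ := fun j => μ j.succ with hμ'
    set T : ℝ × (Fin n → ℝ) → (Fin (n + 1) → ℝ) := fun p => Fin.cons p.1 p.2 with hTd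
    have hT : MeasurePreserving T ((μ 0).prod (Measure.pi μ')) (Measure.pi μ) := mp_cons μ
    have hTc : Continuous T := cont_cons
    set K' : Set (Fin n → ℝ) := univ.pi fun j => K j.succ with hK'
    have hK'c : IsCompact K' := isCompact_univ_pi fun j => hK j.succ
    have hK'0 : (Measure.pi μ') K'ᶜ = 0 :=
      pi_compl_null μ' _ (fun j => (hK j.succ).measurableSet) fun j => h0 j.succ
    have hpi : ∀ {φ : (Fin n → ℝ) → ℝ}, Continuous φ → Integrable φ (Measure.pi μ') := fun hφ =>
      integrable_of_continuous_compl hK'c hK'0 hφ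
    have h00 : ∀ {φ : ℝ → ℝ}, Continuous φ → Integrable φ (μ 0) := fun hφ =>
      integrable_of_continuous_compl (hK 0) (h0 0) hφ
    have hprod0 : ((μ 0).prod (Measure.pi μ')) (K 0 ×ˢ K')ᶜ = 0 := by
      rw [prob_compl_eq_zero_iff ((hK 0).measurableSet.prod hK'c.measurableSet),
        Measure.prod_prod]
      have h1 : μ 0 (K 0) = 1 := by
        rw [← prob_compl_eq_zero_iff (hK 0).measurableSet]; exact h0 0
      have h2 : (Measure.pi μ') K' = 1 := by
        rw [← prob_compl_eq_zero_iff hK'c.measurableSet]; exact hK'0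
      rw [h1, h2, one_mul]
    have hpr : ∀ {φ : ℝ × (Fin n → ℝ) → ℝ}, Continuous φ →
        Integrable φ ((μ 0).prod (Measure.pi μ')) := fun hφ =>
      integrable_of_continuous_compl ((hK 0).prod hK'c) hprod0 hφ
    have hint : ∀ {φ : (Fin (n + 1) → ℝ) → ℝ}, Continuous φ →
        ∫ x, φ x ∂(Measure.pi μ) = ∫ p, φ (T p) ∂((μ 0).prod (Measure.pi μ')) := by
      intro φ hφ
      rw [← hT.map_eq, integral_map hT.measurable.aemeasurable hφ.measurable.aestronglyMeasurable]
    rw [Ent_map hT (F := fun x => f x ^ 2) (hfc.pow 2).measurable]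
    -- boundedness
    obtain ⟨C, hC⟩ := (((hK 0).prod hK'c).image ((hfc.comp hTc).pow 2)).isBounded.exists_norm_le
    have hC' : ∀ p ∈ K 0 ×ˢ K', f (T p) ^ 2 ∈ Icc 0 (max C 0) := by
      intro p hp
      refine ⟨sq_nonneg _, le_max_of_le_left ?_⟩
      have := hC _ ⟨p, hp, rfl⟩
      exact (le_abs_self _).trans this
    -- derivatives
    set D : Fin (n + 1) → (Fin (n + 1) → ℝ) → ℝ := fun i x => fderiv ℝ f x (Pi.single i 1) with hD
    have hDc : ∀ i, Continuous (D i) := fun i => hcf.clm_apply continuous_const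
    have hD0 : ∀ (x : ℝ) (z : Fin n → ℝ), HasDerivAt (fun x => f (T (x, z))) (D 0 (T (x, z))) x := by
      intro x z
      have h1 : HasDerivAt (fun x : ℝ => T (x, z)) (Pi.single 0 1) x := by
        rw [hasDerivAt_pi]
        intro i
        refine Fin.cases ?_ (fun j => ?_) i
        · simp only [hTd, Fin.cons_zero, Pi.single_eq_same]
          exact hasDerivAt_id' x
        · simp only [hTd, Fin.cons_succ, ne_eq, Fin.succ_ne_zero, not_false_eq_true,
            Pi.single_eq_of_ne]
          exact hasDerivAt_const x _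
      exact ((hdf (T (x, z))).hasFDerivAt).comp_hasDerivAt x h1
    have hDs : ∀ (x : ℝ) (z : Fin n → ℝ) (j : Fin n),
        fderiv ℝ (fun z => f (T (x, z))) z (Pi.single j 1) = D j.succ (T (x, z)) := by
      intro x z j
      have h1 : HasFDerivAt (fun z : Fin n → ℝ => T (x, z))
          (ContinuousLinearMap.pi (Fin.cons (0 : (Fin n → ℝ) →L[ℝ] ℝ)
            (fun j => ContinuousLinearMap.proj (R := ℝ) (φ := fun _ : Fin n => ℝ) j))) z := by
        rw [hasFDerivAt_pi]
        intro i
        refine Fin.cases ?_ (fun j => ?_) i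
        · simp only [hTd, Fin.cons_zero]
          exact hasFDerivAt_const _ _
        · simp only [hTd, Fin.cons_succ]
          exact hasFDerivAt_apply j z
      have h2 := ((hdf (T (x, z))).hasFDerivAt).comp z h1
      have h3 : (fun z => f (T (x, z))) = f ∘ fun z : Fin n → ℝ => T (x, z) := rfl
      rw [h3, h2.fderiv]
      simp only [ContinuousLinearMap.comp_apply, hD]
      congr 1
      ext i
      refine Fin.cases ?_ (fun k => ?_) i
      · simp
      · simp only [ContinuousLinearMap.coe_pi', Fin.cons_succ, ContinuousLinearMap.proj_apply]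
        by_cases hk : k = j
        · subst hk; simp
        · rw [Pi.single_eq_of_ne hk, Pi.single_eq_of_ne (by simpa using hk)]
    have hcd : ∀ x : ℝ, ContDiff ℝ 1 (fun z : Fin n → ℝ => f (T (x, z))) := by
      intro x
      refine hf.comp ?_
      rw [contDiff_pi]
      intro i
      refine Fin.cases ?_ (fun j => ?_) i
      · simp only [hTd, Fin.cons_zero]; exact contDiff_const
      · simp only [hTd, Fin.cons_succ]; exact contDiff_apply ℝ ℝ j
    have key := ent_prod_compact (μ := μ 0) (ν := Measure.pi μ')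
      (F := fun p => f (T p) ^ 2) (C := max C 0)
      ((hfc.comp hTc).pow 2).measurable (hK 0).measurableSet hK'c.measurableSet (h0 0) hK'0
      hC' (le_max_right _ _)
      (A := fun x => ∑ j : Fin n, c j.succ * ∫ z, (D j.succ (T (x, z))) ^ 2 ∂(Measure.pi μ'))
      (B := fun z => c 0 * ∫ x, (D 0 (T (x, z))) ^ 2 ∂(μ 0)) ?_ ?_ ?_ ?_
    · refine key.trans ?_
      rw [Fin.sum_univ_succ]
      have hA : ∫ x, (∑ j : Fin n, c j.succ * ∫ z, (D j.succ (T (x, z))) ^ 2 ∂(Measure.pi μ'))
          ∂(μ 0) = ∑ j : Fin n, c j.succ * ∫ x, (D j.succ x) ^ 2 ∂(Measure.pi μ) := by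
        rw [integral_finsetSum]
        · refine Finset.sum_congr rfl fun j _ => ?_
          rw [integral_const_mul, hint (φ := fun x => D j.succ x ^ 2) ((hDc j.succ).pow 2),
            integral_prod]
          exact hpr (((hDc j.succ).comp hTc).pow 2)
        · intro j _
          refine Integrable.const_mul ?_ _
          exact (hpr (φ := fun p => D j.succ (T p) ^ 2) (((hDc j.succ).comp hTc).pow 2)).integral_prod_left
      have hB : ∫ z, (c 0 * ∫ x, (D 0 (T (x, z))) ^ 2 ∂(μ 0)) ∂(Measure.pi μ') =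
          c 0 * ∫ x, (D 0 x) ^ 2 ∂(Measure.pi μ) := by
        rw [integral_const_mul, hint (φ := fun x => D 0 x ^ 2) ((hDc 0).pow 2),
          integral_prod_symm]
        exact hpr (((hDc 0).comp hTc).pow 2)
      rw [hA, hB, add_comm]
    · refine integrable_finsetSum _ fun j _ => Integrable.const_mul ?_ _
      exact (hpr (φ := fun p => D j.succ (T p) ^ 2) (((hDc j.succ).comp hTc).pow 2)).integral_prod_left
    · refine Integrable.const_mul ?_ _
      exact (hpr (φ := fun p => D 0 (T p) ^ 2) (((hDc 0).comp hTc).pow 2)).integral_prod_right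
    · intro x _
      have h := ih μ' (fun j => K j.succ) (fun j => hK j.succ) (fun j => h0 j.succ)
        (fun j => c j.succ) (fun j => hc j.succ) (fun z => f (T (x, z))) (hcd x)
      simp only [hDs] at h
      exact h
    · intro z _
      exact hc 0 (fun x => f (T (x, z))) (fun x => D 0 (T (x, z))) (fun x => hD0 x z)
        ((hDc 0).comp (hTc.comp (continuous_id.prodMk continuous_const)))

end Pool.Agent.Q196.GT
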