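import Pool.Agent.Q196.GT.OneD2

/-!
# Tensorization of entropy
-/

set_option autoImplicit false

open MeasureTheory Set
open scoped ENNReal NNReal ContDiff
set_option linter.unusedSectionVars false

noncomputable section

namespace Pool.Agent.Q196.GT

/-- `x log x` -/
def xl (x : ℝ) : ℝ := x * Real.log x

theorem continuous_xl : Continuous xl := Real.continuous_mul_log

theorem xl_unif (C η : ℝ) (hη : 0 < η) :
    ∃ ε : ℝ, 0 < ε ∧ ε ≤ 1 ∧ ∀ x ∈ Icc 0 C, |xl (x + ε) - xl x| ≤ η := by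
  have huc : UniformContinuousOn xl (Icc 0 (C + 1)) :=
    isCompact_Icc.uniformContinuousOn_of_continuous continuous_xl.continuousOn
  rw [Metric.uniformContinuousOn_iff] at huc
  obtain ⟨δ, hδ, h⟩ := huc η hη
  refine ⟨min (δ / 2) 1, by positivity, min_le_right _ _, fun x hx => ?_⟩
  have hm : 0 < min (δ / 2) 1 := by positivity
  have hm1 : min (δ / 2) 1 ≤ 1 := min_le_right _ _
  have h1 := h (x + min (δ / 2) 1) ⟨by linarith [hx.1], by linarith [hx.2]⟩ x
    ⟨hx.1, by linarith [hx.2]⟩ (by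
      rw [Real.dist_eq]
      have : x + min (δ / 2) 1 - x = min (δ / 2) 1 := by ring
      rw [this, abs_of_pos hm]
      exact (min_le_left _ _).trans_lt (by linarith))
  rw [Real.dist_eq] at h1
  exact h1.le

theorem xl_bound (C : ℝ) : ∃ D : ℝ, ∀ x ∈ Icc 0 C, |xl x| ≤ D := by
  obtain ⟨D, hD⟩ := (isCompact_Icc.image continuous_xl : IsCompact (xl '' Icc 0 C)).isBounded.exists_norm_le
  exact ⟨D, fun x hx => hD _ ⟨x, hx, rfl⟩⟩

section bdd
variable {X : Type*} [MeasurableSpace X] {μ : Measure X} [IsProbabilityMeasure μ]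

theorem integrable_bdd {F : X → ℝ} {C : ℝ} (hF : Measurable F) (hb : ∀ x, |F x| ≤ C) :
    Integrable F μ :=
  Integrable.of_bound hF.aestronglyMeasurable C (Filter.Eventually.of_forall hb)

theorem integrable_xl {F : X → ℝ} {C : ℝ} (hF : Measurable F) (hb : ∀ x, F x ∈ Icc 0 C) :
    Integrable (fun x => xl (F x)) μ := by
  obtain ⟨D, hD⟩ := xl_bound C
  exact integrable_bdd (continuous_xl.measurable.comp hF) fun x => hD _ (hb x)

theorem integrable_Icc {F : X → ℝ} {C : ℝ} (hF : Measurable F) (hb : ∀ x, F x ∈ Icc 0 C) :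
    Integrable F μ :=
  integrable_bdd (C := C) hF fun x => by rw [abs_of_nonneg (hb x).1]; exact (hb x).2

theorem integral_mem_Icc {F : X → ℝ} {C : ℝ} (hF : Measurable F) (hb : ∀ x, F x ∈ Icc 0 C) :
    ∫ x, F x ∂μ ∈ Icc 0 C := by
  refine ⟨integral_nonneg fun x => (hb x).1, ?_⟩
  have h1 : ∫ x, F x ∂μ ≤ ∫ _x : X, C ∂μ :=
    integral_mono (integrable_Icc hF hb) (integrable_const _) fun x => (hb x).2
  simpa using h1

theorem hmem {G : X → ℝ} {C ε : ℝ} (hε : 0 < ε) (hG : Measurable G)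
    (hGb : ∀ z, G z ∈ Icc ε C) : ∫ z, G z ∂μ ∈ Icc ε C := by
  have hGi : Integrable G μ := integrable_Icc hG fun z => ⟨hε.le.trans (hGb z).1, (hGb z).2⟩
  constructor
  · have := integral_mono (integrable_const ε) hGi fun z => (hGb z).1
    simpa using this
  · have := integral_mono hGi (integrable_const C) fun z => (hGb z).2
    simpa using this

theorem Ent_eq (F : X → ℝ) : Ent μ F = (∫ x, xl (F x) ∂μ) - xl (∫ x, F x ∂μ) := rfl

theorem Ent_add_close {F : X → ℝ} {C η ε : ℝ} (hF : Measurable F) (hb : ∀ x, F x ∈ Icc 0 C)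
    (hε0 : 0 < ε) (h : ∀ x ∈ Icc 0 C, |xl (x + ε) - xl x| ≤ η) :
    |Ent μ (fun x => F x + ε) - Ent μ F| ≤ 2 * η := by
  rw [Ent_eq, Ent_eq]
  have h1 : ∫ x, (F x + ε) ∂μ = (∫ x, F x ∂μ) + ε := by
    rw [integral_add (integrable_Icc hF hb) (integrable_const _)]; simp
  have h2 : |(∫ x, xl (F x + ε) ∂μ) - ∫ x, xl (F x) ∂μ| ≤ η := by
    rw [← integral_sub]
    · have := norm_integral_le_of_norm_le_const (μ := μ) (C := η)
        (f := fun x => xl (F x + ε) - xl (F x))
        (Filter.Eventually.of_forall fun x => h _ (hb x))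
      simpa using this
    · exact integrable_xl (C := C + ε) (hF.add_const _) fun x =>
        ⟨by linarith [(hb x).1], by linarith [(hb x).2]⟩
    · exact integrable_xl hF hb
  have h3 := h _ (integral_mem_Icc (μ := μ) hF hb)
  rw [h1]
  rw [abs_le] at *
  constructor <;> linarith [h2.1, h2.2, h3.1, h3.2]

theorem Ent_congr {F G : X → ℝ} (h : F =ᵐ[μ] G) : Ent μ F = Ent μ G := by
  rw [Ent_eq, Ent_eq, integral_congr_ae h]
  congr 1
  apply integral_congr_ae
  filter_upwards [h] with x hx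
  rw [hx]

end bdd

section prod

variable {X Y : Type*} [MeasurableSpace X] [MeasurableSpace Y] {μ : Measure X} {ν : Measure Y}
  [IsProbabilityMeasure μ] [IsProbabilityMeasure ν]

theorem xl_key {a b c m : ℝ} (ha : 0 < a) (hb : 0 < b) (hc : 0 < c) (hm : 0 < m) :
    a * Real.log b + a * Real.log c + a - b * c / m ≤ xl a + a * Real.log m := by
  unfold xl
  have h1 : Real.log (b * c / m / a) ≤ b * c / m / a - 1 :=
    Real.log_le_sub_one_of_pos (by positivity)
  rw [Real.log_div (by positivity) ha.ne', Real.log_div (by positivity) hm.ne',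
    Real.log_mul hb.ne' hc.ne'] at h1
  have h2 := mul_le_mul_of_nonneg_left h1 ha.le
  have h3 : a * (b * c / m / a - 1) = b * c / m - a := by field_simp
  nlinarith

theorem meas_int_right {F : X × Y → ℝ} (hF : Measurable F) :
    Measurable fun x => ∫ y, F (x, y) ∂ν :=
  (hF.stronglyMeasurable.integral_prod_right' (ν := ν)).measurable

theorem meas_int_left {F : X × Y → ℝ} (hF : Measurable F) :
    Measurable fun y => ∫ x, F (x, y) ∂μ :=
  (hF.stronglyMeasurable.integral_prod_left' (μ := μ)).measurable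

theorem Ent_right_meas {F : X × Y → ℝ} (hF : Measurable F) :
    Measurable fun x => Ent ν (fun y => F (x, y)) := by
  have h1 : Measurable fun x => ∫ y, xl (F (x, y)) ∂ν :=
    meas_int_right (F := fun p => xl (F p)) (continuous_xl.measurable.comp hF)
  exact h1.sub (continuous_xl.measurable.comp (meas_int_right hF))

theorem Ent_left_meas {F : X × Y → ℝ} (hF : Measurable F) :
    Measurable fun y => Ent μ (fun x => F (x, y)) := by
  have h1 : Measurable fun y => ∫ x, xl (F (x, y)) ∂μ :=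
    meas_int_left (F := fun p => xl (F p)) (continuous_xl.measurable.comp hF)
  exact h1.sub (continuous_xl.measurable.comp (meas_int_left hF))

theorem Ent_abs_le {F : X → ℝ} {C D : ℝ} (hF : Measurable F) (hb : ∀ x, F x ∈ Icc 0 C)
    (hD : ∀ x ∈ Icc 0 C, |xl x| ≤ D) : |Ent μ F| ≤ 2 * D := by
  rw [Ent_eq]
  have h2 : |∫ x, xl (F x) ∂μ| ≤ D := by
    have := norm_integral_le_of_norm_le_const (μ := μ) (C := D)
        (f := fun x => xl (F x)) (Filter.Eventually.of_forall fun x => hD _ (hb x))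
    simpa using this
  have h3 := hD _ (integral_mem_Icc (μ := μ) hF hb)
  rw [abs_le] at *
  constructor <;> linarith [h2.1, h2.2, h3.1, h3.2]

theorem Ent_right_int {F : X × Y → ℝ} {C : ℝ} (hF : Measurable F) (hb : ∀ p, F p ∈ Icc 0 C) :
    Integrable (fun x => Ent ν (fun y => F (x, y))) μ := by
  obtain ⟨D, hD⟩ := xl_bound C
  exact integrable_bdd (Ent_right_meas hF) fun x =>
    Ent_abs_le (hF.comp measurable_prodMk_left) (fun y => hb _) hD

theorem Ent_left_int {F : X × Y → ℝ} {C : ℝ} (hF : Measurable F) (hb : ∀ p, F p ∈ Icc 0 C) :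
    Integrable (fun y => Ent μ (fun x => F (x, y))) ν := by
  obtain ⟨D, hD⟩ := xl_bound C
  exact integrable_bdd (Ent_left_meas hF) fun x =>
    Ent_abs_le (hF.comp measurable_prodMk_right) (fun y => hb _) hD

theorem ent_prod_pos {F : X × Y → ℝ} {C ε : ℝ} (hF : Measurable F) (hε : 0 < ε)
    (hb : ∀ p, F p ∈ Icc ε C) :
    Ent (μ.prod ν) F ≤ (∫ x, Ent ν (fun y => F (x, y)) ∂μ) + ∫ y, Ent μ (fun x => F (x, y)) ∂ν := by
  have hb0 : ∀ p, F p ∈ Icc 0 C := fun p => ⟨hε.le.trans (hb p).1, (hb p).2⟩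
  set F1 : X → ℝ := fun x => ∫ y, F (x, y) ∂ν with hF1
  set M : Y → ℝ := fun y => ∫ x, F (x, y) ∂μ with hMd
  set m : ℝ := ∫ p, F p ∂(μ.prod ν) with hm
  have hFi : Integrable F (μ.prod ν) := integrable_Icc hF hb0
  have hm1 : m = ∫ x, F1 x ∂μ := integral_prod _ hFi
  have hm2 : m = ∫ y, M y ∂ν := integral_prod_symm _ hFi
  have hF1m : Measurable F1 := meas_int_right hF
  have hMm : Measurable M := meas_int_left hF
  have hF1b : ∀ x, F1 x ∈ Icc ε C := fun x =>
    hmem (μ := ν) (G := fun y => F (x, y)) hε (hF.comp measurable_prodMk_left) fun y => hb _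
  have hMb : ∀ y, M y ∈ Icc ε C := fun y =>
    hmem (μ := μ) (G := fun x => F (x, y)) hε (hF.comp measurable_prodMk_right) fun x => hb _
  have hmb : m ∈ Icc ε C := by
    rw [hm1]; exact hmem hε hF1m hF1b
  have hm0 : 0 < m := hε.trans_le hmb.1
  have hIcc : ∀ {a : ℝ}, a ∈ Icc ε C → a ∈ Icc 0 C := fun h => ⟨hε.le.trans h.1, h.2⟩
  obtain ⟨D, hD⟩ := (isCompact_Icc.image_of_continuousOn
    (Real.continuousOn_log.mono (fun x (hx : x ∈ Icc ε C) => by
      simp only [mem_compl_iff, mem_singleton_iff]; exact (hε.trans_le hx.1).ne')) :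
      IsCompact (Real.log '' Icc ε C)).isBounded.exists_norm_le
  have hD' : ∀ x ∈ Icc ε C, |Real.log x| ≤ D := fun x hx => hD _ ⟨x, hx, rfl⟩
  have hD0 : 0 ≤ D := (abs_nonneg _).trans (hD' _ hmb)
  have hC0 : 0 ≤ C := hm0.le.trans hmb.2
  -- the integrals
  have hlogF1 : Measurable fun p : X × Y => F p * Real.log (F1 p.1) :=
    hF.mul (Real.measurable_log.comp (hF1m.comp measurable_fst))
  have hlogM : Measurable fun p : X × Y => F p * Real.log (M p.2) :=
    hF.mul (Real.measurable_log.comp (hMm.comp measurable_snd))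
  have hi1 : Integrable (fun p : X × Y => F p * Real.log (F1 p.1)) (μ.prod ν) := by
    refine integrable_bdd (C := C * D) hlogF1 fun p => ?_
    rw [abs_mul, abs_of_nonneg (hb0 p).1]
    exact mul_le_mul (hb0 p).2 (hD' _ (hF1b _)) (abs_nonneg _) hC0
  have hi2 : Integrable (fun p : X × Y => F p * Real.log (M p.2)) (μ.prod ν) := by
    refine integrable_bdd (C := C * D) hlogM fun p => ?_
    rw [abs_mul, abs_of_nonneg (hb0 p).1]
    exact mul_le_mul (hb0 p).2 (hD' _ (hMb _)) (abs_nonneg _) hC0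
  have hi3 : Integrable (fun p : X × Y => F1 p.1 * M p.2) (μ.prod ν) :=
    (integrable_Icc hF1m fun x => hIcc (hF1b x)).mul_prod (integrable_Icc hMm fun x => hIcc (hMb x))
  have hi4 : Integrable (fun p : X × Y => xl (F p)) (μ.prod ν) := integrable_xl hF hb0
  have e1 : ∫ p, F p * Real.log (F1 p.1) ∂(μ.prod ν) = ∫ x, xl (F1 x) ∂μ := by
    rw [integral_prod _ hi1]
    refine integral_congr_ae (Filter.Eventually.of_forall fun x => ?_)
    simp only
    rw [integral_mul_const]
    rfl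
  have e2 : ∫ p, F p * Real.log (M p.2) ∂(μ.prod ν) = ∫ y, xl (M y) ∂ν := by
    rw [integral_prod_symm _ hi2]
    refine integral_congr_ae (Filter.Eventually.of_forall fun x => ?_)
    simp only
    rw [integral_mul_const]
    rfl
  have e3 : ∫ p, F1 p.1 * M p.2 ∂(μ.prod ν) = m * m := by
    rw [integral_prod_mul, ← hm1, ← hm2]
  have e4 : ∫ x, ∫ y, xl (F (x, y)) ∂ν ∂μ = ∫ p, xl (F p) ∂(μ.prod ν) := (integral_prod _ hi4).symm
  have e5 : ∫ y, ∫ x, xl (F (x, y)) ∂μ ∂ν = ∫ p, xl (F p) ∂(μ.prod ν) :=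
    (integral_prod_symm _ hi4).symm
  have key : ∫ p, (F p * Real.log (F1 p.1) + F p * Real.log (M p.2) + F p - F1 p.1 * M p.2 / m)
      ∂(μ.prod ν) ≤ ∫ p, (xl (F p) + F p * Real.log m) ∂(μ.prod ν) := by
    apply integral_mono
    · exact ((hi1.add hi2).add hFi).sub (hi3.div_const _)
    · exact hi4.add (hFi.mul_const _)
    · intro p
      exact xl_key (hε.trans_le (hb p).1) (hε.trans_le (hF1b _).1) (hε.trans_le (hMb _).1) hm0
  have k1 : ∫ p, (F p * Real.log (F1 p.1) + F p * Real.log (M p.2) + F p - F1 p.1 * M p.2 / m)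
      ∂(μ.prod ν) = (∫ x, xl (F1 x) ∂μ) + (∫ y, xl (M y) ∂ν) + m - m * m / m := by
    rw [integral_sub (f := fun p => F p * Real.log (F1 p.1) + F p * Real.log (M p.2) + F p)
      ((hi1.add hi2).add hFi) (hi3.div_const _),
      integral_add (f := fun p => F p * Real.log (F1 p.1) + F p * Real.log (M p.2))
      (hi1.add hi2) hFi,
      integral_add hi1 hi2, integral_div, e1, e2, e3, ← hm]
  have k2 : ∫ p, (xl (F p) + F p * Real.log m) ∂(μ.prod ν) =
      (∫ p, xl (F p) ∂(μ.prod ν)) + m * Real.log m := by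
    rw [integral_add hi4 (hFi.mul_const _), integral_mul_const, ← hm]
  rw [k1, k2] at key
  have hmm : m * m / m = m := by field_simp
  rw [hmm] at key
  have r1 : ∫ x, Ent ν (fun y => F (x, y)) ∂μ = (∫ p, xl (F p) ∂(μ.prod ν)) - ∫ x, xl (F1 x) ∂μ := by
    rw [← e4, ← integral_sub]
    · rfl
    · obtain ⟨D2, hD2⟩ := xl_bound C
      refine integrable_bdd (C := D2)
        (meas_int_right (F := fun p => xl (F p)) (continuous_xl.measurable.comp hF)) fun x => ?_
      have := norm_integral_le_of_norm_le_const (μ := ν) (C := D2)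
        (f := fun y => xl (F (x, y))) (Filter.Eventually.of_forall fun y => hD2 _ (hb0 _))
      simpa using this
    · exact integrable_xl hF1m fun x => hIcc (hF1b x)
  have r2 : ∫ y, Ent μ (fun x => F (x, y)) ∂ν = (∫ p, xl (F p) ∂(μ.prod ν)) - ∫ y, xl (M y) ∂ν := by
    rw [← e5, ← integral_sub]
    · rfl
    · obtain ⟨D2, hD2⟩ := xl_bound C
      refine integrable_bdd (C := D2)
        (meas_int_left (F := fun p => xl (F p)) (continuous_xl.measurable.comp hF)) fun y => ?_
      have := norm_integral_le_of_norm_le_const (μ := μ) (C := D2)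
        (f := fun x => xl (F (x, y))) (Filter.Eventually.of_forall fun x => hD2 _ (hb0 _))
      simpa using this
    · exact integrable_xl hMm fun x => hIcc (hMb x)
  rw [r1, r2, Ent_eq, ← hm]
  unfold xl at *
  linarith

theorem ent_prod {F : X × Y → ℝ} {C : ℝ} (hF : Measurable F) (hb : ∀ p, F p ∈ Icc 0 C) :
    Ent (μ.prod ν) F ≤ (∫ x, Ent ν (fun y => F (x, y)) ∂μ) + ∫ y, Ent μ (fun x => F (x, y)) ∂ν := by
  refine le_of_forall_pos_le_add fun η hη => ?_
  obtain ⟨ε, hε0, hε1, hε⟩ := xl_unif C (η / 6) (by positivity)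
  have hbε : ∀ p, F p + ε ∈ Icc ε (C + ε) := fun p =>
    ⟨by linarith [(hb p).1], by linarith [(hb p).2]⟩
  have hbε0 : ∀ p, F p + ε ∈ Icc 0 (C + ε) := fun p =>
    ⟨by linarith [(hb p).1], by linarith [(hb p).2]⟩
  have h1 := ent_prod_pos (μ := μ) (ν := ν) (hF.add_const ε) hε0 hbε
  have h2 := Ent_add_close (μ := μ.prod ν) hF hb hε0 hε
  have h3 : ∫ x, Ent ν (fun y => F (x, y) + ε) ∂μ ≤
      (∫ x, Ent ν (fun y => F (x, y)) ∂μ) + 2 * (η / 6) := by
    have : ∫ x, Ent ν (fun y => F (x, y) + ε) ∂μ ≤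
        ∫ x, (Ent ν (fun y => F (x, y)) + 2 * (η / 6)) ∂μ := by
      apply integral_mono
      · exact Ent_right_int (F := fun p => F p + ε) (hF.add_const ε) hbε0
      · exact (Ent_right_int hF hb).add (integrable_const _)
      · intro x
        have := Ent_add_close (μ := ν) (F := fun y => F (x, y)) (hF.comp measurable_prodMk_left)
          (fun y => hb _) hε0 hε
        simp only
        linarith [(abs_le.1 this).2]
    rw [integral_add (Ent_right_int hF hb) (integrable_const _)] at this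
    simpa using this
  have h4 : ∫ y, Ent μ (fun x => F (x, y) + ε) ∂ν ≤
      (∫ y, Ent μ (fun x => F (x, y)) ∂ν) + 2 * (η / 6) := by
    have : ∫ y, Ent μ (fun x => F (x, y) + ε) ∂ν ≤
        ∫ y, (Ent μ (fun x => F (x, y)) + 2 * (η / 6)) ∂ν := by
      apply integral_mono
      · exact Ent_left_int (F := fun p => F p + ε) (hF.add_const ε) hbε0
      · exact (Ent_left_int hF hb).add (integrable_const _)
      · intro y
        have := Ent_add_close (μ := μ) (F := fun x => F (x, y)) (hF.comp measurable_prodMk_right)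
          (fun y => hb _) hε0 hε
        simp only
        linarith [(abs_le.1 this).2]
    rw [integral_add (Ent_left_int hF hb) (integrable_const _)] at this
    simpa using this
  linarith [(abs_le.1 h2).1]

/-- version for functions bounded on a set of full measure -/
theorem ent_prod_compact {F : X × Y → ℝ} {C : ℝ} (hF : Measurable F) {K : Set X} {K' : Set Y}
    (hK : MeasurableSet K) (hK' : MeasurableSet K') (h0 : μ Kᶜ = 0) (h0' : ν K'ᶜ = 0)
    (hb : ∀ p ∈ K ×ˢ K', F p ∈ Icc 0 C) (hC : 0 ≤ C) {A : X → ℝ} {B : Y → ℝ}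
    (hA : Integrable A μ) (hB : Integrable B ν)
    (hA' : ∀ x ∈ K, Ent ν (fun y => F (x, y)) ≤ A x)
    (hB' : ∀ y ∈ K', Ent μ (fun x => F (x, y)) ≤ B y) :
    Ent (μ.prod ν) F ≤ (∫ x, A x ∂μ) + ∫ y, B y ∂ν := by
  set G : X × Y → ℝ := (K ×ˢ K').indicator F with hG
  have hGm : Measurable G := hF.indicator (hK.prod hK')
  have hGb : ∀ p, G p ∈ Icc 0 C := by
    intro p
    by_cases hp : p ∈ K ×ˢ K'
    · rw [hG, indicator_of_mem hp]; exact hb p hp
    · rw [hG, indicator_of_notMem hp]; exact ⟨le_rfl, hC⟩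
  have hKae : ∀ᵐ x ∂μ, x ∈ K := by rw [ae_iff]; exact h0
  have hKae' : ∀ᵐ y ∂ν, y ∈ K' := by rw [ae_iff]; exact h0'
  have hFG : F =ᵐ[μ.prod ν] G := by
    have h1 : ∀ᵐ p ∂(μ.prod ν), p.1 ∈ K := by
      have := (Measure.quasiMeasurePreserving_fst (μ := μ) (ν := ν)).ae hKae
      exact this
    have h2 : ∀ᵐ p ∂(μ.prod ν), p.2 ∈ K' := by
      have := (Measure.quasiMeasurePreserving_snd (μ := μ) (ν := ν)).ae hKae'
      exact this
    filter_upwards [h1, h2] with p hp1 hp2
    rw [hG, indicator_of_mem (show p ∈ K ×ˢ K' from ⟨hp1, hp2⟩)]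
  rw [Ent_congr hFG]
  refine (ent_prod hGm hGb).trans (add_le_add ?_ ?_)
  · apply integral_mono_ae (Ent_right_int hGm hGb) hA
    filter_upwards [hKae] with x hx
    have : (fun y => G (x, y)) =ᵐ[ν] fun y => F (x, y) := by
      filter_upwards [hKae'] with y hy
      rw [hG, indicator_of_mem (show (x, y) ∈ K ×ˢ K' from ⟨hx, hy⟩)]
    rw [Ent_congr this]
    exact hA' x hx
  · apply integral_mono_ae (Ent_left_int hGm hGb) hB
    filter_upwards [hKae'] with y hy
    have : (fun x => G (x, y)) =ᵐ[μ] fun x => F (x, y) := by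
      filter_upwards [hKae] with x hx
      rw [hG, indicator_of_mem (show (x, y) ∈ K ×ˢ K' from ⟨hx, hy⟩)]
    rw [Ent_congr this]
    exact hB' y hy

end prod

end Pool.Agent.Q196.GT
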