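import Pool.Agent.Q196.GT.Meas

/-!
# Upper bound for the log-Sobolev constant of the measure
-/

set_option autoImplicit false

open MeasureTheory Set
open scoped ENNReal NNReal ContDiff
set_option linter.unusedSectionVars false

noncomputable section

namespace Pool.Agent.Q196.GT

theorem clm_expand {n : ℕ} (φ : E n →L[ℝ] ℝ) (v : E n) :
    φ v = ∑ k, v k * φ (EuclideanSpace.single k 1) := by
  conv_lhs => rw [← (EuclideanSpace.basisFun (Fin n) ℝ).sum_repr v]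
  rw [map_sum]
  refine Finset.sum_congr rfl fun k _ => ?_
  rw [map_smul]
  simp

theorem sum_sq_le {n : ℕ} (φ : E n →L[ℝ] ℝ) :
    ∑ k, φ (EuclideanSpace.single k 1) ^ 2 ≤ ‖φ‖ ^ 2 := by
  set p : Fin n → ℝ := fun k => φ (EuclideanSpace.single k 1)
  set v : E n := WithLp.toLp 2 p with hv
  have h1 : φ v = ∑ k, p k ^ 2 := by
    rw [clm_expand]
    refine Finset.sum_congr rfl fun k _ => ?_
    change p k * p k = p k ^ 2
    ring
  have h2 : ‖v‖ ^ 2 = ∑ k, p k ^ 2 := by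
    rw [EuclideanSpace.norm_sq_eq]
    refine Finset.sum_congr rfl fun k _ => ?_
    simp [hv]
  have h3 : φ v ≤ ‖φ‖ * ‖v‖ := (le_abs_self _).trans (φ.le_opNorm v)
  set S := ∑ k, p k ^ 2
  have hS : 0 ≤ S := Finset.sum_nonneg fun k _ => sq_nonneg _
  rw [h1] at h3
  by_contra hc
  push Not at hc
  have h4 : ‖v‖ ^ 2 = S := h2
  have h5 : 0 ≤ ‖φ‖ := norm_nonneg _
  have h6 : 0 ≤ ‖v‖ := norm_nonneg _
  have hc' : ‖φ‖ ^ 2 < S := hc
  have hv0 : 0 < ‖v‖ := by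
    rcases h6.eq_or_lt with h | h
    · rw [← h] at h4
      nlinarith [sq_nonneg ‖φ‖]
    · exact h
  have h7 : ‖v‖ ≤ ‖φ‖ := by
    have : ‖v‖ * ‖v‖ ≤ ‖φ‖ * ‖v‖ := by nlinarith
    exact le_of_mul_le_mul_right this hv0
  nlinarith

theorem fderiv_coord {n m : ℕ} {T : (Fin n → ℝ) → E m} (hT : Differentiable ℝ T)
    (s v : Fin n → ℝ) (k : Fin m) :
    (fderiv ℝ T s v) k = fderiv ℝ (fun s => T s k) s v := by
  have h1 := ((EuclideanSpace.proj k : E m →L[ℝ] ℝ).hasFDerivAt (x := T s)).comp s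
    (hT s).hasFDerivAt
  have h2 : (fun s => T s k) = (EuclideanSpace.proj k : E m →L[ℝ] ℝ) ∘ T := rfl
  rw [h2, h1.fderiv]
  rfl

section
variable {N : ℕ}

theorem D0_0 (s : Fin (N ^ 6 + 1) → ℝ) :
    fderiv ℝ (fun s => TT N s 0) s (Pi.single 0 1) = -(1 / √(vr N)) := by
  have h : HasFDerivAt (fun s : Fin (N ^ 6 + 1) → ℝ => TT N s 0)
      ((1 / √(vr N)) • (-(ContinuousLinearMap.proj (R := ℝ) (φ := fun _ : Fin (N ^ 6 + 1) => ℝ) 0)))
      s := by
    simp only [TT_zero]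
    have h1 := ((hasFDerivAt_apply (𝕜 := ℝ) (0 : Fin (N ^ 6 + 1)) s).const_sub (av N)).const_mul
      (1 / √(vr N))
    refine h1.congr_of_eventuallyEq (Filter.Eventually.of_forall fun s => ?_)
    simp only
    ring
  rw [h.fderiv]
  simp

theorem D0_s (s : Fin (N ^ 6 + 1) → ℝ) (i : Fin (N ^ 6)) :
    fderiv ℝ (fun s => TT N s 0) s (Pi.single i.succ 1) = 0 := by
  have h : HasFDerivAt (fun s : Fin (N ^ 6 + 1) → ℝ => TT N s 0)
      ((1 / √(vr N)) • (-(ContinuousLinearMap.proj (R := ℝ) (φ := fun _ : Fin (N ^ 6 + 1) => ℝ) 0)))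
      s := by
    simp only [TT_zero]
    have h1 := ((hasFDerivAt_apply (𝕜 := ℝ) (0 : Fin (N ^ 6 + 1)) s).const_sub (av N)).const_mul
      (1 / √(vr N))
    refine h1.congr_of_eventuallyEq (Filter.Eventually.of_forall fun s => ?_)
    simp only
    ring
  rw [h.fderiv]
  simp [Pi.single_eq_of_ne (Fin.succ_ne_zero i).symm]

theorem Ds (s : Fin (N ^ 6 + 1) → ℝ) (j : Fin (N ^ 6)) :
    HasFDerivAt (fun s : Fin (N ^ 6 + 1) → ℝ => TT N s j.succ)
      ((√(R2 N) * (1 - s 0 / (N : ℝ) ^ 4)) •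
        ((2 : ℝ) • (ContinuousLinearMap.proj (R := ℝ) (φ := fun _ : Fin (N ^ 6 + 1) => ℝ) j.succ)) +
        (2 * s j.succ - 1) • ((√(R2 N) * (1 / (N : ℝ) ^ 4)) •
        (-(ContinuousLinearMap.proj (R := ℝ) (φ := fun _ : Fin (N ^ 6 + 1) => ℝ) 0)))) s := by
  simp only [TT_succ]
  have h1 : HasFDerivAt (fun s : Fin (N ^ 6 + 1) → ℝ => √(R2 N) * (1 - s 0 / (N : ℝ) ^ 4))
      ((√(R2 N) * (1 / (N : ℝ) ^ 4)) •
        (-(ContinuousLinearMap.proj (R := ℝ) (φ := fun _ : Fin (N ^ 6 + 1) => ℝ) 0))) s := by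
    have h2 := ((hasFDerivAt_apply (𝕜 := ℝ) (0 : Fin (N ^ 6 + 1)) s).const_sub
      ((N : ℝ) ^ 4)).const_mul (√(R2 N) * (1 / (N : ℝ) ^ 4))
    by_cases hN : (N : ℝ) = 0
    · rw [hN]
      simp only [ne_eq, OfNat.ofNat_ne_zero, not_false_eq_true, zero_pow, div_zero, sub_zero,
        mul_one, mul_zero, zero_smul]
      exact hasFDerivAt_const _ _
    refine h2.congr_of_eventuallyEq (Filter.Eventually.of_forall fun s => ?_)
    simp only
    field_simp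
  have h3 : HasFDerivAt (fun s : Fin (N ^ 6 + 1) → ℝ => 2 * s j.succ - 1)
      ((2 : ℝ) • (ContinuousLinearMap.proj (R := ℝ) (φ := fun _ : Fin (N ^ 6 + 1) => ℝ) j.succ))
      s :=
    ((hasFDerivAt_apply (𝕜 := ℝ) j.succ s).const_mul 2).sub_const 1
  exact h1.mul h3

theorem Ds_0 (s : Fin (N ^ 6 + 1) → ℝ) (j : Fin (N ^ 6)) :
    fderiv ℝ (fun s => TT N s j.succ) s (Pi.single 0 1) =
      -(√(R2 N) * (1 / (N : ℝ) ^ 4)) * (2 * s j.succ - 1) := by
  rw [(Ds s j).fderiv]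
  simp [Pi.single_eq_of_ne (Fin.succ_ne_zero j)]
  ring

theorem Ds_s (s : Fin (N ^ 6 + 1) → ℝ) (i j : Fin (N ^ 6)) :
    fderiv ℝ (fun s => TT N s j.succ) s (Pi.single i.succ 1) =
      if j = i then 2 * (√(R2 N) * (1 - s 0 / (N : ℝ) ^ 4)) else 0 := by
  rw [(Ds s j).fderiv]
  by_cases h : j = i
  · subst h
    simp [Pi.single_eq_of_ne (Fin.succ_ne_zero j).symm]
    ring
  · have h' : j.succ ≠ i.succ := fun hh => h (Fin.succ_injective _ hh)
    simp [Pi.single_eq_of_ne (Fin.succ_ne_zero i).symm, Pi.single_eq_of_ne h', h]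

/-- the constants -/
def cc (N : ℕ) : Fin (N ^ 6 + 1) → ℝ := Fin.cons (70 * N) (fun _ => 44)

variable (hN : 2 ≤ N)
include hN

theorem lsi_mu : ∀ i, LSI1 (mu N i) (cc N i) := by
  intro i
  refine Fin.cases ?_ (fun j => ?_) i
  · exact lsi_nu hN
  · exact lsi_U

theorem pointwise (φ : E (N ^ 6 + 1) →L[ℝ] ℝ) {s : Fin (N ^ 6 + 1) → ℝ}
    (hs : s ∈ univ.pi (KK N)) :
    ∑ i, cc N i * (φ (fderiv ℝ (TT N) s (Pi.single i 1))) ^ 2 ≤
      2000 * N / vr N * ‖φ‖ ^ 2 := by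
  have hTd : Differentiable ℝ (TT N) := (TT_contDiff N).differentiable (by simp)
  have hV := vr_pos hN
  have hV4 := vr_le hN
  have hR3 := R2_ge hN
  have hR4 := R2_le4 hN
  have h0 : (0 : ℝ) < N := by positivity
  have h2 : (2 : ℝ) ≤ N := by exact_mod_cast hN
  have hs0 : s 0 ∈ Icc 0 (N : ℝ) := hs 0 (mem_univ _)
  have hsj : ∀ j : Fin (N ^ 6), s j.succ ∈ Icc (0 : ℝ) 1 := fun j => hs j.succ (mem_univ _)
  set p : Fin (N ^ 6 + 1) → ℝ := fun k => φ (EuclideanSpace.single k 1) with hp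
  set Sp := ∑ j : Fin (N ^ 6), p j.succ ^ 2 with hSp
  have hSp0 : 0 ≤ Sp := Finset.sum_nonneg fun _ _ => sq_nonneg _
  have hnorm : p 0 ^ 2 + Sp ≤ ‖φ‖ ^ 2 := by
    have := sum_sq_le φ
    rwa [Fin.sum_univ_succ] at this
  have e0 : φ (fderiv ℝ (TT N) s (Pi.single 0 1)) =
      -(1 / √(vr N)) * p 0 + -(√(R2 N) * (1 / (N : ℝ) ^ 4)) * ∑ j : Fin (N ^ 6),
        (2 * s j.succ - 1) * p j.succ := by
    rw [clm_expand φ, Fin.sum_univ_succ, fderiv_coord hTd, D0_0]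
    congr 1
    rw [Finset.mul_sum]
    refine Finset.sum_congr rfl fun j _ => ?_
    rw [fderiv_coord hTd, Ds_0]
    ring
  have es : ∀ i : Fin (N ^ 6), φ (fderiv ℝ (TT N) s (Pi.single i.succ 1)) =
      2 * (√(R2 N) * (1 - s 0 / (N : ℝ) ^ 4)) * p i.succ := by
    intro i
    rw [clm_expand φ, Fin.sum_univ_succ, fderiv_coord hTd, D0_s, zero_mul, zero_add,
      Finset.sum_eq_single i]
    · rw [fderiv_coord hTd, Ds_s, if_pos rfl]
    · intro j _ hj
      rw [fderiv_coord hTd, Ds_s, if_neg hj, zero_mul]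
    · intro hi; exact absurd (Finset.mem_univ i) hi
  have b0 : (φ (fderiv ℝ (TT N) s (Pi.single 0 1))) ^ 2 ≤
      2 * (1 / vr N) * p 0 ^ 2 + 8 / (N : ℝ) ^ 2 * Sp := by
    rw [e0]
    set X := ∑ j : Fin (N ^ 6), (2 * s j.succ - 1) * p j.succ with hX
    have hXb : X ^ 2 ≤ (N : ℝ) ^ 6 * Sp := by
      have h1 := Finset.sum_mul_sq_le_sq_mul_sq Finset.univ
        (fun j : Fin (N ^ 6) => 2 * s j.succ - 1) (fun j => p j.succ)
      refine h1.trans (mul_le_mul_of_nonneg_right ?_ hSp0)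
      calc ∑ j : Fin (N ^ 6), (2 * s j.succ - 1) ^ 2 ≤ ∑ _j : Fin (N ^ 6), (1 : ℝ) := by
            refine Finset.sum_le_sum fun j _ => ?_
            have := hsj j
            nlinarith [this.1, this.2]
        _ = (N : ℝ) ^ 6 := by simp
    have h3 : (√(R2 N) * (1 / (N : ℝ) ^ 4)) ^ 2 = R2 N * (1 / (N : ℝ) ^ 8) := by
      rw [mul_pow, Real.sq_sqrt (by linarith)]
      congr 1
      field_simp
    have h4 : (1 / √(vr N)) ^ 2 = 1 / vr N := by
      rw [div_pow, Real.sq_sqrt hV.le, one_pow]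
    have h5 : (-(1 / √(vr N)) * p 0 + -(√(R2 N) * (1 / (N : ℝ) ^ 4)) * X) ^ 2 ≤
        2 * (1 / vr N) * p 0 ^ 2 + 2 * (R2 N * (1 / (N : ℝ) ^ 8)) * X ^ 2 := by
      rw [← h3, ← h4]
      nlinarith [sq_nonneg ((1 / √(vr N)) * p 0 - (√(R2 N) * (1 / (N : ℝ) ^ 4)) * X)]
    refine h5.trans ?_
    have h6 : 2 * (R2 N * (1 / (N : ℝ) ^ 8)) * X ^ 2 ≤
        2 * (4 * (1 / (N : ℝ) ^ 8)) * ((N : ℝ) ^ 6 * Sp) := by gcongr
    have h7 : 2 * (4 * (1 / (N : ℝ) ^ 8)) * ((N : ℝ) ^ 6 * Sp) = 8 / (N : ℝ) ^ 2 * Sp := by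
      field_simp
      ring
    linarith
  have bs : ∑ i : Fin (N ^ 6), 44 * (φ (fderiv ℝ (TT N) s (Pi.single i.succ 1))) ^ 2 ≤
      704 * Sp := by
    rw [hSp, Finset.mul_sum]
    refine Finset.sum_le_sum fun i _ => ?_
    rw [es i]
    have h1 := one_sub_le hN hs0
    have h1' := one_sub_pos hN hs0
    have h3 : (2 * (√(R2 N) * (1 - s 0 / (N : ℝ) ^ 4)) * p i.succ) ^ 2 =
        4 * (R2 N * (1 - s 0 / (N : ℝ) ^ 4) ^ 2) * p i.succ ^ 2 := by
      rw [mul_pow, mul_pow, mul_pow, Real.sq_sqrt (by linarith)]; ring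
    rw [h3]
    have h4 : R2 N * (1 - s 0 / (N : ℝ) ^ 4) ^ 2 ≤ 4 * 1 := by
      apply mul_le_mul hR4 _ (sq_nonneg _) (by norm_num)
      exact pow_le_one₀ (by linarith) h1
    nlinarith [sq_nonneg (p i.succ)]
  rw [Fin.sum_univ_succ]
  have hc0 : cc N 0 = 70 * N := rfl
  have hcs : ∀ i : Fin (N ^ 6), cc N i.succ = 44 := fun _ => rfl
  rw [hc0]
  simp only [hcs]
  have t1 : 70 * N * (φ (fderiv ℝ (TT N) s (Pi.single 0 1))) ^ 2 ≤
      70 * N * (2 * (1 / vr N) * p 0 ^ 2 + 8 / (N : ℝ) ^ 2 * Sp) :=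
    mul_le_mul_of_nonneg_left b0 (by positivity)
  have t2 : 70 * (N : ℝ) * (8 / (N : ℝ) ^ 2 * Sp) ≤ 280 * Sp := by
    have : 70 * (N : ℝ) * (8 / (N : ℝ) ^ 2 * Sp) = 560 / N * Sp := by field_simp; ring
    rw [this]
    apply mul_le_mul_of_nonneg_right _ hSp0
    rw [div_le_iff₀ h0]; linarith
  have t3 : 984 * Sp ≤ 2000 * N / vr N * Sp := by
    apply mul_le_mul_of_nonneg_right _ hSp0
    rw [le_div_iff₀ hV]; nlinarith
  have t4 : 70 * (N : ℝ) * (2 * (1 / vr N) * p 0 ^ 2) ≤ 2000 * N / vr N * p 0 ^ 2 := by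
    have : 70 * (N : ℝ) * (2 * (1 / vr N) * p 0 ^ 2) = 140 * N / vr N * p 0 ^ 2 := by
      field_simp; ring
    rw [this]
    gcongr
    norm_num
  have t5 : 2000 * N / vr N * (p 0 ^ 2 + Sp) ≤ 2000 * N / vr N * ‖φ‖ ^ 2 :=
    mul_le_mul_of_nonneg_left hnorm (by positivity)
  nlinarith

theorem lsi_PI : LSI (PI N) (2000 * N / vr N) := by
  intro f hf
  have := mu_prob hN
  have hf1 : ContDiff ℝ 1 f := hf.of_le (by exact_mod_cast le_top)
  have hT1 : ContDiff ℝ 1 (TT N) := (TT_contDiff N).of_le (by exact_mod_cast le_top)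
  have hTd : Differentiable ℝ (TT N) := hT1.differentiable (by norm_num)
  have hfd : Differentiable ℝ f := hf1.differentiable (by norm_num)
  have hTf : Continuous (fderiv ℝ (TT N)) := hT1.continuous_fderiv (by norm_num)
  have hff : Continuous (fderiv ℝ f) := hf1.continuous_fderiv (by norm_num)
  have hmp : MeasurePreserving (TT N) (Measure.pi (mu N)) (PI N) :=
    ⟨(TT_cont N).measurable, rfl⟩
  rw [Ent_map hmp (F := fun x => f x ^ 2) (hfd.continuous.pow 2).measurable,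
    int_PI (φ := fun x => ‖fderiv ℝ f x‖ ^ 2) (hff.norm.pow 2)]
  refine (lsi_pi _ (mu N) (KK N) (KK_compact N) (mu_KK N) (cc N) (lsi_mu hN)
    (fun s => f (TT N s)) (hf1.comp hT1)).trans ?_
  have hch : ∀ s i, fderiv ℝ (fun s => f (TT N s)) s (Pi.single i 1) =
      fderiv ℝ f (TT N s) (fderiv ℝ (TT N) s (Pi.single i 1)) := by
    intro s i
    have h1 := ((hfd (TT N s)).hasFDerivAt).comp s (hTd s).hasFDerivAt
    have h2 : (fun s => f (TT N s)) = f ∘ TT N := rfl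
    rw [h2, h1.fderiv]
    rfl
  simp only [hch]
  have hcont : ∀ i, Continuous fun s =>
      (fderiv ℝ f (TT N s) (fderiv ℝ (TT N) s (Pi.single i 1))) ^ 2 := by
    intro i
    exact ((hff.comp (TT_cont N)).clm_apply (hTf.clm_apply continuous_const)).pow 2
  have e : ∑ i, cc N i * ∫ s, (fderiv ℝ f (TT N s) (fderiv ℝ (TT N) s (Pi.single i 1))) ^ 2
      ∂(Measure.pi (mu N)) = ∫ s, (∑ i, cc N i *
        (fderiv ℝ f (TT N s) (fderiv ℝ (TT N) s (Pi.single i 1))) ^ 2) ∂(Measure.pi (mu N)) := by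
    rw [integral_finsetSum]
    · refine Finset.sum_congr rfl fun i _ => ?_
      rw [integral_const_mul]
    · intro i _
      exact (int_P hN (hcont i)).const_mul _
  rw [e, ← integral_const_mul]
  apply integral_mono_ae
  · exact integrable_finsetSum _ fun i _ => (int_P hN (hcont i)).const_mul _
  · exact (int_P hN (φ := fun s => ‖fderiv ℝ f (TT N s)‖ ^ 2)
      ((hff.comp (TT_cont N)).norm.pow 2)).const_mul _
  · have hae : ∀ᵐ s ∂(Measure.pi (mu N)), s ∈ univ.pi (KK N) := by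
      rw [ae_iff]
      exact pi_compl_null (mu N) (KK N) (fun i => (KK_compact N i).measurableSet) (mu_KK N)
    filter_upwards [hae] with s hs
    exact pointwise hN (fderiv ℝ f (TT N s)) hs

end

end Pool.Agent.Q196.GT
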